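import Pool.Agent.X32.Uni.Gold
import Pool.Agent.X32.Uni.Up

/-!
# The product for the forms `n`, `m - n` and the singular series of Goldbach's problem (helper2)
-/

set_option autoImplicit false

namespace Pool.Agent.T6.H2.PT

open Finset Filter
open Pool.Agent.X32.Uni

theorem nuG_one (m p : ℕ) (hp : p.Prime) : nuG ![m] p = if p ∣ m then 1 else 2 := by
  classical
  unfold nuG
  have h1 : (univ.image ![m] : Finset ℕ) = {m} := by
    ext x
    simp
  rw [h1]
  split_ifs with h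
  · have : (insert 0 ({m} : Finset ℕ)).image (fun a => a % p) = {0} := by
      ext x
      simp only [mem_image, mem_insert, mem_singleton]
      constructor
      · rintro ⟨a, ha | ha, rfl⟩
        · rw [ha]; exact Nat.zero_mod _
        · rw [ha]; exact Nat.mod_eq_zero_of_dvd h
      · rintro rfl
        exact ⟨0, Or.inl rfl, Nat.zero_mod _⟩
    rw [this, card_singleton]
  · have : (insert 0 ({m} : Finset ℕ)).image (fun a => a % p) = {0, m % p} := by
      ext x
      simp only [mem_image, mem_insert, mem_singleton]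
      constructor
      · rintro ⟨a, ha | ha, rfl⟩
        · left; rw [ha]; exact Nat.zero_mod _
        · right; rw [ha]
      · rintro (rfl | rfl)
        · exact ⟨0, Or.inl rfl, Nat.zero_mod _⟩
        · exact ⟨m, Or.inr rfl, rfl⟩
    rw [this, card_pair]
    intro h0
    exact h (Nat.dvd_of_mod_eq_zero h0.symm)

theorem VL_gold : ∀ᶠ m : ℕ in atTop, 2 ∣ m → VL (uG 1) (vG ![m]) m ≤
    2 * (∏ p ∈ m.primeFactors.filter (fun p => 2 < p), ((p : ℝ) - 1) / ((p : ℝ) - 2)) / Real.log m ^ 2 := by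
  classical
  filter_upwards [prod_inv_le, eventually_ge_atTop 3] with m hm hm3 h2
  have hlog : 0 < Real.log m := Real.log_pos (by exact_mod_cast (by omega : 1 < m))
  rw [VG_eq]
  unfold VG
  obtain ⟨P, hP⟩ : ∃ P : Finset ℕ, P = (Icc 1 m).filter Nat.Prime := ⟨_, rfl⟩
  have hPp : ∀ p ∈ P, p.Prime := by
    intro p hp
    rw [hP] at hp
    exact (mem_filter.1 hp).2
  rw [← hP] at hm ⊢
  have h1 : ∏ p ∈ P, (1 - (nuG ![m] p : ℝ) / p) ≤ ∏ p ∈ P, ((1 - (p : ℝ)⁻¹) ^ 2 *
      ((if p = 2 then 2 else 1) * (if p ∣ m ∧ 2 < p then ((p : ℝ) - 1) / ((p : ℝ) - 2) else 1))) := by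
    apply Finset.prod_le_prod
    · intro p hp
      have hpp := hPp p hp
      have hp2 : (2 : ℝ) ≤ p := by exact_mod_cast hpp.two_le
      rw [nuG_one m p hpp]
      have : (((if p ∣ m then 1 else 2 : ℕ) : ℕ) : ℝ) ≤ 2 := by
        split_ifs <;> norm_num
      have h3 : (((if p ∣ m then 1 else 2 : ℕ) : ℕ) : ℝ) / p ≤ 1 := by
        rw [div_le_one (by linarith)]
        linarith
      linarith
    · intro p hp
      have hpp := hPp p hp
      rw [nuG_one m p hpp]
      rcases eq_or_ne p 2 with rfl | hp2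
      · rw [if_pos h2, if_pos rfl, if_neg (by omega)]
        norm_num
      · have hp3 : 3 ≤ p := by
          have := hpp.two_le
          omega
        have hp3' : (3 : ℝ) ≤ p := by exact_mod_cast hp3
        rw [if_neg hp2, one_mul]
        by_cases hd : p ∣ m
        · rw [if_pos hd, if_pos ⟨hd, by omega⟩]
          have h5 : (0 : ℝ) < (p : ℝ) - 2 := by linarith
          have h6 : (0 : ℝ) < (p : ℝ) := by linarith
          have h7 : (1 - (p : ℝ)⁻¹) ^ 2 * (((p : ℝ) - 1) / ((p : ℝ) - 2)) =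
            ((p : ℝ) - 1) ^ 3 / ((p : ℝ) ^ 2 * ((p : ℝ) - 2)) := by
            field_simp
          rw [h7]
          have h8 : (1 : ℝ) - ((1 : ℕ) : ℝ) / p = ((p : ℝ) - 1) / p := by
            field_simp
            push_cast
            ring
          rw [h8, div_le_div_iff₀ h6 (by positivity)]
          nlinarith
        · rw [if_neg hd, if_neg (fun h => hd h.1), mul_one]
          have h6 : (0 : ℝ) < (p : ℝ) := by linarith
          have h7 : (1 - (p : ℝ)⁻¹) ^ 2 = 1 - ((2 : ℕ) : ℝ) / p + ((p : ℝ)⁻¹) ^ 2 := by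
            push_cast
            field_simp
            ring
          rw [h7]
          have : 0 ≤ ((p : ℝ)⁻¹) ^ 2 := by positivity
          linarith
  refine h1.trans ?_
  rw [prod_mul_distrib, prod_mul_distrib, prod_pow]
  have e1 : ∏ p ∈ P, (if p = 2 then (2 : ℝ) else 1) = 2 := by
    rw [prod_ite_eq' P 2 (fun _ => (2 : ℝ))]
    rw [if_pos]
    rw [hP, mem_filter, mem_Icc]
    exact ⟨⟨by omega, by omega⟩, Nat.prime_two⟩
  have e2 : ∏ p ∈ P, (if p ∣ m ∧ 2 < p then ((p : ℝ) - 1) / ((p : ℝ) - 2) else 1) =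
      ∏ p ∈ m.primeFactors.filter (fun p => 2 < p), ((p : ℝ) - 1) / ((p : ℝ) - 2) := by
    rw [← prod_filter]
    apply prod_congr _ (fun _ _ => rfl)
    ext p
    rw [mem_filter, mem_filter, Nat.mem_primeFactors, hP, mem_filter, mem_Icc]
    constructor
    · rintro ⟨⟨_, hp⟩, hd, hp2⟩
      exact ⟨⟨hp, hd, by omega⟩, hp2⟩
    · rintro ⟨⟨hp, hd, h0⟩, hp2⟩
      exact ⟨⟨⟨by omega, Nat.le_of_dvd (by omega) hd⟩, hp⟩, hd, hp2⟩
  rw [e1, e2]
  have e3 : 0 ≤ ∏ p ∈ m.primeFactors.filter (fun p => 2 < p), ((p : ℝ) - 1) / ((p : ℝ) - 2) := by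
    apply prod_nonneg
    intro p hp
    have : 2 < p := (mem_filter.1 hp).2
    have h3 : (3 : ℝ) ≤ p := by exact_mod_cast this
    exact div_nonneg (by linarith) (by linarith)
  have e4 : 0 ≤ ∏ p ∈ P, (1 - (p : ℝ)⁻¹) := by
    apply prod_nonneg
    intro p hp
    have hpp := hPp p hp
    have hp2 : (1 : ℝ) ≤ p := by exact_mod_cast hpp.one_le
    have := inv_le_one_of_one_le₀ hp2
    linarith
  have e5 : (∏ p ∈ P, (1 - (p : ℝ)⁻¹)) ^ 2 ≤ (1 / Real.log m) ^ 2 := pow_le_pow_left₀ e4 hm 2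
  calc (∏ p ∈ P, (1 - (p : ℝ)⁻¹)) ^ 2 * (2 * ∏ p ∈ m.primeFactors.filter (fun p => 2 < p), ((p : ℝ) - 1) / ((p : ℝ) - 2))
      ≤ (1 / Real.log m) ^ 2 * (2 * ∏ p ∈ m.primeFactors.filter (fun p => 2 < p), ((p : ℝ) - 1) / ((p : ℝ) - 2)) := by
        gcongr
    _ = 2 * (∏ p ∈ m.primeFactors.filter (fun p => 2 < p), ((p : ℝ) - 1) / ((p : ℝ) - 2)) / Real.log m ^ 2 := by
        rw [one_div, inv_pow]
        ring

end Pool.Agent.T6.H2.PT
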