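import Mathlib

/-!
# Limit points of normalised gaps: generalities (helper2)
-/

set_option autoImplicit false

namespace Pool.Agent.T6.H2.PT

open Finset Filter MeasureTheory

/-- `s < s'` are consecutive elements of `S` -/
def Consec (S : Set ℕ) (s s' : ℕ) : Prop := s ∈ S ∧ s' ∈ S ∧ s < s' ∧ ∀ m, s < m → m < s' → m ∉ S

/-- the limit points of the normalised differences `(s' - s) / (log s) ^ k` of the consecutive elements `s < s'`
of `S` -/
def LimGap (k : ℕ) (S : Set ℕ) : Set ℝ :=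
  {t | ∀ η : ℝ, 0 < η → ∀ N : ℕ, ∃ s s' : ℕ, N ≤ s ∧ Consec S s s' ∧ |((s' : ℝ) - s) / Real.log s ^ k - t| < η}

theorem isClosed_limGap (k : ℕ) (S : Set ℕ) : IsClosed (LimGap k S) := by
  rw [← isOpen_compl_iff, Metric.isOpen_iff]
  intro t ht
  rw [Set.mem_compl_iff] at ht
  unfold LimGap at ht
  simp only [Set.mem_ofPred_eq, not_forall] at ht
  obtain ⟨η, hη, N, h⟩ := ht
  push Not at h
  refine ⟨η / 2, by linarith, fun u hu => ?_⟩
  rw [Metric.mem_ball, Real.dist_eq] at hu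
  rw [Set.mem_compl_iff]
  intro hu'
  obtain ⟨s, s', h1, h2, h3⟩ := hu' (η / 2) (by linarith) N
  have h4 := h s s' h1 h2
  have h5 := abs_sub_le (((s' : ℝ) - s) / Real.log s ^ k) u t
  linarith

theorem avoid (k : ℕ) (S : Set ℕ) (Q : Set ℝ) (hQ : IsCompact Q) (h : ∀ t ∈ Q, t ∉ LimGap k S) :
    ∃ N : ℕ, ∀ s s' : ℕ, N ≤ s → Consec S s s' → ((s' : ℝ) - s) / Real.log s ^ k ∉ Q := by
  refine IsCompact.induction_on (p := fun Q => ∃ N : ℕ, ∀ s s' : ℕ, N ≤ s → Consec S s s' →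
    ((s' : ℝ) - s) / Real.log s ^ k ∉ Q) hQ ?_ ?_ ?_ ?_
  · exact ⟨0, fun s s' _ _ => Set.notMem_empty _⟩
  · rintro Q₁ Q₂ h12 ⟨N, hN⟩
    exact ⟨N, fun s s' h1 h2 h3 => hN s s' h1 h2 (h12 h3)⟩
  · rintro Q₁ Q₂ ⟨N₁, h1⟩ ⟨N₂, h2⟩
    refine ⟨N₁ + N₂, fun s s' h3 h4 h5 => ?_⟩
    rcases h5 with h5 | h5
    · exact h1 s s' (by omega) h4 h5
    · exact h2 s s' (by omega) h4 h5
  · intro t ht
    have h1 := h t ht
    unfold LimGap at h1
    simp only [Set.mem_ofPred_eq, not_forall] at h1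
    obtain ⟨η, hη, N, h2⟩ := h1
    push Not at h2
    refine ⟨Metric.ball t η, mem_nhdsWithin_of_mem_nhds (Metric.ball_mem_nhds t hη), N, fun s s' h3 h4 h5 => ?_⟩
    rw [Metric.mem_ball, Real.dist_eq] at h5
    linarith [h2 s s' h3 h4]

open Classical in
/-- most gaps are not much larger than the average -/
theorem small_gaps (S : Set ℕ) (B X G : ℕ) (hG : 1 ≤ G) :
    ((Ioc B X).filter (fun s => s ∈ S)).card ≤
      ((Ioc B X).filter (fun s => ∃ s', Consec S s s' ∧ s' ≤ s + G ∧ s' ≤ X)).card + G + X / G := by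
  obtain ⟨Big, hBig⟩ : ∃ Big : Finset ℕ, Big = (Ioc B X).filter
    (fun s => s ∈ S ∧ s + G ≤ X ∧ ∀ m, s < m → m ≤ s + G → m ∉ S) := ⟨_, rfl⟩
  have h1 : (Ioc B X).filter (fun s => s ∈ S) ⊆
      ((Ioc B X).filter (fun s => ∃ s', Consec S s s' ∧ s' ≤ s + G ∧ s' ≤ X) ∪ Ioc (X - G) X) ∪ Big := by
    intro s hs
    rw [mem_filter] at hs
    obtain ⟨hs1, hs2⟩ := hs
    rw [mem_union, mem_union]
    by_cases h2 : s + G ≤ X
    · by_cases h3 : ∀ m, s < m → m ≤ s + G → m ∉ S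
      · right
        rw [hBig, mem_filter]
        exact ⟨hs1, hs2, h2, h3⟩
      · left
        left
        push Not at h3
        rw [mem_filter]
        refine ⟨hs1, ?_⟩
        obtain ⟨m, hm1, hm2, hm3⟩ := h3
        have hex : ∃ m, s < m ∧ m ∈ S := ⟨m, hm1, hm3⟩
        obtain ⟨e1, e2⟩ := Nat.find_spec hex
        have e3 : Nat.find hex ≤ m := Nat.find_min' hex ⟨hm1, hm3⟩
        refine ⟨Nat.find hex, ⟨hs2, e2, e1, fun z hz1 hz2 hz3 => ?_⟩, e3.trans hm2, (e3.trans hm2).trans h2⟩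
        exact Nat.find_min hex hz2 ⟨hz1, hz3⟩
    · left
      right
      rw [mem_Ioc] at hs1 ⊢
      omega
  have h2 : Big.card * G ≤ X := by
    have h3 : (Big.biUnion (fun s => Ioc s (s + G))).card = Big.card * G := by
      rw [card_biUnion]
      · rw [sum_congr rfl (fun s _ => by rw [Nat.card_Ioc, Nat.add_sub_cancel_left] :
          ∀ s ∈ Big, (Ioc s (s + G)).card = G), sum_const, smul_eq_mul]
      · have key : ∀ s ∈ Big, ∀ s' ∈ Big, s < s' → Disjoint (Ioc s (s + G)) (Ioc s' (s' + G)) := by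
          intro s hs s' hs' h4
          rw [hBig, mem_filter] at hs hs'
          rw [Finset.disjoint_left]
          intro z hz hz'
          rw [mem_Ioc] at hz hz'
          exact hs.2.2.2 s' h4 (by omega) hs'.2.1
        intro s hs s' hs' hne
        rcases lt_or_gt_of_ne hne with h4 | h4
        · exact key s hs s' hs' h4
        · exact (key s' hs' s hs h4).symm
    have h4 : Big.biUnion (fun s => Ioc s (s + G)) ⊆ Ioc 0 X := by
      intro z hz
      rw [mem_biUnion] at hz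
      obtain ⟨s, hs, hz⟩ := hz
      rw [hBig, mem_filter] at hs
      rw [mem_Ioc] at hz ⊢
      omega
    have h5 := card_le_card h4
    rw [h3, Nat.card_Ioc] at h5
    omega
  have h3 : Big.card ≤ X / G := (Nat.le_div_iff_mul_le (by omega)).2 h2
  have h4 := (card_le_card h1).trans ((card_union_le _ _).trans (Nat.add_le_add_right (card_union_le _ _) _))
  have h5 : (Ioc (X - G) X).card ≤ G := by
    rw [Nat.card_Ioc]
    omega
  omega

/-- the passage from the number of the cells to the measure -/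
theorem measure_of_cells (Q : Set ℝ) (hQ : IsClosed Q) (C v : ℝ)
    (H : ∀ h : ℝ, 0 < h → h ≤ 1 → ∃ J : Finset ℕ, v ≤ J.card * h ∧
      ∀ i ∈ J, (i : ℝ) * h ≤ C ∧ ∃ t ∈ Q, (i : ℝ) * h ≤ t ∧ t ≤ (i + 1) * h) :
    ENNReal.ofReal v ≤ volume (Q ∩ Set.Icc 0 (C + 1)) := by
  have hK : IsCompact (Q ∩ Set.Icc 0 (C + 1)) := isCompact_Icc.inter_left hQ
  by_contra hcon
  rw [not_le] at hcon
  have h1 := tendsto_measure_cthickening_of_isCompact (μ := (volume : Measure ℝ)) hK
  have h2 : ∀ᶠ r in nhds (0 : ℝ), volume (Metric.cthickening r (Q ∩ Set.Icc 0 (C + 1))) < ENNReal.ofReal v :=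
    h1.eventually (gt_mem_nhds hcon)
  obtain ⟨r, hr, h3⟩ := Metric.eventually_nhds_iff.1 h2
  obtain ⟨h, hh⟩ : ∃ h : ℝ, h = min (r / 2) 1 := ⟨_, rfl⟩
  have hh0 : 0 < h := by rw [hh]; exact lt_min (by linarith) one_pos
  have hh1 : h ≤ 1 := by rw [hh]; exact min_le_right _ _
  have hhr : h < r := by
    have : h ≤ r / 2 := by rw [hh]; exact min_le_left _ _
    linarith
  have h4 := h3 (y := h) (by
    rw [Real.dist_eq, sub_zero, abs_of_pos hh0]
    exact hhr)
  obtain ⟨J, hJ, hJ2⟩ := H h hh0 hh1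
  have h5 : (⋃ i ∈ J, Set.Ico ((i : ℝ) * h) (((i : ℝ) + 1) * h)) ⊆
      Metric.cthickening h (Q ∩ Set.Icc 0 (C + 1)) := by
    intro z hz
    simp only [Set.mem_iUnion] at hz
    obtain ⟨i, hi, hz⟩ := hz
    obtain ⟨hiC, t, ht, ht1, ht2⟩ := hJ2 i hi
    rw [Set.mem_Ico] at hz
    have hi0 : (0 : ℝ) ≤ (i : ℝ) * h := by positivity
    have hexp : ((i : ℝ) + 1) * h = (i : ℝ) * h + h := by ring
    refine Metric.mem_cthickening_of_dist_le z t h _ ⟨ht, ?_, ?_⟩ ?_
    · linarith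
    · linarith
    · rw [Real.dist_eq, abs_le]
      constructor <;> linarith
  have h6 : volume (⋃ i ∈ J, Set.Ico ((i : ℝ) * h) (((i : ℝ) + 1) * h)) = ENNReal.ofReal (J.card * h) := by
    rw [measure_biUnion_finset]
    · have : ∀ i ∈ J, volume (Set.Ico ((i : ℝ) * h) (((i : ℝ) + 1) * h)) = ENNReal.ofReal h := by
        intro i _
        rw [Real.volume_Ico]
        congr 1
        ring
      rw [sum_congr rfl this, sum_const, nsmul_eq_mul, ENNReal.ofReal_mul (by positivity)]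
      simp
    · intro i _ j _ hij
      rw [Function.onFun, Set.disjoint_left]
      intro z hz1 hz2
      rw [Set.mem_Ico] at hz1 hz2
      rcases lt_or_gt_of_ne hij with h7 | h7
      · have h8 : ((i : ℝ) + 1) * h ≤ (j : ℝ) * h := mul_le_mul_of_nonneg_right (by exact_mod_cast h7) hh0.le
        linarith
      · have h8 : ((j : ℝ) + 1) * h ≤ (i : ℝ) * h := mul_le_mul_of_nonneg_right (by exact_mod_cast h7) hh0.le
        linarith
    · intro i _
      exact measurableSet_Ico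
  have h7 := measure_mono (μ := (volume : Measure ℝ)) h5
  rw [h6] at h7
  have h8 : ENNReal.ofReal v ≤ ENNReal.ofReal (J.card * h) := ENNReal.ofReal_le_ofReal hJ
  exact absurd (lt_of_le_of_lt (h8.trans h7) h4) (lt_irrefl _)

end Pool.Agent.T6.H2.PT
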