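import Pool.Agent.T6.H2.PT.Space
import Pool.Agent.T6.H2.PT.Gaps

/-!
# The Erdős–Ricci theorem for constellations (helper2)

Let `S` be a set of numbers `s` such that the values of `k` given linear forms at `s` have no prime factors
`≤ s ^ β`, and such that `S` has at least `δ X / (log X) ^ k` elements up to `X`, for arbitrarily large `X`. Then the
set of the limit points of the normalised differences `(s' - s) / (log s) ^ k` of the consecutive elements of `S` has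
positive Lebesgue measure, and at least `v = v(δ)` of it is in `[0, C]`, `C = C(δ)`.
-/

set_option autoImplicit false

namespace Pool.Agent.T6.H2.PT

open Finset Filter MeasureTheory
open Pool.Agent.X32.Uni

variable {k : ℕ}

/-- the upper bound for a fixed system -/
theorem upper_k (hk : 1 ≤ k) (a b : Fin k → ℤ) (ha : ∀ l, a l ≠ 0)
    (hab : ∀ l m, l ≠ m → a l * b m - a m * b l ≠ 0) (β : ℝ) (hβ : 0 < β) :
    ∃ K : ℝ, 0 < K ∧ ∃ X₀ : ℕ, ∀ X : ℕ, X₀ ≤ X → ∀ A B : ℕ, B ≤ X → (X : ℝ) ^ (1 / 2 : ℝ) ≤ (B : ℝ) - A →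
      ((RL a b ((X : ℝ) ^ β) A B).card : ℝ) ≤ K * ((B : ℝ) - A) / Real.log X ^ k := by
  classical
  obtain ⟨E, hE⟩ : ∃ E : ℕ, E = ∑ l, (a l).natAbs := ⟨_, rfl⟩
  have haE : ∀ l, |a l| ≤ E := by
    intro l
    have h1 : (a l).natAbs ≤ E := by
      rw [hE]
      exact single_le_sum (f := fun l => (a l).natAbs) (fun _ _ => Nat.zero_le _) (mem_univ l)
    rw [Int.abs_eq_natAbs]
    exact_mod_cast h1
  obtain ⟨KU, hKU, n₀, H1⟩ := rough_lin k E hk (1 / 2) (by norm_num) β hβ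
  obtain ⟨X₁, H2⟩ := eventually_atTop.1 VL_le_gg
  refine ⟨KU * gg (D0 a b) ^ k, by have := one_le_gg (D0 a b); positivity, n₀ + X₁ + 3, fun X hX A B hB hAB => ?_⟩
  have hBA : 0 ≤ (B : ℝ) - A := le_trans (by positivity) hAB
  refine (H1 X (by omega) a b ha haE A B hB hAB).trans ?_
  have h2 := H2 X (by omega) k a b (D0 a b) (D0_ne ha hab) (dvd_D0_a a b) (fun l m h => dvd_D0_ab a b l m h)
  calc KU * ((B : ℝ) - A) * VL a b X ≤ KU * ((B : ℝ) - A) * (gg (D0 a b) / Real.log X) ^ k :=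
        mul_le_mul_of_nonneg_left h2 (by positivity)
    _ = _ := by rw [div_pow]; ring

/-- the values at `s` have no prime factors `≤ s ^ β` -/
def FreeAt (a b : Fin k → ℤ) (β : ℝ) (s : ℕ) : Prop :=
  ∀ l, ∀ p : ℕ, p.Prime → (p : ℝ) ≤ (s : ℝ) ^ β → ¬ (p : ℤ) ∣ a l * (s : ℤ) + b l

theorem tend_quarter : Tendsto (fun X : ℕ => (X : ℝ) ^ (1 / 4 : ℝ)) atTop atTop :=
  (tendsto_rpow_atTop (by norm_num)).comp tendsto_natCast_atTop_atTop

theorem log_le_quarter (k : ℕ) : ∀ᶠ X : ℕ in atTop, Real.log X ^ k ≤ (X : ℝ) ^ (1 / 4 : ℝ) := by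
  have h := (isLittleO_log_rpow_rpow_atTop (k : ℝ) (show (0 : ℝ) < 1 / 4 by norm_num)).bound (zero_lt_one)
  have h' := tendsto_natCast_atTop_atTop (R := ℝ) |>.eventually h
  filter_upwards [h', eventually_ge_atTop 3] with X hX hX3
  rw [Real.norm_eq_abs, Real.norm_eq_abs, one_mul, Real.rpow_natCast] at hX
  exact (le_abs_self _).trans (hX.trans (le_of_eq (abs_of_nonneg (by positivity))))

theorem log_ratio (k : ℕ) (η ρ : ℝ) (hη : 0 < η) (hρ : 0 < ρ) :
    ∀ᶠ X : ℕ in atTop, (1 - ρ) * Real.log X ^ k ≤ Real.log (η * X) ^ k := by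
  have hl : Tendsto (fun X : ℕ => Real.log (X : ℝ)) atTop atTop := Real.tendsto_log_atTop.comp tendsto_natCast_atTop_atTop
  have h1 : Tendsto (fun X : ℕ => (1 + Real.log η / Real.log X) ^ k) atTop (nhds ((1 + 0) ^ k)) :=
    ((hl.const_div_atTop _).const_add 1).pow k
  rw [add_zero, one_pow] at h1
  filter_upwards [h1.eventually (lt_mem_nhds (show 1 - ρ < 1 by linarith)), eventually_ge_atTop 3] with X hX hX3
  have hX0 : (0 : ℝ) < X := by exact_mod_cast (by omega : 0 < X)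
  have hlog : 0 < Real.log X := Real.log_pos (by exact_mod_cast (by omega : 1 < X))
  have h2 : Real.log (η * X) = (1 + Real.log η / Real.log X) * Real.log X := by
    rw [Real.log_mul hη.ne' hX0.ne']
    field_simp
    ring
  rw [h2, mul_pow]
  exact mul_le_mul_of_nonneg_right hX.le (by positivity)

open Classical in
/-- **the number of the cells** -/
theorem cells (hk : 1 ≤ k) (a b : Fin k → ℤ) (ha : ∀ l, a l ≠ 0)
    (hab : ∀ l m, l ≠ m → a l * b m - a m * b l ≠ 0) (β : ℝ) (hβ : 0 < β) (δ : ℝ) (hδ : 0 < δ) :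
    ∃ v : ℝ, 0 < v ∧ ∀ S : Set ℕ, (∃ s₀ : ℕ, ∀ s ∈ S, s₀ ≤ s → FreeAt a b β s) →
      (∃ᶠ X : ℕ in atTop, δ * X / Real.log X ^ k ≤ (((Icc 1 X).filter (fun s => s ∈ S)).card : ℝ)) →
      ∀ h : ℝ, 0 < h → h ≤ 1 → ∃ J : Finset ℕ, v ≤ J.card * h ∧
        ∀ i ∈ J, (i : ℝ) * h ≤ 16 / δ + 1 ∧ ∃ t ∈ LimGap k S, (i : ℝ) * h ≤ t ∧ t ≤ (i + 1) * h := by
  obtain ⟨Ks, hKs, Xs, HS⟩ := upper_k hk a b ha hab (β / 2) (by positivity)
  obtain ⟨K₂, K₃, hK₂, hK₃, w₀, Xp, HP⟩ := pair_all hk a b ha hab (β / 2) (by positivity)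
  refine ⟨δ / (12 * K₂), by positivity, fun S hfree hdens h hh hh1 => ?_⟩
  obtain ⟨s₀, hfree⟩ := hfree
  obtain ⟨C, hC⟩ : ∃ C : ℝ, C = 16 / δ + 1 := ⟨_, rfl⟩
  have hC0 : 0 < C := by rw [hC]; positivity
  rw [← hC]
  obtain ⟨η, hη⟩ : ∃ η : ℝ, η = min 1 (δ / (4 * Ks)) := ⟨_, rfl⟩
  have hη0 : 0 < η := by rw [hη]; exact lt_min one_pos (by positivity)
  have hη1 : η ≤ 1 := by rw [hη]; exact min_le_left _ _
  have hηK : Ks * η ≤ δ / 4 := by
    have : η ≤ δ / (4 * Ks) := by rw [hη]; exact min_le_right _ _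
    calc Ks * η ≤ Ks * (δ / (4 * Ks)) := mul_le_mul_of_nonneg_left this hKs.le
      _ = δ / 4 := by field_simp
  obtain ⟨ρ, hρ⟩ : ∃ ρ : ℝ, ρ = min (1 / 2) (h / C) := ⟨_, rfl⟩
  have hρ0 : 0 < ρ := by rw [hρ]; exact lt_min (by norm_num) (by positivity)
  have hρ1 : ρ ≤ 1 / 2 := by rw [hρ]; exact min_le_left _ _
  have hρC : C * ρ ≤ h := by
    have : ρ ≤ h / C := by rw [hρ]; exact min_le_right _ _
    calc C * ρ ≤ C * (h / C) := mul_le_mul_of_nonneg_left this hC0.le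
      _ = h := by field_simp
  -- the cells
  obtain ⟨N, hN⟩ : ∃ N : ℕ, N = ⌊C / h⌋₊ + 1 := ⟨_, rfl⟩
  obtain ⟨J, hJ⟩ : ∃ J : Finset ℕ, J = (range N).filter
    (fun i : ℕ => ∃ t ∈ LimGap k S, (i : ℝ) * h ≤ t ∧ t ≤ (i + 1) * h) := ⟨_, rfl⟩
  -- the other cells contain no normalised differences, from some point on
  have hno : ∃ N₁ : ℕ, ∀ i ∈ range N, i ∉ J → ∀ s s' : ℕ, N₁ ≤ s → Consec S s s' →
      ((s' : ℝ) - s) / Real.log s ^ k ∉ Set.Icc ((i : ℝ) * h) ((i + 1) * h) := by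
    have h1 : ∀ i : ℕ, ∃ N₁ : ℕ, i ∈ range N → i ∉ J → ∀ s s' : ℕ, N₁ ≤ s → Consec S s s' →
        ((s' : ℝ) - s) / Real.log s ^ k ∉ Set.Icc ((i : ℝ) * h) ((i + 1) * h) := by
      intro i
      by_cases h2 : i ∈ range N ∧ i ∉ J
      · obtain ⟨N₁, h3⟩ := avoid k S (Set.Icc ((i : ℝ) * h) ((i + 1) * h)) isCompact_Icc (by
          intro t ht ht'
          apply h2.2
          rw [hJ, mem_filter]
          exact ⟨h2.1, t, ht', ht.1, ht.2⟩)
        exact ⟨N₁, fun _ _ => h3⟩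
      · exact ⟨0, fun h3 h4 => absurd ⟨h3, h4⟩ h2⟩
    choose f hf using h1
    refine ⟨∑ i ∈ range N, f i, fun i hi hiJ s s' hs hc => hf i hi hiJ s s' ?_ hc⟩
    exact (single_le_sum (f := f) (fun _ _ => Nat.zero_le _) hi).trans hs
  obtain ⟨N₁, hno⟩ := hno
  -- a large X
  obtain ⟨M, hM⟩ : ∃ M : ℝ, M = 1 + (s₀ + 2) + 16 / δ + 3 / η + (N₁ + 2) / η := ⟨_, rfl⟩
  have hlt : Tendsto (fun X : ℕ => Real.log (X : ℝ)) atTop atTop := Real.tendsto_log_atTop.comp tendsto_natCast_atTop_atTop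
  have hLt : Tendsto (fun X : ℕ => Real.log (X : ℝ) ^ k) atTop atTop := (tendsto_pow_atTop (by omega)).comp hlt
  have hev : ∀ᶠ X : ℕ in atTop, (Xs + Xp + 3 ≤ X ∧ w₀ / h + 2 / h + C / h ^ 2 + 2 ≤ Real.log X ^ k) ∧
      (K₃ / (K₂ * h) ≤ Real.log X ∧ M ≤ (X : ℝ) ^ (1 / 4 : ℝ)) ∧ (Real.log X ^ k ≤ (X : ℝ) ^ (1 / 4 : ℝ) ∧
      (1 - ρ) * Real.log X ^ k ≤ Real.log (η * X) ^ k) :=
    ((eventually_ge_atTop _).and (hLt.eventually_ge_atTop _)).and
      (((hlt.eventually_ge_atTop _).and (tend_quarter.eventually_ge_atTop _)).and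
      ((log_le_quarter k).and (log_ratio k η ρ hη0 hρ0)))
  obtain ⟨X, hX, ⟨hX1, hX2⟩, ⟨hX3, hX4⟩, hX5, hX6⟩ := (hdens.and_eventually hev).exists
  have hX0 : (0 : ℝ) < X := by exact_mod_cast (by omega : 0 < X)
  have hXone : (1 : ℝ) ≤ X := by exact_mod_cast (by omega : 1 ≤ X)
  have hlog : 0 < Real.log X := Real.log_pos (by exact_mod_cast (by omega : 1 < X))
  obtain ⟨L, hL⟩ : ∃ L : ℝ, L = Real.log X ^ k := ⟨_, rfl⟩
  obtain ⟨u, hu⟩ : ∃ u : ℝ, u = (X : ℝ) ^ (1 / 4 : ℝ) := ⟨_, rfl⟩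
  rw [← hL] at hX hX2 hX5 hX6
  rw [← hu] at hX4 hX5
  have hL0 : 0 < L := by rw [hL]; positivity
  have hu4 : u ^ 4 = X := by
    rw [hu, ← Real.rpow_natCast, ← Real.rpow_mul hX0.le]
    norm_num
  have hu2 : u ^ 2 = (X : ℝ) ^ (1 / 2 : ℝ) := by
    rw [hu, ← Real.rpow_natCast, ← Real.rpow_mul hX0.le]
    norm_num
  have hw0h : 0 ≤ (w₀ : ℝ) / h := by positivity
  have h2h : 0 ≤ 2 / h := by positivity
  have hCh2 : 0 ≤ C / h ^ 2 := by positivity
  have hL1 : w₀ ≤ h * L := by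
    have : (w₀ : ℝ) / h ≤ L := by linarith
    rw [div_le_iff₀ hh] at this
    linarith
  have hL2 : 2 ≤ h * L := by
    have : 2 / h ≤ L := by linarith
    rw [div_le_iff₀ hh] at this
    linarith
  have hL3 : C ≤ L * h ^ 2 := by
    have : C / h ^ 2 ≤ L := by linarith
    rwa [div_le_iff₀ (by positivity)] at this
  have hL4 : 2 ≤ L := by linarith
  have hM1 : 1 ≤ u ∧ s₀ + 2 ≤ u ∧ 16 / δ ≤ u ∧ 3 / η ≤ u ∧ (N₁ + 2) / η ≤ u := by
    have e1 : (0 : ℝ) ≤ s₀ + 2 := by positivity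
    have e2 : 0 ≤ 16 / δ := by positivity
    have e3 : 0 ≤ 3 / η := by positivity
    have e4 : 0 ≤ ((N₁ : ℝ) + 2) / η := by positivity
    rw [hM] at hX4
    refine ⟨by linarith, by linarith, by linarith, by linarith, by linarith⟩
  obtain ⟨hu1, hus, huδ, huη, huN⟩ := hM1
  rw [div_le_iff₀ hδ] at huδ
  rw [div_le_iff₀ hη0] at huη huN
  have hu0 : 0 < u := by linarith
  obtain ⟨A₁, hA₁⟩ : ∃ A₁ : ℕ, A₁ = ⌈u ^ 2⌉₊ + s₀ := ⟨_, rfl⟩
  obtain ⟨B₁, hB₁⟩ : ∃ B₁ : ℕ, B₁ = ⌊η * X⌋₊ := ⟨_, rfl⟩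
  have hA₁le : (A₁ : ℝ) ≤ u ^ 2 + 1 + s₀ := by
    rw [hA₁]
    push_cast
    linarith [Nat.ceil_lt_add_one (show 0 ≤ u ^ 2 by positivity)]
  have hA₁ge : u ^ 2 ≤ A₁ := by
    rw [hA₁]
    push_cast
    have := Nat.le_ceil (u ^ 2)
    have : (0 : ℝ) ≤ s₀ := Nat.cast_nonneg _
    linarith
  have hB₁le : (B₁ : ℝ) ≤ η * X := by
    rw [hB₁]
    exact Nat.floor_le (by positivity)
  have hB₁ge : η * X - 1 < B₁ := by
    rw [hB₁]
    linarith [Nat.lt_floor_add_one (η * (X : ℝ))]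
  have hB₁X : B₁ ≤ X := by
    have : (B₁ : ℝ) ≤ X := hB₁le.trans (mul_le_of_le_one_left hX0.le hη1)
    exact_mod_cast this
  have hu23 : u ^ 2 ≤ u ^ 3 := pow_le_pow_right₀ hu1 (by norm_num)
  have hu12 : u ≤ u ^ 2 := by nlinarith
  have hηX : 3 * u ^ 3 ≤ η * X := by
    rw [← hu4]
    have : 0 ≤ u ^ 3 := by positivity
    calc 3 * u ^ 3 ≤ (u * η) * u ^ 3 := mul_le_mul_of_nonneg_right huη this
      _ = η * u ^ 4 := by ring
  have hAB1 : (X : ℝ) ^ (1 / 2 : ℝ) ≤ (B₁ : ℝ) - A₁ := by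
    rw [← hu2]
    have e1 : (A₁ : ℝ) ≤ 2 * u ^ 2 - 1 := by linarith
    have e2 : 1 ≤ u ^ 2 := by linarith
    linarith
  have hδX : 16 * u ^ 3 ≤ δ * X := by
    rw [← hu4]
    have : 0 ≤ u ^ 3 := by positivity
    calc 16 * u ^ 3 ≤ (u * δ) * u ^ 3 := mul_le_mul_of_nonneg_right huδ this
      _ = δ * u ^ 4 := by ring
  have hA₁L : (A₁ : ℝ) ≤ δ * X / (4 * L) := by
    rw [le_div_iff₀ (by positivity)]
    have e1 : (A₁ : ℝ) ≤ 2 * u ^ 2 := by linarith
    calc (A₁ : ℝ) * (4 * L) ≤ (2 * u ^ 2) * (4 * u) := mul_le_mul e1 (by linarith) (by positivity) (by positivity)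
      _ = 8 * u ^ 3 := by ring
      _ ≤ δ * X := by linarith [show 0 ≤ u ^ 3 by positivity]
  have hfr : ∀ s : ℕ, s ∈ S → A₁ < s → ∀ l, ∀ p : ℕ, p.Prime → (p : ℝ) ≤ (X : ℝ) ^ (β / 2) →
      ¬ (p : ℤ) ∣ a l * (s : ℤ) + b l := by
    intro s hs hsA l p hp hpX
    refine hfree s hs (by rw [hA₁] at hsA; omega) l p hp (hpX.trans ?_)
    have e1 : u ^ 2 ≤ s := hA₁ge.trans (by exact_mod_cast hsA.le)
    calc (X : ℝ) ^ (β / 2) = (u ^ 2) ^ β := by
          rw [hu2, ← Real.rpow_mul hX0.le]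
          congr 1
          ring
      _ ≤ (s : ℝ) ^ β := Real.rpow_le_rpow (by positivity) e1 hβ.le
  obtain ⟨T, hT⟩ : ∃ T : Finset ℕ, T = (Ioc B₁ X).filter (fun s => s ∈ S) := ⟨_, rfl⟩
  have hTge : δ * X / (2 * L) ≤ (T.card : ℝ) := by
    have e1 : (Icc 1 X).filter (fun s => s ∈ S) ⊆ (Icc 1 A₁ ∪ RL a b ((X : ℝ) ^ (β / 2)) A₁ B₁) ∪ T := by
      intro s hs
      rw [mem_filter, mem_Icc] at hs
      rw [mem_union, mem_union]
      by_cases e2 : s ≤ A₁
      · left; left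
        rw [mem_Icc]
        exact ⟨hs.1.1, e2⟩
      · by_cases e3 : s ≤ B₁
        · left; right
          unfold RL
          rw [mem_filter, mem_Ioc]
          exact ⟨⟨by omega, e3⟩, hfr s hs.2 (by omega)⟩
        · right
          rw [hT, mem_filter, mem_Ioc]
          exact ⟨⟨by omega, hs.1.2⟩, hs.2⟩
    have e2 := (card_le_card e1).trans ((card_union_le _ _).trans (Nat.add_le_add_right (card_union_le _ _) _))
    rw [Nat.card_Icc, Nat.add_sub_cancel] at e2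
    have e3 : (((Icc 1 X).filter (fun s => s ∈ S)).card : ℝ) ≤
        A₁ + (RL a b ((X : ℝ) ^ (β / 2)) A₁ B₁).card + T.card := by exact_mod_cast e2
    have e4 := HS X (by omega) A₁ B₁ hB₁X hAB1
    rw [← hL] at e4
    have e5 : Ks * ((B₁ : ℝ) - A₁) / L ≤ δ * X / (4 * L) := by
      rw [div_le_div_iff₀ hL0 (by positivity)]
      have e6 : Ks * ((B₁ : ℝ) - A₁) ≤ δ / 4 * X := by
        calc Ks * ((B₁ : ℝ) - A₁) ≤ Ks * (η * X) := by
              apply mul_le_mul_of_nonneg_left _ hKs.le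
              have : (0 : ℝ) ≤ A₁ := Nat.cast_nonneg _
              linarith
          _ = (Ks * η) * X := by ring
          _ ≤ _ := mul_le_mul_of_nonneg_right hηK hX0.le
      calc Ks * ((B₁ : ℝ) - A₁) * (4 * L) ≤ δ / 4 * X * (4 * L) := mul_le_mul_of_nonneg_right e6 (by linarith)
        _ = δ * X * L := by ring
    have e6 : δ * X / L = δ * X / (4 * L) + δ * X / (4 * L) + δ * X / (2 * L) := by
      field_simp
      ring
    linarith
  -- the small differences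
  obtain ⟨G, hG⟩ : ∃ G : ℕ, G = ⌈8 * L / δ⌉₊ := ⟨_, rfl⟩
  have hG1 : 1 ≤ G := by
    rw [hG]
    exact Nat.one_le_ceil_iff.2 (by positivity)
  have hGle : (G : ℝ) ≤ 8 * L / δ + 1 := by
    rw [hG]
    exact (Nat.ceil_lt_add_one (by positivity)).le
  have hGge : 8 * L / δ ≤ G := by
    rw [hG]
    exact Nat.le_ceil _
  obtain ⟨P, hP⟩ : ∃ P : Finset ℕ, P = (Ioc B₁ X).filter (fun s => ∃ s', Consec S s s' ∧ s' ≤ s + G ∧ s' ≤ X) :=
    ⟨_, rfl⟩
  have hPge : δ * X / (4 * L) ≤ (P.card : ℝ) := by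
    have e1 := small_gaps S B₁ X G hG1
    rw [← hT, ← hP] at e1
    have e2 : (T.card : ℝ) ≤ P.card + G + ((X / G : ℕ) : ℝ) := by exact_mod_cast e1
    have e3 : ((X / G : ℕ) : ℝ) ≤ δ * X / (8 * L) := by
      refine Nat.cast_div_le.trans ?_
      rw [div_le_div_iff₀ (by exact_mod_cast hG1) (by positivity)]
      rw [div_le_iff₀ hδ] at hGge
      calc (X : ℝ) * (8 * L) ≤ X * (G * δ) := mul_le_mul_of_nonneg_left hGge hX0.le
        _ = δ * X * G := by ring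
    have e4 : (G : ℝ) ≤ δ * X / (8 * L) := by
      rw [le_div_iff₀ (by positivity)]
      have e5 : (G : ℝ) ≤ u ^ 2 + 1 := by
        refine hGle.trans ?_
        have : 8 * L / δ ≤ u ^ 2 := by
          rw [div_le_iff₀ hδ]
          calc 8 * L ≤ 8 * u := by linarith
            _ ≤ u * 16 := by linarith
            _ ≤ u * (u * δ) := mul_le_mul_of_nonneg_left huδ hu0.le
            _ = u ^ 2 * δ := by ring
        linarith
      calc (G : ℝ) * (8 * L) ≤ (u ^ 2 + 1) * (8 * u) := mul_le_mul e5 (by linarith) (by positivity) (by positivity)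
        _ = 8 * u ^ 3 + 8 * u := by ring
        _ ≤ 16 * u ^ 3 := by linarith
        _ ≤ δ * X := hδX
    have e6 : δ * X / (2 * L) = δ * X / (8 * L) + δ * X / (8 * L) + δ * X / (4 * L) := by
      field_simp
      ring
    linarith
  -- the pairs
  obtain ⟨w, hw⟩ : ∃ w : ℕ, w = ⌈h * L⌉₊ + 1 := ⟨_, rfl⟩
  have hwge : h * L + 1 ≤ w := by
    rw [hw]
    push_cast
    linarith [Nat.le_ceil (h * L)]
  have hwle : (w : ℝ) ≤ 2 * (h * L) := by
    rw [hw]
    push_cast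
    have := Nat.ceil_lt_add_one (show 0 ≤ h * L by positivity)
    linarith
  obtain ⟨dd, hdd⟩ : ∃ dd : ℕ → ℤ, dd = fun i : ℕ => ((⌊(i : ℝ) * h * L⌋₊ : ℕ) : ℤ) := ⟨_, rfl⟩
  obtain ⟨Ti, hTi⟩ : ∃ Ti : ℕ → Finset ℤ, Ti = fun i => (Icc (dd i - w) (dd i + w)).filter (fun d => d ≠ 0) := ⟨_, rfl⟩
  have hPsub : P ⊆ J.biUnion (fun i => (Ti i).biUnion (fun d => RL (aa a) (bb a b d) ((X : ℝ) ^ (β / 2)) 0 X)) := by
    intro s hs
    rw [hP, mem_filter, mem_Ioc] at hs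
    obtain ⟨⟨hs1, hs2⟩, s', hc, hs3, hs4⟩ := hs
    have hss : s < s' := hc.2.2.1
    have hs0 : η * X ≤ s := by
      have e1 : (B₁ : ℝ) + 1 ≤ s := by exact_mod_cast hs1
      linarith
    have hsX : (s : ℝ) ≤ X := by exact_mod_cast hs2
    have hN₁s : N₁ ≤ s := by
      have e1 : (N₁ : ℝ) + 2 ≤ s := by
        refine huN.trans (le_trans ?_ hs0)
        rw [← hu4]
        have e2 : u ≤ u ^ 4 := le_self_pow₀ hu1 (by norm_num)
        calc u * η ≤ u ^ 4 * η := mul_le_mul_of_nonneg_right e2 hη0.le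
          _ = η * u ^ 4 := by ring
      have e2 : (N₁ : ℝ) ≤ s := by linarith
      exact_mod_cast e2
    have hηX1 : 3 ≤ η * X := by
      have : 1 ≤ u ^ 3 := one_le_pow₀ hu1
      linarith
    have hs1' : (1 : ℝ) < s := by linarith
    have hlogs : 0 < Real.log s := Real.log_pos hs1'
    have hLs1 : (1 - ρ) * L ≤ Real.log s ^ k := by
      refine hX6.trans ?_
      apply pow_le_pow_left₀ (Real.log_nonneg (by linarith))
      exact Real.log_le_log (by linarith) hs0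
    have hLs2 : Real.log s ^ k ≤ L := by
      rw [hL]
      exact pow_le_pow_left₀ hlogs.le (Real.log_le_log (by linarith) hsX) k
    obtain ⟨Ls, hLs⟩ : ∃ Ls : ℝ, Ls = Real.log s ^ k := ⟨_, rfl⟩
    rw [← hLs] at hLs1 hLs2
    have hLs0 : 0 < Ls := by rw [hLs]; positivity
    obtain ⟨g, hg⟩ : ∃ g : ℝ, g = ((s' : ℝ) - s) / Ls := ⟨_, rfl⟩
    have hgd : (s' : ℝ) - s = g * Ls := by rw [hg]; field_simp
    have hsG : (s' : ℝ) ≤ s + G := by exact_mod_cast hs3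
    have hss' : (s : ℝ) < s' := by exact_mod_cast hss
    have hg0 : 0 < g := by rw [hg]; exact div_pos (by linarith) hLs0
    have hhalf : L / 2 ≤ Ls := by
      refine le_trans ?_ hLs1
      have : 1 / 2 * L ≤ (1 - ρ) * L := mul_le_mul_of_nonneg_right (by linarith) hL0.le
      linarith
    have hgC : g ≤ C := by
      rw [hg, div_le_iff₀ hLs0, hC]
      have e1 : (s' : ℝ) - s ≤ 8 * L / δ + 1 := by linarith
      have e2 : 8 * L / δ = 16 / δ * (L / 2) := by ring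
      have e3 : 16 / δ * (L / 2) ≤ 16 / δ * Ls := mul_le_mul_of_nonneg_left hhalf (by positivity)
      have e4 : 1 ≤ Ls := by linarith
      calc (s' : ℝ) - s ≤ 16 / δ * (L / 2) + 1 := by rw [← e2]; exact e1
        _ ≤ 16 / δ * Ls + Ls := add_le_add e3 e4
        _ = (16 / δ + 1) * Ls := by ring
    obtain ⟨i, hi⟩ : ∃ i : ℕ, i = ⌊g / h⌋₊ := ⟨_, rfl⟩
    have hi1 : (i : ℝ) * h ≤ g := by
      rw [← le_div_iff₀ hh, hi]
      exact Nat.floor_le (by positivity)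
    have hi2 : g ≤ (i + 1) * h := by
      rw [← div_le_iff₀ hh, hi]
      exact (Nat.lt_floor_add_one _).le
    have hiN : i ∈ range N := by
      rw [mem_range, hN, hi]
      have : ⌊g / h⌋₊ ≤ ⌊C / h⌋₊ := Nat.floor_le_floor (div_le_div_of_nonneg_right hgC hh.le)
      omega
    have hiJ : i ∈ J := by
      by_contra h1
      apply hno i hiN h1 s s' hN₁s hc
      rw [← hLs, ← hg]
      exact ⟨hi1, hi2⟩
    rw [mem_biUnion]
    refine ⟨i, hiJ, ?_⟩
    rw [mem_biUnion]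
    refine ⟨(s' : ℤ) - s, ?_, ?_⟩
    · rw [hTi]
      simp only
      rw [mem_filter, mem_Icc]
      have e0 : (0 : ℝ) ≤ (i : ℝ) * h * L := by positivity
      have e1 : (dd i : ℝ) ≤ (i : ℝ) * h * L := by
        rw [hdd]
        simp only
        rw [Int.cast_natCast]
        exact Nat.floor_le e0
      have e2 : (i : ℝ) * h * L - 1 < (dd i : ℝ) := by
        rw [hdd]
        simp only
        rw [Int.cast_natCast]
        linarith [Nat.lt_floor_add_one ((i : ℝ) * h * L)]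
      have e3 : (s' : ℝ) - s ≤ (i : ℝ) * h * L + h * L := by
        rw [hgd]
        calc g * Ls ≤ ((i + 1) * h) * L := mul_le_mul hi2 hLs2 hLs0.le (by positivity)
          _ = _ := by ring
      have e4 : (i : ℝ) * h * L - h * L ≤ (s' : ℝ) - s := by
        rw [hgd]
        have e5 : (i : ℝ) * h * ((1 - ρ) * L) ≤ g * Ls := mul_le_mul hi1 hLs1
          (mul_nonneg (by linarith) hL0.le) hg0.le
        have e6 : (i : ℝ) * h * ρ ≤ h := (mul_le_mul_of_nonneg_right (hi1.trans hgC) hρ0.le).trans hρC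
        have e7 : (i : ℝ) * h * ρ * L ≤ h * L := mul_le_mul_of_nonneg_right e6 hL0.le
        have e8 : (i : ℝ) * h * ((1 - ρ) * L) = (i : ℝ) * h * L - (i : ℝ) * h * ρ * L := by ring
        linarith
      refine ⟨⟨?_, ?_⟩, ?_⟩
      · have : (dd i : ℝ) - w ≤ (s' : ℝ) - s := by linarith
        exact_mod_cast this
      · have : (s' : ℝ) - s ≤ (dd i : ℝ) + w := by linarith
        exact_mod_cast this
      · omega
    · have hs1B : A₁ < s := by
        have e1 : (A₁ : ℝ) < s := by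
          have e2 : 0 ≤ (X : ℝ) ^ (1 / 2 : ℝ) := by positivity
          have e3 : (B₁ : ℝ) < s := by exact_mod_cast hs1
          linarith
        exact_mod_cast e1
      have h1 := hfr s hc.1 hs1B
      have h2 := hfr s' hc.2.1 (by omega)
      unfold RL
      rw [mem_filter, mem_Ioc]
      refine ⟨⟨by omega, hs2⟩, fun l p hp hy => ?_⟩
      unfold aa bb
      refine Fin.addCases (fun j => ?_) (fun j => ?_) l
      · rw [Fin.append_left, Fin.append_left]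
        exact h1 j p hp hy
      · rw [Fin.append_right, Fin.append_right]
        have h3 : a j * (s : ℤ) + (b j + a j * ((s' : ℤ) - s)) = a j * (s' : ℤ) + b j := by ring
        rw [h3]
        exact h2 j p hp hy
  have hPle : (P.card : ℝ) ≤ J.card * (3 * K₂ * h * X / L) := by
    have h1 : (P.card : ℝ) ≤ ∑ i ∈ J, ∑ d ∈ Ti i, ((RL (aa a) (bb a b d) ((X : ℝ) ^ (β / 2)) 0 X).card : ℝ) := by
      have e1 := (card_le_card hPsub).trans (card_biUnion_le.trans (sum_le_sum fun i _ => card_biUnion_le))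
      exact_mod_cast e1
    refine h1.trans ?_
    rw [← nsmul_eq_mul, ← sum_const]
    apply sum_le_sum
    intro i hi
    have hiN : i ∈ range N := by
      rw [hJ, mem_filter] at hi
      exact hi.1
    have hiC : (i : ℝ) * h ≤ C := by
      rw [mem_range, hN] at hiN
      have e1 : i ≤ ⌊C / h⌋₊ := by omega
      have e2 : (i : ℝ) ≤ C / h := (Nat.le_floor_iff (by positivity)).1 e1
      rwa [le_div_iff₀ hh] at e2
    have hX12 : (X : ℝ) ^ (1 / 2 : ℝ) ≤ (X : ℝ) - (0 : ℕ) := by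
      rw [Nat.cast_zero, sub_zero]
      calc (X : ℝ) ^ (1 / 2 : ℝ) ≤ (X : ℝ) ^ (1 : ℝ) := Real.rpow_le_rpow_of_exponent_le hXone (by norm_num)
        _ = X := Real.rpow_one _
    have hwr : h * L ≤ w := by linarith
    have hdw : |dd i| ≤ (w : ℤ) ^ 2 := by
      have e0 : 0 ≤ dd i := by rw [hdd]; positivity
      rw [abs_of_nonneg e0]
      have e1 : (dd i : ℝ) ≤ (w : ℝ) ^ 2 := by
        have e2 : (dd i : ℝ) ≤ (i : ℝ) * h * L := by
          rw [hdd]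
          simp only
          rw [Int.cast_natCast]
          exact Nat.floor_le (by positivity)
        calc (dd i : ℝ) ≤ (i : ℝ) * h * L := e2
          _ ≤ C * L := mul_le_mul_of_nonneg_right hiC hL0.le
          _ ≤ (L * h ^ 2) * L := mul_le_mul_of_nonneg_right hL3 hL0.le
          _ = (h * L) ^ 2 := by ring
          _ ≤ (w : ℝ) ^ 2 := pow_le_pow_left₀ (by positivity) hwr 2
      exact_mod_cast e1
    have hw₀ : w₀ ≤ w := by
      have : (w₀ : ℝ) ≤ w := hL1.trans hwr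
      exact_mod_cast this
    have h2 := HP X (by omega) w hw₀ (dd i) hdw 0 X le_rfl hX12 (Ti i) (by
      intro d hd
      rw [hTi] at hd
      simp only at hd
      rw [mem_filter, mem_Icc] at hd
      refine ⟨hd.2, ?_⟩
      rw [abs_le]
      constructor <;> linarith [hd.1.1, hd.1.2])
    refine h2.trans ?_
    rw [Nat.cast_zero, sub_zero]
    have e1 : K₂ * w * X / Real.log X ^ (2 * k) ≤ 2 * K₂ * h * X / L := by
      have e2 : Real.log X ^ (2 * k) = L * L := by rw [hL, two_mul, pow_add]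
      rw [e2, div_le_div_iff₀ (by positivity) hL0]
      calc K₂ * w * X * L ≤ K₂ * (2 * (h * L)) * X * L := by gcongr
        _ = _ := by ring
    have e3 : K₃ * X / Real.log X ^ (k + 1) ≤ K₂ * h * X / L := by
      have e4 : Real.log X ^ (k + 1) = L * Real.log X := by rw [hL, pow_succ]
      rw [e4, div_le_div_iff₀ (by positivity) hL0]
      rw [div_le_iff₀ (by positivity)] at hX3
      calc K₃ * X * L ≤ (Real.log X * (K₂ * h)) * X * L := by gcongr
        _ = _ := by ring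
    have e5 : 3 * K₂ * h * X / L = 2 * K₂ * h * X / L + K₂ * h * X / L := by ring
    linarith
  refine ⟨J, ?_, fun i hi => ?_⟩
  · have h1 := hPge.trans hPle
    rw [div_le_iff₀ (by positivity)] at h1 ⊢
    have h2 : (J.card : ℝ) * (3 * K₂ * h * X / L) * (4 * L) = (J.card * h * (12 * K₂)) * X := by
      field_simp
      ring
    rw [h2] at h1
    exact le_of_mul_le_mul_right h1 hX0
  · rw [hJ, mem_filter, mem_range, hN] at hi
    refine ⟨?_, hi.2⟩
    have e1 : i ≤ ⌊C / h⌋₊ := by omega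
    have e2 : (i : ℝ) ≤ C / h := (Nat.le_floor_iff (by positivity)).1 e1
    rwa [le_div_iff₀ hh] at e2

open Classical in
/-- **The Erdős–Ricci theorem for constellations.** -/
theorem ricci (hk : 1 ≤ k) (a b : Fin k → ℤ) (ha : ∀ l, a l ≠ 0)
    (hab : ∀ l m, l ≠ m → a l * b m - a m * b l ≠ 0) (β : ℝ) (hβ : 0 < β) (δ : ℝ) (hδ : 0 < δ) :
    ∃ v : ℝ, 0 < v ∧ ∀ S : Set ℕ, (∃ s₀ : ℕ, ∀ s ∈ S, s₀ ≤ s → FreeAt a b β s) →
      (∃ᶠ X : ℕ in atTop, δ * X / Real.log X ^ k ≤ (((Icc 1 X).filter (fun s => s ∈ S)).card : ℝ)) →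
      ENNReal.ofReal v ≤ volume (LimGap k S ∩ Set.Icc 0 (16 / δ + 2)) := by
  obtain ⟨v, hv, H⟩ := cells hk a b ha hab β hβ δ hδ
  refine ⟨v, hv, fun S h1 h2 => ?_⟩
  have h3 := measure_of_cells (LimGap k S) (isClosed_limGap k S) (16 / δ + 1) v (H S h1 h2)
  have h4 : 16 / δ + 1 + 1 = 16 / δ + 2 := by ring
  rwa [h4] at h3

open Classical in
/-- the `n` in `(A, B]` for which there is a `d ≠ 0`, `|d| ≤ w`, such that none of the values at `n` and at `n + d`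
has a prime factor `≤ y` -/
noncomputable def FarBad (a b : Fin k → ℤ) (w y : ℝ) (A B : ℕ) : Finset ℕ :=
  (Ioc A B).filter (fun n : ℕ => ∃ d : ℤ, d ≠ 0 ∧ |(d : ℝ)| ≤ w ∧
    (∀ l, ∀ p : ℕ, p.Prime → (p : ℝ) ≤ y → ¬ (p : ℤ) ∣ a l * (n : ℤ) + b l) ∧
    ∀ l, ∀ p : ℕ, p.Prime → (p : ℝ) ≤ y → ¬ (p : ℤ) ∣ a l * ((n : ℤ) + d) + b l)

/-- **few constellations are close to another constellation** -/
theorem far_count (hk : 1 ≤ k) (a b : Fin k → ℤ) (ha : ∀ l, a l ≠ 0)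
    (hab : ∀ l m, l ≠ m → a l * b m - a m * b l ≠ 0) (β : ℝ) (hβ : 0 < β) :
    ∃ K : ℝ, 0 < K ∧ ∀ ε : ℝ, 0 < ε → ∃ X₀ : ℕ, ∀ X : ℕ, X₀ ≤ X → ∀ A B : ℕ, B ≤ X →
      (X : ℝ) ^ (1 / 2 : ℝ) ≤ (B : ℝ) - A →
      ((FarBad a b (ε * Real.log X ^ k) ((X : ℝ) ^ β) A B).card : ℝ) ≤ K * ε * ((B : ℝ) - A) / Real.log X ^ k := by
  classical
  obtain ⟨K₂, K₃, hK₂, hK₃, w₀, Xp, HP⟩ := pair_all hk a b ha hab β hβ
  refine ⟨K₂ + 1, by positivity, fun ε hε => ?_⟩
  have hlt : Tendsto (fun X : ℕ => Real.log (X : ℝ)) atTop atTop := Real.tendsto_log_atTop.comp tendsto_natCast_atTop_atTop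
  have hLt : Tendsto (fun X : ℕ => Real.log (X : ℝ) ^ k) atTop atTop := (tendsto_pow_atTop (by omega)).comp hlt
  obtain ⟨X₁, H1⟩ := eventually_atTop.1 ((hLt.eventually_ge_atTop ((w₀ : ℝ) / ε)).and
    (hlt.eventually_ge_atTop (K₃ / ε)))
  refine ⟨Xp + X₁ + 3, fun X hX A B hB hAB => ?_⟩
  have hBA : 0 ≤ (B : ℝ) - A := le_trans (by positivity) hAB
  have hlog : 0 < Real.log X := Real.log_pos (by exact_mod_cast (by omega : 1 < X))
  obtain ⟨h1, h2⟩ := H1 X (by omega)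
  obtain ⟨L, hL⟩ : ∃ L : ℝ, L = Real.log X ^ k := ⟨_, rfl⟩
  rw [← hL] at h1 ⊢
  have hL0 : 0 < L := by rw [hL]; positivity
  obtain ⟨w, hw⟩ : ∃ w : ℕ, w = ⌊ε * L⌋₊ := ⟨_, rfl⟩
  have hwle : (w : ℝ) ≤ ε * L := by
    rw [hw]
    exact Nat.floor_le (by positivity)
  have hw₀ : w₀ ≤ w := by
    rw [hw]
    apply Nat.le_floor
    rw [div_le_iff₀ hε] at h1
    linarith
  obtain ⟨T, hT⟩ : ∃ T : Finset ℤ, T = (Icc (-(w : ℤ)) w).filter (fun d => d ≠ 0) := ⟨_, rfl⟩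
  have hsub : FarBad a b (ε * L) ((X : ℝ) ^ β) A B ⊆ T.biUnion (fun d => RL (aa a) (bb a b d) ((X : ℝ) ^ β) A B) := by
    intro n hn
    unfold FarBad at hn
    rw [mem_filter] at hn
    obtain ⟨hn, d, hd, hdw, h3, h4⟩ := hn
    rw [mem_biUnion]
    refine ⟨d, ?_, ?_⟩
    · rw [hT, mem_filter, mem_Icc, ← abs_le]
      refine ⟨?_, hd⟩
      have h5 : ((d.natAbs : ℕ) : ℝ) ≤ ε * L := by
        rw [Nat.cast_natAbs]
        push_cast
        exact hdw
      have h6 : d.natAbs ≤ w := by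
        rw [hw]
        exact Nat.le_floor h5
      rw [Int.abs_eq_natAbs]
      exact_mod_cast h6
    · unfold RL
      rw [mem_filter]
      refine ⟨hn, fun l p hp hy => ?_⟩
      unfold aa bb
      refine Fin.addCases (fun j => ?_) (fun j => ?_) l
      · rw [Fin.append_left, Fin.append_left]
        exact h3 j p hp hy
      · rw [Fin.append_right, Fin.append_right]
        have h5 : a j * (n : ℤ) + (b j + a j * d) = a j * ((n : ℤ) + d) + b j := by ring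
        rw [h5]
        exact h4 j p hp hy
  have h5 : ((FarBad a b (ε * L) ((X : ℝ) ^ β) A B).card : ℝ) ≤
      ∑ d ∈ T, ((RL (aa a) (bb a b d) ((X : ℝ) ^ β) A B).card : ℝ) := by
    exact_mod_cast (card_le_card hsub).trans card_biUnion_le
  refine h5.trans ?_
  have h6 := HP X (by omega) w hw₀ 0 (by rw [abs_zero]; positivity) A B hB hAB T (by
    intro d hd
    rw [hT, mem_filter, mem_Icc, ← abs_le] at hd
    rw [sub_zero]
    exact ⟨hd.2, hd.1⟩)
  refine h6.trans ?_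
  have e1 : K₂ * w * ((B : ℝ) - A) / Real.log X ^ (2 * k) ≤ K₂ * ε * ((B : ℝ) - A) / L := by
    have e2 : Real.log X ^ (2 * k) = L * L := by rw [hL, two_mul, pow_add]
    rw [e2, div_le_div_iff₀ (by positivity) hL0]
    calc K₂ * w * ((B : ℝ) - A) * L ≤ K₂ * (ε * L) * ((B : ℝ) - A) * L := by gcongr
      _ = _ := by ring
  have e3 : K₃ * ((B : ℝ) - A) / Real.log X ^ (k + 1) ≤ 1 * ε * ((B : ℝ) - A) / L := by
    have e4 : Real.log X ^ (k + 1) = L * Real.log X := by rw [hL, pow_succ]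
    rw [e4, div_le_div_iff₀ (by positivity) hL0]
    rw [div_le_iff₀ hε] at h2
    calc K₃ * ((B : ℝ) - A) * L ≤ (Real.log X * ε) * ((B : ℝ) - A) * L := by gcongr
      _ = _ := by ring
  calc _ ≤ K₂ * ε * ((B : ℝ) - A) / L + 1 * ε * ((B : ℝ) - A) / L := add_le_add e1 e3
    _ = _ := by ring

end Pool.Agent.T6.H2.PT
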