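import Pool.Agent.T6.H2.PT.Lin
import Pool.Agent.X32.Uni.Tup

/-!
# Systems of linear forms: a prime, a `P₂`, almost primes, isolation, monochromatic progressions, uniformly (helper2)
-/

set_option autoImplicit false

namespace Pool.Agent.T6.H2.PT

open Finset Filter
open scoped Polynomial
open Pool.Agent.X32.Uni

variable {k : ℕ}

/-- the values at `n` are isolated: every integer `z` at distance at most `w` of one of them has a prime factor
`≤ y`, unless `z` or `-z` is one of the values -/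
def IsoAt (a b : Fin k → ℤ) (w y : ℝ) (n : ℕ) : Prop :=
  ∀ l, ∀ z : ℤ, |(z : ℝ) - ((a l * (n : ℤ) + b l : ℤ) : ℝ)| ≤ w →
    (∀ u, z ≠ a u * (n : ℤ) + b u ∧ z ≠ -(a u * (n : ℤ) + b u)) →
    ∃ q : ℕ, q.Prime ∧ (q : ℝ) ≤ y ∧ (q : ℤ) ∣ z

open Classical in
/-- the good arguments which are isolated -/
noncomputable def GoodI (a b : Fin k → ℤ) (i j : Fin k) (t X : ℕ) (w y : ℝ) (A B : ℕ) : Finset ℕ :=
  (GoodL a b i j t X A B).filter (fun n => IsoAt a b w y n)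

/-- a number proportional to a value is a value -/
theorem prop_eq {K : ℕ} {y : ℝ} (hKy : (K : ℝ) ≤ y) {a₁ a₂ z v : ℤ} (h1 : a₁ ≠ 0) (h2 : a₂ ≠ 0) (h1K : |a₁| ≤ K)
    (h2K : |a₂| ≤ K) (he : a₁ * z = a₂ * v) (hz : ∀ q : ℕ, q.Prime → (q : ℝ) ≤ y → ¬ (q : ℤ) ∣ z)
    (hv : ∀ q : ℕ, q.Prime → (q : ℝ) ≤ y → ¬ (q : ℤ) ∣ v) : z = v ∨ z = -v := by
  have hcop : ∀ (a x : ℤ), a ≠ 0 → |a| ≤ K → (∀ q : ℕ, q.Prime → (q : ℝ) ≤ y → ¬ (q : ℤ) ∣ x) → IsCoprime a x := by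
    intro a x ha haK hx
    rw [Int.isCoprime_iff_gcd_eq_one]
    by_contra hg
    obtain ⟨q, hq, hqd⟩ := Nat.exists_prime_and_dvd hg
    have e1 : (q : ℤ) ∣ a := (Int.natCast_dvd_natCast.2 hqd).trans (Int.gcd_dvd_left _ _)
    have e2 : (q : ℤ) ∣ x := (Int.natCast_dvd_natCast.2 hqd).trans (Int.gcd_dvd_right _ _)
    have e3 := Int.le_of_dvd (abs_pos.2 ha) ((dvd_abs _ _).2 e1)
    have e4 : (q : ℤ) ≤ K := e3.trans haK
    have e5 : (q : ℝ) ≤ K := by exact_mod_cast e4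
    exact hx q hq (e5.trans hKy) e2
  have c1 := hcop a₁ v h1 h1K hv
  have c2 := hcop a₂ z h2 h2K hz
  have d1 : a₁ ∣ a₂ := c1.dvd_of_dvd_mul_right (he ▸ dvd_mul_right a₁ z)
  have d2 : a₂ ∣ a₁ := c2.dvd_of_dvd_mul_right (he ▸ dvd_mul_right a₂ v)
  have d3 : a₁.natAbs = a₂.natAbs := Nat.dvd_antisymm (Int.natAbs_dvd_natAbs.2 d1) (Int.natAbs_dvd_natAbs.2 d2)
  rcases Int.natAbs_eq_natAbs_iff.1 d3 with h | h
  · left
    rw [h] at he
    exact mul_left_cancel₀ h2 he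
  · right
    rw [h, neg_mul, ← mul_neg] at he
    have := mul_left_cancel₀ h2 he
    omega

/-- **Isolated Chen theorem for systems of linear forms, uniformly.** -/
theorem isoP (k E : ℕ) (hk : 1 ≤ k) : ∃ t : ℕ, 1 ≤ t ∧ ∃ κ : ℝ, 0 < κ ∧ ∀ (β : ℝ) (K : ℕ), 0 < β → ∃ ε : ℝ, 0 < ε ∧
    ∀ (s r : ℕ) (θ δ : ℝ), 1 ≤ s → 0 < θ → 0 < δ →
    ∃ c X₀ : ℕ, ∀ X : ℕ, X₀ ≤ X → ∀ (a b : Fin k → ℤ) (i j : Fin k), SysL k E K X a b i j →
      κ / Real.log X ^ k ≤ VL a b X ∧ ∀ A B : ℕ, B ≤ X → θ * X ≤ (B : ℝ) - A →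
        κ * ((B : ℝ) - A) * VL a b X ≤
          ((GoodI a b i j t X (ε * Real.log X) ((X : ℝ) ^ β) A B).card : ℝ) ∧
        ∀ χ : ℕ → Fin r, ∃ P : Finset (ℕ × ℕ),
          (∀ z ∈ P, 1 ≤ z.2 ∧ (z.2 : ℝ) ≤ Real.log X ^ c ∧
            ∀ m < s, z.1 + m * z.2 ∈ GoodI a b i j t X (ε * Real.log X) ((X : ℝ) ^ β) A B ∧
              χ (z.1 + m * z.2) = χ z.1) ∧
          (P : Set (ℕ × ℕ)).PairwiseDisjoint (apSet s) ∧
          (((GoodI a b i j t X (ε * Real.log X) ((X : ℝ) ^ β) A B \ P.biUnion (apSet s)).card : ℕ) : ℝ) ≤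
            δ * ((B : ℝ) - A) * VL a b X := by
  classical
  obtain ⟨t, ht, κ, hκ, HM⟩ := linP k E hk
  refine ⟨t, ht, κ / 2, by positivity, fun β K hβ => ?_⟩
  have ht0 : (0 : ℝ) < t := by exact_mod_cast ht
  obtain ⟨β', hβ'⟩ : ∃ β' : ℝ, β' = min β (1 / (t : ℝ)) := ⟨_, rfl⟩
  have hβ'0 : 0 < β' := by
    rw [hβ']
    exact lt_min hβ (by positivity)
  obtain ⟨K₁, hK₁, HI⟩ := iso_lin k K hk β' hβ'0
  have hk0 : (0 : ℝ) < k := by exact_mod_cast hk
  obtain ⟨ε, hε⟩ : ∃ ε : ℝ, ε = κ / (2 * K₁ * k) := ⟨_, rfl⟩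
  have hε0 : 0 < ε := by rw [hε]; positivity
  have hεK : k * (K₁ * ε) = κ / 2 := by rw [hε]; field_simp
  obtain ⟨X₁, HI⟩ := HI ε hε0 K
  refine ⟨ε, hε0, fun s r θ δ hs hθ hδ => ?_⟩
  obtain ⟨c, X₀, HM⟩ := HM K s (r * 2) θ δ hs hθ hδ
  have h4 : ∀ᶠ X : ℕ in atTop, 1 / θ ≤ (X : ℝ) ^ (1 / 2 : ℝ) :=
    ((tendsto_rpow_atTop (by norm_num : (0 : ℝ) < 1 / 2)).comp tendsto_natCast_atTop_atTop).eventually_ge_atTop _
  have h5 : ∀ᶠ X : ℕ in atTop, (K : ℝ) ≤ (X : ℝ) ^ β' :=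
    ((tendsto_rpow_atTop hβ'0).comp tendsto_natCast_atTop_atTop).eventually_ge_atTop _
  obtain ⟨X₄, h4⟩ := eventually_atTop.1 (h4.and h5)
  refine ⟨c, X₀ + X₁ + X₄ + 3, fun X hX a b i j SS => ?_⟩
  have hX1 : (1 : ℝ) ≤ X := by exact_mod_cast (by omega : 1 ≤ X)
  have hX0 : (0 : ℝ) < X := by linarith
  have hlog : 0 < Real.log X := Real.log_pos (by exact_mod_cast (by omega : 1 < X))
  have hlogk : 0 < Real.log X ^ k := pow_pos hlog k
  obtain ⟨hVlow, HM⟩ := HM X (by omega) a b i j SS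
  refine ⟨?_, fun A B hB hAB => ?_⟩
  · refine le_trans ?_ hVlow
    apply div_le_div_of_nonneg_right _ hlogk.le
    linarith
  have hBA0 : 0 ≤ (B : ℝ) - A := le_trans (by positivity) hAB
  have hhalf : (X : ℝ) ^ (1 / 2 : ℝ) ≤ (B : ℝ) - A := by
    refine le_trans ?_ hAB
    have e1 := (h4 X (by omega)).1
    have e2 : (X : ℝ) ^ (1 / 2 : ℝ) * (X : ℝ) ^ (1 / 2 : ℝ) = X := by
      rw [← Real.rpow_add hX0]
      norm_num
    have e3 : 0 ≤ (X : ℝ) ^ (1 / 2 : ℝ) := by positivity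
    rw [div_le_iff₀ hθ] at e1
    calc (X : ℝ) ^ (1 / 2 : ℝ) = (X : ℝ) ^ (1 / 2 : ℝ) * 1 := (mul_one _).symm
      _ ≤ (X : ℝ) ^ (1 / 2 : ℝ) * ((X : ℝ) ^ (1 / 2 : ℝ) * θ) := by gcongr
      _ = θ * X := by rw [← mul_assoc, e2]; ring
  obtain ⟨hlow, hcov⟩ := HM A B hB hAB
  obtain ⟨y, hy⟩ : ∃ y : ℝ, y = (X : ℝ) ^ β := ⟨_, rfl⟩
  obtain ⟨w, hw⟩ : ∃ w : ℝ, w = ε * Real.log X := ⟨_, rfl⟩
  have hw0 : 0 ≤ w := by rw [hw]; positivity
  rw [← hy, ← hw]
  have hy' : (X : ℝ) ^ β' ≤ y := by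
    rw [hy]
    apply Real.rpow_le_rpow_of_exponent_le hX1
    rw [hβ']
    exact min_le_left _ _
  have hy'' : (X : ℝ) ^ β' ≤ (X : ℝ) ^ (1 / (t : ℝ)) := by
    apply Real.rpow_le_rpow_of_exponent_le hX1
    rw [hβ']
    exact min_le_right _ _
  have hGsub : GoodI a b i j t X w y A B ⊆ GoodL a b i j t X A B := filter_subset _ _
  -- the elements which are not isolated
  have hbad : (((GoodL a b i j t X A B \ GoodI a b i j t X w y A B).card : ℕ) : ℝ) ≤
      κ / 2 * ((B : ℝ) - A) * VL a b X := by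
    obtain ⟨N, hN⟩ : ∃ N : ℕ, N = ⌊w⌋₊ := ⟨_, rfl⟩
    have e2 : GoodL a b i j t X A B \ GoodI a b i j t X w y A B ⊆
        (univ : Finset (Fin k)).biUnion (fun l =>
          ((Icc (-(N : ℤ)) N).filter (fun c => ∀ u, a u * (b l + c) - a l * b u ≠ 0)).biUnion
          (fun c => RL (Fin.cons (a l) a : Fin (k + 1) → ℤ) (Fin.cons (b l + c) b : Fin (k + 1) → ℤ)
            ((X : ℝ) ^ β') A B)) := by
      intro n hn
      rw [Finset.mem_sdiff] at hn
      obtain ⟨hn1, hn2⟩ := hn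
      have hn3 : ¬ IsoAt a b w y n := fun hcon => hn2 (mem_filter.2 ⟨hn1, hcon⟩)
      unfold IsoAt at hn3
      push Not at hn3
      obtain ⟨l, z, hz1, hz2, hz3⟩ := hn3
      unfold GoodL at hn1
      rw [mem_filter] at hn1
      have hval : ∀ u, ∀ q : ℕ, q.Prime → (q : ℝ) ≤ (X : ℝ) ^ β' → ¬ (q : ℤ) ∣ a u * (n : ℤ) + b u := by
        intro u q hq hqy hd
        have e3 := (hn1.2.2.2 u).2.2 q hq hd
        linarith
      have hzq : ∀ q : ℕ, q.Prime → (q : ℝ) ≤ (X : ℝ) ^ β' → ¬ (q : ℤ) ∣ z := by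
        intro q hq hqy hd
        exact hz3 q hq (hqy.trans hy') hd
      rw [mem_biUnion]
      refine ⟨l, mem_univ _, ?_⟩
      rw [mem_biUnion]
      refine ⟨z - (a l * (n : ℤ) + b l), ?_, ?_⟩
      · rw [mem_filter, mem_Icc]
        have e3 : ((z - (a l * (n : ℤ) + b l)).natAbs : ℝ) ≤ w := by
          have : (((z - (a l * (n : ℤ) + b l)).natAbs : ℕ) : ℝ) = |(z : ℝ) - ((a l * (n : ℤ) + b l : ℤ) : ℝ)| := by
            rw [Nat.cast_natAbs]
            push_cast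
            rfl
          rw [this]
          exact hz1
        have e4 : (z - (a l * (n : ℤ) + b l)).natAbs ≤ N := by
          rw [hN]
          exact Nat.le_floor e3
        refine ⟨⟨by omega, by omega⟩, fun u he => ?_⟩
        have e5 : a u * z = a l * (a u * (n : ℤ) + b u) := by
          have : b l + (z - (a l * (n : ℤ) + b l)) = z - a l * n := by ring
          rw [this] at he
          linarith
        rcases prop_eq (h4 X (by omega)).2 (SS.a0 u) (SS.a0 l) (SS.aK u) (SS.aK l) e5 hzq (hval u) with h | h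
        · exact (hz2 u).1 h
        · exact (hz2 u).2 h
      · unfold RL
        rw [mem_filter]
        refine ⟨hn1.1, fun u => ?_⟩
        refine Fin.cases ?_ (fun u => ?_) u
        · intro p hp hpy hd
          rw [Fin.cons_zero, Fin.cons_zero] at hd
          have e3 : a l * (n : ℤ) + (b l + (z - (a l * (n : ℤ) + b l))) = z := by ring
          rw [e3] at hd
          exact hzq p hp hpy hd
        · intro p hp hpy hd
          rw [Fin.cons_succ, Fin.cons_succ] at hd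
          exact hval u p hp hpy hd
    have e3 : (((GoodL a b i j t X A B \ GoodI a b i j t X w y A B).card : ℕ) : ℝ) ≤
        ∑ l : Fin k, ∑ c ∈ (Icc (-(N : ℤ)) N).filter (fun c => ∀ u, a u * (b l + c) - a l * b u ≠ 0),
          ((RL (Fin.cons (a l) a : Fin (k + 1) → ℤ) (Fin.cons (b l + c) b : Fin (k + 1) → ℤ)
            ((X : ℝ) ^ β') A B).card : ℝ) := by
      have e4 := (card_le_card e2).trans card_biUnion_le
      have e5 : ∑ l : Fin k, (((Icc (-(N : ℤ)) N).filter (fun c => ∀ u, a u * (b l + c) - a l * b u ≠ 0)).biUnion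
          (fun c => RL (Fin.cons (a l) a : Fin (k + 1) → ℤ) (Fin.cons (b l + c) b : Fin (k + 1) → ℤ)
            ((X : ℝ) ^ β') A B)).card ≤
          ∑ l : Fin k, ∑ c ∈ (Icc (-(N : ℤ)) N).filter (fun c => ∀ u, a u * (b l + c) - a l * b u ≠ 0),
          (RL (Fin.cons (a l) a : Fin (k + 1) → ℤ) (Fin.cons (b l + c) b : Fin (k + 1) → ℤ)
            ((X : ℝ) ^ β') A B).card := sum_le_sum fun l _ => card_biUnion_le
      exact_mod_cast e4.trans e5
    refine e3.trans ?_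
    calc ∑ l : Fin k, ∑ c ∈ (Icc (-(N : ℤ)) N).filter (fun c => ∀ u, a u * (b l + c) - a l * b u ≠ 0),
          ((RL (Fin.cons (a l) a : Fin (k + 1) → ℤ) (Fin.cons (b l + c) b : Fin (k + 1) → ℤ)
            ((X : ℝ) ^ β') A B).card : ℝ)
        ≤ ∑ _l : Fin k, K₁ * ε * ((B : ℝ) - A) * VL a b X := by
          apply sum_le_sum
          intro l _
          have e6 := HI X (by omega) a b (a l) (b l) SS.a0 SS.aK SS.bK (SS.a0 l) (SS.aK l) (SS.bK l) A B hB hhalf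
          rw [← hw, ← hN] at e6
          exact e6
      _ = k * (K₁ * ε) * ((B : ℝ) - A) * VL a b X := by simp; ring
      _ = κ / 2 * ((B : ℝ) - A) * VL a b X := by rw [hεK]
  refine ⟨?_, ?_⟩
  · have e1 : (((GoodL a b i j t X A B).card : ℕ) : ℝ) =
        (GoodL a b i j t X A B \ GoodI a b i j t X w y A B).card + (GoodI a b i j t X w y A B).card := by
      exact_mod_cast (card_sdiff_add_card_eq_card hGsub).symm
    have e2 : κ * ((B : ℝ) - A) * VL a b X =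
        κ / 2 * ((B : ℝ) - A) * VL a b X + κ / 2 * ((B : ℝ) - A) * VL a b X := by ring
    linarith
  · intro χ
    obtain ⟨P, p1, p2, p3⟩ := hcov (fun n => finProdFinEquiv
      (χ n, if n ∈ GoodI a b i j t X w y A B then (1 : Fin 2) else 0))
    have hcol : ∀ n m : ℕ, finProdFinEquiv (χ n, if n ∈ GoodI a b i j t X w y A B then (1 : Fin 2) else 0) =
        finProdFinEquiv (χ m, if m ∈ GoodI a b i j t X w y A B then (1 : Fin 2) else 0) →
        χ n = χ m ∧ (n ∈ GoodI a b i j t X w y A B ↔ m ∈ GoodI a b i j t X w y A B) := by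
      intro n m he
      have he' := finProdFinEquiv.injective he
      rw [Prod.mk.injEq] at he'
      refine ⟨he'.1, ?_⟩
      have he2 := he'.2
      split_ifs at he2 with h1 h2 h2
      · exact ⟨fun _ => h2, fun _ => h1⟩
      · exact absurd he2 (by decide)
      · exact absurd he2 (by decide)
      · exact ⟨fun hc => absurd hc h1, fun hc => absurd hc h2⟩
    refine ⟨P.filter (fun z => z.1 ∈ GoodI a b i j t X w y A B), ?_, ?_, ?_⟩
    · intro z hz
      rw [mem_filter] at hz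
      obtain ⟨q1, q2, q3⟩ := p1 z hz.1
      refine ⟨q1, q2, fun l hl => ?_⟩
      obtain ⟨q4, q5⟩ := q3 l hl
      obtain ⟨q6, q7⟩ := hcol _ _ q5
      exact ⟨q7.2 hz.2, q6⟩
    · exact p2.subset (by
        rw [coe_filter]
        exact fun z hz => hz.1)
    · refine le_trans ?_ p3
      have hsub : GoodI a b i j t X w y A B \ (P.filter (fun z => z.1 ∈ GoodI a b i j t X w y A B)).biUnion (apSet s) ⊆
          GoodL a b i j t X A B \ P.biUnion (apSet s) := by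
        intro n hn
        rw [Finset.mem_sdiff] at hn ⊢
        refine ⟨hGsub hn.1, fun hcon => hn.2 ?_⟩
        rw [mem_biUnion] at hcon ⊢
        obtain ⟨z, hz, hnz⟩ := hcon
        refine ⟨z, ?_, hnz⟩
        rw [mem_filter]
        refine ⟨hz, ?_⟩
        unfold apSet at hnz
        rw [mem_image] at hnz
        obtain ⟨l, hl, rfl⟩ := hnz
        obtain ⟨_, q5⟩ := (p1 z hz).2.2 l (mem_range.1 hl)
        exact (hcol _ _ q5).2.1 hn.1
      exact_mod_cast card_le_card hsub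

end Pool.Agent.T6.H2.PT
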