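import Pool.Agent.X32.Uni.Box

/-!
# Adding a form `x + a` to a tuple, on average over `a` (helper2)
-/

set_option autoImplicit false

namespace Pool.Agent.T6.H2.PT

open Finset Filter
open scoped Polynomial
open Pool.Agent.X32.Uni

theorem sum_inv_sq (A : ℕ) : ∑ p ∈ Icc 1 A, 1 / (p : ℝ) ^ 2 ≤ 2 := by
  have h : ∀ A : ℕ, 1 ≤ A → ∑ p ∈ Icc 1 A, 1 / (p : ℝ) ^ 2 ≤ 2 - 1 / (A : ℝ) := by
    intro A hA
    induction A, hA using Nat.le_induction with
    | base => norm_num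
    | succ n hn ih =>
      rw [Finset.sum_Icc_succ_top (by omega)]
      have hn0 : (0 : ℝ) < n := by exact_mod_cast hn
      have h1 : 1 / ((n + 1 : ℕ) : ℝ) ^ 2 ≤ 1 / (n : ℝ) - 1 / ((n + 1 : ℕ) : ℝ) := by
        push_cast
        rw [div_sub_div _ _ hn0.ne' (by positivity), div_le_div_iff₀ (by positivity) (by positivity)]
        nlinarith
      linarith
  rcases Nat.eq_zero_or_pos A with rfl | hA
  · simp
  · have h1 := h A hA
    have : (0 : ℝ) ≤ 1 / (A : ℝ) := by positivity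
    linarith

theorem one_le_prod {ι : Type*} (s : Finset ι) (f : ι → ℝ) (h : ∀ i ∈ s, 1 ≤ f i) : 1 ≤ ∏ i ∈ s, f i := by
  calc (1 : ℝ) = ∏ _i ∈ s, (1 : ℝ) := by simp
    _ ≤ ∏ i ∈ s, f i := Finset.prod_le_prod (fun _ _ => zero_le_one) h

theorem avg (c : ℝ) (hc : 0 ≤ c) (A : ℕ) :
    ∑ a ∈ Icc 1 A, ∏ p ∈ a.primeFactors, (1 + c / (p : ℝ)) ≤ Real.exp (2 * c) * A := by
  set P : Finset ℕ := (Icc 1 A).filter Nat.Prime with hP
  have h1 : ∀ a ∈ Icc 1 A, ∏ p ∈ a.primeFactors, (1 + c / (p : ℝ)) =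
      ∑ T ∈ P.powerset, if T ⊆ a.primeFactors then ∏ p ∈ T, (c / (p : ℝ)) else 0 := by
    intro a ha
    rw [Finset.prod_one_add, ← Finset.sum_filter]
    refine Finset.sum_congr ?_ fun _ _ => rfl
    ext T
    simp only [mem_powerset, mem_filter]
    constructor
    · intro h
      refine ⟨fun p hp => ?_, h⟩
      have hpa := h hp
      rw [Nat.mem_primeFactors] at hpa
      rw [hP, mem_filter, mem_Icc]
      rw [mem_Icc] at ha
      exact ⟨⟨hpa.1.one_le, (Nat.le_of_dvd (by omega) hpa.2.1).trans ha.2⟩, hpa.1⟩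
    · exact fun h => h.2
  rw [Finset.sum_congr rfl h1, Finset.sum_comm]
  have h2 : ∀ T ∈ P.powerset, ∑ a ∈ Icc 1 A,
      (if T ⊆ a.primeFactors then ∏ p ∈ T, (c / (p : ℝ)) else 0) ≤
      (A : ℝ) * ∏ p ∈ T, (c / (p : ℝ) ^ 2) := by
    intro T hT
    rw [mem_powerset] at hT
    have hTp : ∀ p ∈ T, p.Prime := fun p hp => (mem_filter.mp (hT hp)).2
    rw [← Finset.sum_filter, Finset.sum_const, nsmul_eq_mul]
    have hsub : (Icc 1 A).filter (fun a => T ⊆ a.primeFactors) ⊆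
        (Ioc 0 A).filter (fun a => (∏ p ∈ T, p) ∣ a) := by
      intro a ha
      rw [mem_filter, mem_Icc] at ha
      rw [mem_filter, mem_Ioc]
      refine ⟨⟨by omega, ha.1.2⟩, ?_⟩
      refine Finset.prod_primes_dvd a (fun p hp => (hTp p hp).prime) fun p hp => ?_
      exact Nat.dvd_of_mem_primeFactors (ha.2 hp)
    have hs : ((((Icc 1 A).filter (fun a => T ⊆ a.primeFactors)).card : ℕ) : ℝ) ≤
        (A : ℝ) * (1 / ((∏ p ∈ T, p : ℕ) : ℝ)) := by
      have e1 := card_le_card hsub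
      rw [Nat.Ioc_filter_dvd_card_eq_div] at e1
      calc _ ≤ ((A / ∏ p ∈ T, p : ℕ) : ℝ) := by exact_mod_cast e1
        _ ≤ (A : ℝ) / ((∏ p ∈ T, p : ℕ) : ℝ) := Nat.cast_div_le
        _ = _ := by ring
    have hprod : (∏ p ∈ T, (c / (p : ℝ) ^ 2)) =
        (1 / ((∏ p ∈ T, p : ℕ) : ℝ)) * ∏ p ∈ T, (c / (p : ℝ)) := by
      push_cast
      rw [one_div, ← Finset.prod_inv_distrib, ← Finset.prod_mul_distrib]
      refine Finset.prod_congr rfl fun p hp => ?_
      have : (p : ℝ) ≠ 0 := by exact_mod_cast (hTp p hp).ne_zero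
      field_simp
    rw [hprod]
    have hnn : 0 ≤ ∏ p ∈ T, (c / (p : ℝ)) := Finset.prod_nonneg fun p _ => by positivity
    calc _ ≤ ((A : ℝ) * (1 / ((∏ p ∈ T, p : ℕ) : ℝ))) * ∏ p ∈ T, (c / (p : ℝ)) :=
          mul_le_mul_of_nonneg_right hs hnn
      _ = _ := by ring
  refine (Finset.sum_le_sum h2).trans ?_
  rw [← Finset.mul_sum, ← Finset.prod_one_add]
  have h3 : ∏ p ∈ P, (1 + c / (p : ℝ) ^ 2) ≤ Real.exp (2 * c) := by
    calc ∏ p ∈ P, (1 + c / (p : ℝ) ^ 2) ≤ ∏ p ∈ P, Real.exp (c / (p : ℝ) ^ 2) := by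
          refine Finset.prod_le_prod (fun p _ => by positivity) fun p _ => ?_
          have := Real.add_one_le_exp (c / (p : ℝ) ^ 2)
          linarith
      _ = Real.exp (∑ p ∈ P, c / (p : ℝ) ^ 2) := (Real.exp_sum _ _).symm
      _ ≤ Real.exp (2 * c) := by
          apply Real.exp_le_exp.mpr
          calc ∑ p ∈ P, c / (p : ℝ) ^ 2 ≤ ∑ p ∈ Icc 1 A, c / (p : ℝ) ^ 2 :=
                Finset.sum_le_sum_of_subset_of_nonneg (filter_subset _ _) fun _ _ _ => by positivity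
            _ = c * ∑ p ∈ Icc 1 A, 1 / (p : ℝ) ^ 2 := by
                rw [Finset.mul_sum]
                refine Finset.sum_congr rfl fun p _ => by ring
            _ ≤ 2 * c := by
                have := mul_le_mul_of_nonneg_left (sum_inv_sq A) hc
                linarith
  calc _ ≤ (A : ℝ) * Real.exp (2 * c) := mul_le_mul_of_nonneg_left h3 (by positivity)
    _ = _ := by ring

/-- `∏ (1 - 1/p)⁻¹` over the prime factors of `v`, that is `v / φ(v)` -/
noncomputable def gg (v : ℤ) : ℝ := ∏ p ∈ v.natAbs.primeFactors, (1 - (p : ℝ)⁻¹)⁻¹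

theorem fac (p : ℕ) (hp : p.Prime) : 0 < 1 - (p : ℝ)⁻¹ ∧ 1 - (p : ℝ)⁻¹ ≤ 1 := by
  have hp2 : (2 : ℝ) ≤ p := by exact_mod_cast hp.two_le
  have h1 : (p : ℝ)⁻¹ ≤ 2⁻¹ := inv_anti₀ (by norm_num) hp2
  have h2 : 0 < (p : ℝ)⁻¹ := by positivity
  have h3 : (2 : ℝ)⁻¹ < 1 := by norm_num
  constructor <;> linarith

theorem one_le_fac (p : ℕ) (hp : p.Prime) : 1 ≤ (1 - (p : ℝ)⁻¹)⁻¹ :=
  (one_le_inv₀ (fac p hp).1).2 (fac p hp).2

theorem one_le_gg (v : ℤ) : 1 ≤ gg v := by
  unfold gg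
  apply one_le_prod
  intro p hp
  exact one_le_fac p (Nat.prime_of_mem_primeFactors hp)

theorem pow_one_add (k : ℕ) (x : ℝ) (h0 : 0 ≤ x) (h1 : x ≤ 1) : (1 + x) ^ k ≤ 1 + (2 ^ k - 1) * x := by
  induction k with
  | zero => simp
  | succ k ih =>
    have h2 : (1 : ℝ) ≤ 2 ^ k := one_le_pow₀ (by norm_num)
    calc (1 + x) ^ (k + 1) = (1 + x) ^ k * (1 + x) := pow_succ _ _
      _ ≤ (1 + (2 ^ k - 1) * x) * (1 + x) := by gcongr
      _ = 1 + 2 ^ k * x + (2 ^ k - 1) * (x * x) := by ring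
      _ ≤ 1 + 2 ^ k * x + (2 ^ k - 1) * (x * 1) := by
          gcongr
      _ = 1 + (2 ^ (k + 1) - 1) * x := by ring

theorem gg_pow (k : ℕ) (v : ℤ) : gg v ^ k ≤ ∏ p ∈ v.natAbs.primeFactors, (1 + 2 ^ (k + 1) / (p : ℝ)) := by
  unfold gg
  rw [← Finset.prod_pow]
  apply Finset.prod_le_prod
  · intro p hp
    have := one_le_fac p (Nat.prime_of_mem_primeFactors hp)
    positivity
  · intro p hp
    have hpp := Nat.prime_of_mem_primeFactors hp
    have hp2 : (2 : ℝ) ≤ p := by exact_mod_cast hpp.two_le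
    have hp0 : (0 : ℝ) < p := by linarith
    have e1 : (1 - (p : ℝ)⁻¹)⁻¹ ≤ 1 + 2 / p := by
      rw [inv_le_comm₀ (fac p hpp).1 (by positivity)]
      rw [inv_eq_one_div, div_le_iff₀ (by positivity)]
      have : (1 - (p : ℝ)⁻¹) * (1 + 2 / p) = 1 + (p - 2) / p ^ 2 := by
        field_simp
        ring
      rw [this]
      have : 0 ≤ ((p : ℝ) - 2) / p ^ 2 := div_nonneg (by linarith) (by positivity)
      linarith
    have e2 : (2 : ℝ) / p ≤ 1 := by rw [div_le_one hp0]; exact hp2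
    calc (1 - (p : ℝ)⁻¹)⁻¹ ^ k ≤ (1 + 2 / p) ^ k :=
          pow_le_pow_left₀ (by have := one_le_fac p hpp; linarith) e1 k
      _ ≤ 1 + (2 ^ k - 1) * (2 / p) := pow_one_add k _ (by positivity) e2
      _ ≤ 1 + 2 ^ k * (2 / p) := by
          have : 0 ≤ (2 : ℝ) / p := by positivity
          nlinarith
      _ = 1 + 2 ^ (k + 1) / (p : ℝ) := by ring

theorem gg_prod_le {k : ℕ} (d : Fin k → ℤ) (hd : ∀ l, d l ≠ 0) : gg (∏ l, d l) ≤ ∏ l, gg (d l) := by
  classical
  have h : ∀ s : Finset (Fin k), gg (∏ l ∈ s, d l) ≤ ∏ l ∈ s, gg (d l) := by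
    intro s
    induction s using Finset.induction_on with
    | empty => simp [gg]
    | insert a s ha ih =>
      rw [Finset.prod_insert ha, Finset.prod_insert ha]
      have h1 : gg (d a * ∏ l ∈ s, d l) ≤ gg (d a) * gg (∏ l ∈ s, d l) := by
        unfold gg
        rw [Int.natAbs_mul, Nat.primeFactors_mul (Int.natAbs_ne_zero.2 (hd a))
          (Int.natAbs_ne_zero.2 (Finset.prod_ne_zero_iff.2 fun l _ => hd l))]
        rw [← Finset.prod_union_inter]
        apply le_mul_of_one_le_right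
        · apply Finset.prod_nonneg
          intro p hp
          rw [mem_union] at hp
          rcases hp with hp | hp
          · have := one_le_fac p (Nat.prime_of_mem_primeFactors hp)
            linarith
          · have := one_le_fac p (Nat.prime_of_mem_primeFactors hp)
            linarith
        · apply one_le_prod
          intro p hp
          exact one_le_fac p (Nat.prime_of_mem_primeFactors (mem_inter.1 hp).1)
      refine h1.trans ?_
      apply mul_le_mul_of_nonneg_left ih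
      have := one_le_gg (d a)
      linarith
  exact h univ

/-- a product is at most the sum of the `k`-th powers -/
theorem prod_le_sum_pow {k : ℕ} (hk : 1 ≤ k) (y : Fin k → ℝ) (hy : ∀ l, 0 ≤ y l) : ∏ l, y l ≤ ∑ l, y l ^ k := by
  obtain ⟨i, _, hi⟩ := Finset.exists_max_image univ y ⟨⟨0, hk⟩, mem_univ _⟩
  calc ∏ l, y l ≤ ∏ _l : Fin k, y i := Finset.prod_le_prod (fun l _ => hy l) fun l hl => hi l hl
    _ = y i ^ k := by simp
    _ ≤ ∑ l, y l ^ k := Finset.single_le_sum (f := fun l => y l ^ k) (fun l _ => pow_nonneg (hy l) k) (mem_univ i)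

/-- the average over the shifts -/
theorem avg_gg {k : ℕ} (hk : 1 ≤ k) (b : Fin k → ℤ) : ∃ K : ℝ, 0 < K ∧ ∃ H : ℕ, ∀ w : ℕ,
    ∑ a ∈ (Icc (-(w : ℤ)) w).filter (fun a => ∀ l, a ≠ b l), gg (∏ l, (a - b l)) ≤ K * (w + H) := by
  classical
  obtain ⟨H, hH⟩ : ∃ H : ℕ, H = ∑ l, (b l).natAbs := ⟨_, rfl⟩
  obtain ⟨c, hc⟩ : ∃ c : ℝ, c = 2 ^ (k + 1) := ⟨_, rfl⟩
  have hc0 : 0 ≤ c := by rw [hc]; positivity
  refine ⟨k * (2 * Real.exp (2 * c)), by positivity, H, fun w => ?_⟩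
  have h1 : ∀ l : Fin k, ∑ a ∈ (Icc (-(w : ℤ)) w).filter (fun a => ∀ l, a ≠ b l), gg (a - b l) ^ k ≤
      2 * Real.exp (2 * c) * (w + H) := by
    intro l
    have hbl : (b l).natAbs ≤ H := by
      rw [hH]
      exact Finset.single_le_sum (f := fun l => (b l).natAbs) (fun _ _ => Nat.zero_le _) (mem_univ l)
    -- positive and negative differences
    obtain ⟨F, hF⟩ : ∃ F : ℕ → ℝ, F = fun v : ℕ => ∏ p ∈ v.primeFactors, (1 + c / ((p : ℕ) : ℝ)) := ⟨_, rfl⟩
    have hF0 : ∀ v, 0 ≤ F v := by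
      intro v
      rw [hF]
      exact Finset.prod_nonneg fun p _ => by positivity
    have hgF : ∀ v : ℤ, gg v ^ k ≤ F v.natAbs := by
      intro v
      rw [hF, hc]
      exact gg_pow k v
    set S := (Icc (-(w : ℤ)) w).filter (fun a => ∀ l, a ≠ b l) with hS
    have h2 : ∑ a ∈ S, gg (a - b l) ^ k ≤ ∑ a ∈ S, F (a - b l).natAbs := Finset.sum_le_sum fun a _ => hgF _
    refine h2.trans ?_
    have h3 : ∀ T : Finset ℤ, T ⊆ S → Set.InjOn (fun a : ℤ => (a - b l).natAbs) T →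
        ∑ a ∈ T, F (a - b l).natAbs ≤ Real.exp (2 * c) * (w + H) := by
      intro T hT hinj
      have e1 : ∑ a ∈ T, F (a - b l).natAbs = ∑ v ∈ T.image (fun a : ℤ => (a - b l).natAbs), F v := by
        rw [Finset.sum_image hinj]
      rw [e1]
      have e2 : T.image (fun a : ℤ => (a - b l).natAbs) ⊆ Icc 1 (w + H) := by
        intro v hv
        rw [mem_image] at hv
        obtain ⟨a, ha, rfl⟩ := hv
        have ha' := hT ha
        rw [hS, mem_filter, mem_Icc] at ha'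
        have h4 := ha'.2 l
        rw [mem_Icc]
        omega
      refine (Finset.sum_le_sum_of_subset_of_nonneg e2 fun v _ _ => hF0 v).trans ?_
      have := avg c hc0 (w + H)
      rw [hF]
      push_cast at this ⊢
      exact this
    rw [← Finset.sum_filter_add_sum_filter_not S (fun a => b l ≤ a)]
    have h4 := h3 (S.filter (fun a => b l ≤ a)) (filter_subset _ _) (by
      intro a ha a' ha' h
      rw [Finset.mem_coe, mem_filter] at ha ha'
      simp only at h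
      omega)
    have h5 := h3 (S.filter (fun a => ¬ b l ≤ a)) (filter_subset _ _) (by
      intro a ha a' ha' h
      rw [Finset.mem_coe, mem_filter] at ha ha'
      simp only at h
      omega)
    linarith
  calc ∑ a ∈ (Icc (-(w : ℤ)) w).filter (fun a => ∀ l, a ≠ b l), gg (∏ l, (a - b l))
      ≤ ∑ a ∈ (Icc (-(w : ℤ)) w).filter (fun a => ∀ l, a ≠ b l), ∑ l, gg (a - b l) ^ k := by
        apply Finset.sum_le_sum
        intro a ha
        rw [mem_filter] at ha
        refine (gg_prod_le _ fun l => sub_ne_zero.2 (ha.2 l)).trans ?_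
        exact prod_le_sum_pow hk _ fun l => by have := one_le_gg (a - b l); linarith
    _ = ∑ l, ∑ a ∈ (Icc (-(w : ℤ)) w).filter (fun a => ∀ l, a ≠ b l), gg (a - b l) ^ k := Finset.sum_comm
    _ ≤ ∑ _l : Fin k, 2 * Real.exp (2 * c) * (w + H) := Finset.sum_le_sum fun l _ => h1 l
    _ = k * (2 * Real.exp (2 * c)) * (w + H) := by simp; ring

end Pool.Agent.T6.H2.PT
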