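import Pool.Agent.T6.H2.PT.Avg
import Pool.Agent.H305R2.MertensE

/-!
# Averages of `v / φ(v)` over the values of a linear polynomial in a very short interval (helper2)
-/

set_option autoImplicit false

namespace Pool.Agent.T6.H2.PT

open Finset Filter
open Pool.Agent.X32.Uni

/-- the product over the small primes is at most a power of the logarithm, hence small -/
theorem small_prod (C : ℕ) : ∀ᶠ w : ℕ in atTop,
    ∏ p ∈ (Icc 1 w).filter Nat.Prime, (1 + (C : ℝ) / p) ≤ w := by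
  have h1 := Pool.Agent.H305R2.mertens_three
  have h2 : Real.exp Real.eulerMascheroniConstant < Real.exp Real.eulerMascheroniConstant + 1 := by linarith
  obtain ⟨M, hM⟩ : ∃ M : ℝ, M = Real.exp Real.eulerMascheroniConstant + 1 := ⟨_, rfl⟩
  rw [← hM] at h2
  have hM0 : 0 < M := lt_trans (Real.exp_pos _) h2
  have h3 : ∀ᶠ w : ℕ in atTop, M ^ C * Real.log w ^ C ≤ w :=
    Pool.Agent.X32.Uni.log_small C (M ^ C)
  filter_upwards [h1.eventually (gt_mem_nhds h2), h3, eventually_ge_atTop 3] with w hw h4 hw3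
  have hlog : 0 < Real.log w := Real.log_pos (by exact_mod_cast (by omega : 1 < w))
  rw [div_lt_iff₀ hlog] at hw
  refine le_trans ?_ h4
  rw [← mul_pow]
  have h5 : 0 ≤ ∏ p ∈ (Icc 1 w).filter Nat.Prime, (1 - (p : ℝ)⁻¹)⁻¹ := by
    apply Finset.prod_nonneg
    intro p hp
    have := one_le_fac p (mem_filter.1 hp).2
    linarith
  refine le_trans ?_ (pow_le_pow_left₀ h5 hw.le C)
  rw [← Finset.prod_pow]
  apply Finset.prod_le_prod
  · intro p _
    positivity
  · intro p hp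
    have hpp := (mem_filter.1 hp).2
    have hp0 : (0 : ℝ) < p := by exact_mod_cast hpp.pos
    have e1 := (fac p hpp).1
    have e2 : 1 + (p : ℝ)⁻¹ ≤ (1 - (p : ℝ)⁻¹)⁻¹ := by
      rw [← one_div (1 - (p : ℝ)⁻¹), le_div_iff₀ e1]
      nlinarith [sq_nonneg ((p : ℝ)⁻¹)]
    have e3 : 1 + (C : ℝ) / p ≤ (1 + (p : ℝ)⁻¹) ^ C := by
      have := one_add_mul_le_pow (a := (p : ℝ)⁻¹) (by have : 0 < (p : ℝ)⁻¹ := by positivity
                                                      linarith) C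
      calc 1 + (C : ℝ) / p = 1 + C * (p : ℝ)⁻¹ := by rw [div_eq_mul_inv]
        _ ≤ _ := this
    refine e3.trans (pow_le_pow_left₀ (by positivity) e2 C)

/-- the integers `c ∈ [-w, w]` with `D ∣ a c + b`, `a` prime to `D` -/
theorem count_class (w D : ℕ) (hD : 0 < D) (a b : ℤ) (hcop : IsCoprime (D : ℤ) a) :
    ((((Icc (-(w : ℤ)) w).filter (fun c => (D : ℤ) ∣ a * c + b)).card : ℕ) : ℝ) ≤ 2 * w / D + 1 := by
  have hD0 : (0 : ℤ) < D := by exact_mod_cast hD
  have h1 : ((Icc (-(w : ℤ)) w).filter (fun c => (D : ℤ) ∣ a * c + b)).card ≤ (2 * w) / D + 1 := by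
    have h2 : ((Icc (-(w : ℤ)) w).filter (fun c => (D : ℤ) ∣ a * c + b)).card ≤
        (Finset.range ((2 * w) / D + 1)).card := by
      apply Finset.card_le_card_of_injOn (fun c : ℤ => ((c + w) / D).toNat)
      · intro c hc
        rw [mem_coe, mem_filter, mem_Icc] at hc
        rw [mem_coe, mem_range]
        have e1 : 0 ≤ (c + w) / D := Int.ediv_nonneg (by omega) hD0.le
        have e2 : (c + w) / D ≤ (2 * w : ℤ) / D := Int.ediv_le_ediv hD0 (by omega)
        rw [Nat.lt_succ_iff]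
        zify
        rw [Int.toNat_of_nonneg e1]
        exact e2
      · intro c hc c' hc' he
        rw [mem_coe, mem_filter, mem_Icc] at hc hc'
        have e1 : 0 ≤ (c + w) / D := Int.ediv_nonneg (by omega) hD0.le
        have e2 : 0 ≤ (c' + w) / D := Int.ediv_nonneg (by omega) hD0.le
        have he' : (c + w) / D = (c' + w) / D := by
          have he2 : ((c + w) / D).toNat = ((c' + w) / D).toNat := he
          have := congrArg (Int.ofNat) he2
          rwa [Int.ofNat_eq_natCast, Int.ofNat_eq_natCast, Int.toNat_of_nonneg e1, Int.toNat_of_nonneg e2] at this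
        have e3 : (D : ℤ) ∣ a * (c - c') := by
          have := dvd_sub hc.2 hc'.2
          have e4 : a * c + b - (a * c' + b) = a * (c - c') := by ring
          rwa [e4] at this
        have e5 : (D : ℤ) ∣ c - c' := hcop.dvd_of_dvd_mul_left e3
        obtain ⟨q, hq⟩ := e5
        have e6 := Int.emod_add_mul_ediv (c + w) D
        have e7 := Int.emod_add_mul_ediv (c' + w) D
        have e8 := Int.emod_lt_of_pos (c + w) hD0
        have e9 := Int.emod_lt_of_pos (c' + w) hD0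
        have e10 := Int.emod_nonneg (c + w) hD0.ne'
        have e11 := Int.emod_nonneg (c' + w) hD0.ne'
        rw [he'] at e6
        have e12 : c - c' = (c + w) % D - (c' + w) % D := by linarith
        have e13 : (D : ℤ) * q < D := by linarith
        have e14 : -(D : ℤ) < D * q := by linarith
        have e15 : q < 1 := by nlinarith
        have e16 : -1 < q := by nlinarith
        have e17 : q = 0 := by omega
        rw [e17, mul_zero] at hq
        omega
    rwa [card_range] at h2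
  have hD0' : (0 : ℝ) < D := by exact_mod_cast hD
  calc _ ≤ (((2 * w) / D + 1 : ℕ) : ℝ) := by exact_mod_cast h1
    _ = (((2 * w) / D : ℕ) : ℝ) + 1 := by push_cast; ring
    _ ≤ ((2 * w : ℕ) : ℝ) / D + 1 := by
        have := @Nat.cast_div_le ℝ _ _ _ (2 * w) D
        linarith
    _ = 2 * w / D + 1 := by push_cast; ring

/-- the part of the primes `≤ w` which do not divide `a` -/
theorem avg_mid (C : ℕ) : ∃ w₀ : ℕ, ∀ w : ℕ, w₀ ≤ w → ∀ a b : ℤ, a ≠ 0 →
    ∑ c ∈ Icc (-(w : ℤ)) w, ∏ p ∈ ((Icc 1 w).filter Nat.Prime).filter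
      (fun p : ℕ => ¬ (p : ℤ) ∣ a ∧ (p : ℤ) ∣ a * c + b), (1 + (C : ℝ) / p) ≤ (2 * Real.exp (2 * C) + 1) * w := by
  classical
  obtain ⟨w₀, hw₀⟩ := eventually_atTop.1 (small_prod C)
  refine ⟨w₀, fun w hw a b ha => ?_⟩
  have hsm := hw₀ w hw
  obtain ⟨Q, hQ⟩ : ∃ Q : Finset ℕ, Q = ((Icc 1 w).filter Nat.Prime).filter (fun p : ℕ => ¬ (p : ℤ) ∣ a) := ⟨_, rfl⟩
  have hQp : ∀ p ∈ Q, p.Prime := by
    intro p hp
    rw [hQ, mem_filter, mem_filter] at hp
    exact hp.1.2
  have hQa : ∀ p ∈ Q, ¬ (p : ℤ) ∣ a := by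
    intro p hp
    rw [hQ, mem_filter, mem_filter] at hp
    exact hp.2
  have h1 : ∀ c ∈ Icc (-(w : ℤ)) w, ∏ p ∈ ((Icc 1 w).filter Nat.Prime).filter
      (fun p : ℕ => ¬ (p : ℤ) ∣ a ∧ (p : ℤ) ∣ a * c + b), (1 + (C : ℝ) / p) =
      ∑ T ∈ Q.powerset, if (∀ p ∈ T, (p : ℤ) ∣ a * c + b) then ∏ p ∈ T, ((C : ℝ) / p) else 0 := by
    intro c _
    rw [Finset.prod_one_add, ← Finset.sum_filter]
    refine Finset.sum_congr ?_ fun _ _ => rfl
    ext T
    simp only [mem_powerset, mem_filter, hQ]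
    constructor
    · intro h
      refine ⟨fun p hp => ?_, fun p hp => ?_⟩
      · have := h hp
        rw [mem_filter] at this ⊢
        exact ⟨this.1, this.2.1⟩
      · have := h hp
        rw [mem_filter] at this
        exact this.2.2
    · rintro ⟨h1, h2⟩ p hp
      have := h1 hp
      rw [mem_filter] at this ⊢
      exact ⟨this.1, this.2, h2 p hp⟩
  rw [Finset.sum_congr rfl h1, Finset.sum_comm]
  have h2 : ∀ T ∈ Q.powerset, ∑ c ∈ Icc (-(w : ℤ)) w,
      (if (∀ p ∈ T, (p : ℤ) ∣ a * c + b) then ∏ p ∈ T, ((C : ℝ) / p) else 0) ≤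
      2 * w * ∏ p ∈ T, ((C : ℝ) / (p : ℝ) ^ 2) + ∏ p ∈ T, ((C : ℝ) / p) := by
    intro T hT
    rw [mem_powerset] at hT
    have hTp : ∀ p ∈ T, p.Prime := fun p hp => hQp p (hT hp)
    have hD1 : 0 < ∏ p ∈ T, p := Finset.prod_pos fun p hp => (hTp p hp).pos
    rw [← Finset.sum_filter, Finset.sum_const, nsmul_eq_mul]
    have hcop : IsCoprime ((∏ p ∈ T, p : ℕ) : ℤ) a := by
      push_cast
      apply IsCoprime.prod_left
      intro p hp
      exact (Nat.prime_iff_prime_int.1 (hTp p hp)).coprime_iff_not_dvd.2 (hQa p (hT hp))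
    have hsub : (Icc (-(w : ℤ)) w).filter (fun c => ∀ p ∈ T, (p : ℤ) ∣ a * c + b) ⊆
        (Icc (-(w : ℤ)) w).filter (fun c => ((∏ p ∈ T, p : ℕ) : ℤ) ∣ a * c + b) := by
      intro c hc
      rw [mem_filter] at hc ⊢
      refine ⟨hc.1, ?_⟩
      have h3 : ∀ p ∈ T, p ∣ (a * c + b).natAbs := by
        intro p hp
        have := Int.natAbs_dvd_natAbs.2 (hc.2 p hp)
        rwa [Int.natAbs_natCast] at this
      have h4 := Finset.prod_primes_dvd (a * c + b).natAbs (fun p hp => (hTp p hp).prime) h3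
      exact Int.natCast_dvd.2 h4
    have hs : ((((Icc (-(w : ℤ)) w).filter (fun c => ∀ p ∈ T, (p : ℤ) ∣ a * c + b)).card : ℕ) : ℝ) ≤
        2 * w / ((∏ p ∈ T, p : ℕ) : ℝ) + 1 := by
      refine le_trans ?_ (count_class w _ hD1 a b hcop)
      exact_mod_cast card_le_card hsub
    have hprod : (∏ p ∈ T, ((C : ℝ) / (p : ℝ) ^ 2)) =
        (1 / ((∏ p ∈ T, p : ℕ) : ℝ)) * ∏ p ∈ T, ((C : ℝ) / (p : ℝ)) := by
      push_cast
      rw [one_div, ← Finset.prod_inv_distrib, ← Finset.prod_mul_distrib]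
      refine Finset.prod_congr rfl fun p hp => ?_
      have : (p : ℝ) ≠ 0 := by exact_mod_cast (hTp p hp).ne_zero
      field_simp
    have hnn : 0 ≤ ∏ p ∈ T, ((C : ℝ) / (p : ℝ)) := Finset.prod_nonneg fun p _ => by positivity
    rw [hprod]
    calc _ ≤ (2 * w / ((∏ p ∈ T, p : ℕ) : ℝ) + 1) * ∏ p ∈ T, ((C : ℝ) / (p : ℝ)) :=
          mul_le_mul_of_nonneg_right hs hnn
      _ = _ := by ring
  refine (Finset.sum_le_sum h2).trans ?_
  rw [Finset.sum_add_distrib, ← Finset.mul_sum, ← Finset.prod_one_add, ← Finset.prod_one_add]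
  have h3 : ∏ p ∈ Q, (1 + (C : ℝ) / (p : ℝ) ^ 2) ≤ Real.exp (2 * C) := by
    calc ∏ p ∈ Q, (1 + (C : ℝ) / (p : ℝ) ^ 2) ≤ ∏ p ∈ Q, Real.exp ((C : ℝ) / (p : ℝ) ^ 2) := by
          refine Finset.prod_le_prod (fun p _ => by positivity) fun p _ => ?_
          have := Real.add_one_le_exp ((C : ℝ) / (p : ℝ) ^ 2)
          linarith
      _ = Real.exp (∑ p ∈ Q, (C : ℝ) / (p : ℝ) ^ 2) := (Real.exp_sum _ _).symm
      _ ≤ Real.exp (2 * C) := by
          apply Real.exp_le_exp.mpr
          have hsub : Q ⊆ Icc 1 w := by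
            intro p hp
            rw [hQ, mem_filter, mem_filter] at hp
            exact hp.1.1
          calc ∑ p ∈ Q, (C : ℝ) / (p : ℝ) ^ 2 ≤ ∑ p ∈ Icc 1 w, (C : ℝ) / (p : ℝ) ^ 2 :=
                Finset.sum_le_sum_of_subset_of_nonneg hsub fun _ _ _ => by positivity
            _ = C * ∑ p ∈ Icc 1 w, 1 / (p : ℝ) ^ 2 := by
                rw [Finset.mul_sum]
                refine Finset.sum_congr rfl fun p _ => by ring
            _ ≤ 2 * C := by
                have := mul_le_mul_of_nonneg_left (sum_inv_sq w) (Nat.cast_nonneg C (α := ℝ))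
                linarith
  have h4 : ∏ p ∈ Q, (1 + (C : ℝ) / (p : ℝ)) ≤ w := by
    refine le_trans ?_ hsm
    have hsub : Q ⊆ (Icc 1 w).filter Nat.Prime := by
      rw [hQ]
      exact filter_subset _ _
    rw [← Finset.prod_sdiff hsub]
    apply le_mul_of_one_le_left
    · exact Finset.prod_nonneg fun p _ => by positivity
    · apply one_le_prod
      intro p _
      have : 0 ≤ (C : ℝ) / p := by positivity
      linarith
  calc 2 * (w : ℝ) * ∏ p ∈ Q, (1 + (C : ℝ) / (p : ℝ) ^ 2) + ∏ p ∈ Q, (1 + (C : ℝ) / (p : ℝ))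
      ≤ 2 * (w : ℝ) * Real.exp (2 * C) + w := by gcongr
    _ = (2 * Real.exp (2 * C) + 1) * w := by ring

end Pool.Agent.T6.H2.PT
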