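import Pool.Agent.T6.H2.PT.Rough
import Pool.Agent.T6.H2.PT.Avg

/-!
# The numbers near an almost prime tuple (helper2)

For an admissible tuple `b` of `k` shifts we bound the number of the pairs `(n, a)`, `|a| ≤ ε log X`, such that
no `n + b_l` and not `n + a` has a prime factor `≤ X ^ β`: it is at most `K ε` times the expected number of the tuples.
-/

set_option autoImplicit false

namespace Pool.Agent.T6.H2.PT

open Finset Filter
open scoped Polynomial
open Pool.Agent.X32.Uni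

variable {k : ℕ}

open Classical in
/-- the `n` such that no `n + b_l` has a prime factor `≤ y` -/
noncomputable def RT (b : Fin k → ℤ) (y : ℝ) (A B : ℕ) : Finset ℕ :=
  (Ioc A B).filter (fun n : ℕ => ∀ l, ∀ p : ℕ, p.Prime → (p : ℝ) ≤ y → ¬ (p : ℤ) ∣ (n : ℤ) + b l)

theorem RT_eq (b : Fin k → ℤ) (y : ℝ) (A B : ℕ) : RT b y A B = RB (lf (fun _ => 1) b) y A B := by
  classical
  unfold RT RB
  apply filter_congr
  intro n _
  simp only [lf_eval, one_mul]
  constructor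
  · intro h p hp hy hd
    obtain ⟨l, _, hl⟩ := (Nat.prime_iff_prime_int.1 hp).exists_mem_finset_dvd hd
    exact h l p hp hy hl
  · intro h l p hp hy hd
    exact h p hp hy (hd.trans (dvd_prod_of_mem _ (mem_univ l)))

/-- a prime which obstructs a tuple of `k` shifts is at most `k` -/
theorem obs_le (b : Fin k → ℤ) (p : ℕ) (h : ∀ n : ℤ, ∃ i, (p : ℤ) ∣ n + b i) : p ≤ k := by
  classical
  choose g hg using fun n : ℕ => h n
  have hinj : Set.InjOn g (Finset.range p : Set ℕ) := by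
    intro a ha c hc hac
    rw [Finset.mem_coe, Finset.mem_range] at ha hc
    have h5 := hg a
    have h6 := hg c
    rw [hac] at h5
    have h7 := dvd_sub h5 h6
    have h8 : ((a : ℤ) + b (g c)) - ((c : ℤ) + b (g c)) = (a : ℤ) - c := by ring
    rw [h8] at h7
    have h9 : (c : ℤ) ≡ a [ZMOD p] := (Int.modEq_iff_dvd).2 h7
    have h10 : c ≡ a [MOD p] := Int.natCast_modEq_iff.1 h9
    exact (Nat.ModEq.eq_of_lt_of_lt h10 hc ha).symm
  have h5 := Finset.card_le_card_of_injOn g (fun a _ => Finset.mem_univ (g a)) hinj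
  rwa [Finset.card_range, Finset.card_univ, Fintype.card_fin] at h5

theorem omL_le_self (a b : Fin k → ℤ) (p : ℕ) : omL a b p ≤ p := by
  unfold omL
  exact (card_filter_le _ _).trans (by rw [card_range])

theorem fac_nonneg (a b : Fin k → ℤ) (p : ℕ) (hp : p.Prime) : 0 ≤ 1 - (omL a b p : ℝ) / p := by
  have hp0 : (0 : ℝ) < p := by exact_mod_cast hp.pos
  rw [sub_nonneg, div_le_one hp0]
  exact_mod_cast omL_le_self a b p

theorem VL_nonneg (a b : Fin k → ℤ) (X : ℕ) : 0 ≤ VL a b X := by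
  unfold VL
  exact prod_nonneg fun p hp => fac_nonneg a b p (mem_filter.1 hp).2

/-- the upper bound for all tuples of `k` shifts -/
theorem rough_tuple (k : ℕ) (hk : 1 ≤ k) (ε : ℝ) (hε : 0 < ε) (β : ℝ) (hβ : 0 < β) : ∃ KU : ℝ, 0 < KU ∧
    ∃ n₀ : ℕ, ∀ n : ℕ, n₀ ≤ n → ∀ b : Fin k → ℤ, ∀ A B : ℕ, B ≤ n → (n : ℝ) ^ ε ≤ (B : ℝ) - A →
        ((RT b ((n : ℝ) ^ β) A B).card : ℝ) ≤ KU * ((B : ℝ) - A) * VL (fun _ => 1) b n := by
  classical
  obtain ⟨KU, hKU, n₀, H⟩ := roughU k hk ε hε β hβ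
  have h1 : ∀ᶠ n : ℕ in atTop, (k : ℝ) ≤ (n : ℝ) ^ β :=
    ((tendsto_rpow_atTop hβ).comp tendsto_natCast_atTop_atTop).eventually_ge_atTop _
  obtain ⟨n₁, h1⟩ := eventually_atTop.1 h1
  refine ⟨KU, hKU, max n₀ n₁, fun n hn b A B hB hAB => ?_⟩
  by_cases hadm : AdmL (fun _ : Fin k => (1 : ℤ)) b
  · have hdeg : ∀ l, (lf (fun _ : Fin k => (1 : ℤ)) b l).natDegree = 1 := fun l => lf_deg _ _ l one_ne_zero
    have h2 := H n ((le_max_left _ _).trans hn) k (lf (fun _ => 1) b) (loc_lf hadm) (by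
      simp only [hdeg]
      simp) A B hB hAB
    rw [← RT_eq, V_lf] at h2
    exact h2
  · have h3 : RT b ((n : ℝ) ^ β) A B = ∅ := by
      rw [Finset.eq_empty_iff_forall_notMem]
      intro x hx
      unfold RT at hx
      rw [mem_filter] at hx
      unfold AdmL at hadm
      push Not at hadm
      obtain ⟨p, hp, hall⟩ := hadm
      simp only [one_mul] at hall
      have h4 := obs_le b p hall
      obtain ⟨i, hi⟩ := hall x
      have h5 := h1 n ((le_max_right _ _).trans hn)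
      have h6 : (p : ℝ) ≤ k := by exact_mod_cast h4
      exact hx.2 i p hp (h6.trans h5) hi
    rw [h3, card_empty, Nat.cast_zero]
    have h4 := VL_nonneg (fun _ : Fin k => (1 : ℤ)) b n
    have h5 : 0 ≤ (B : ℝ) - A := le_trans (by positivity) hAB
    positivity

/-- one more root -/
theorem omL_cons (b : Fin k → ℤ) (a : ℤ) (p : ℕ) (hp : p.Prime) :
    omL (fun _ => 1) b p + (if (p : ℤ) ∣ ∏ l, (a - b l) then 0 else 1) ≤
      omL (fun _ : Fin (k + 1) => (1 : ℤ)) (Fin.cons a b : Fin (k + 1) → ℤ) p := by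
  classical
  unfold omL
  have hsub : (range p).filter (fun n : ℕ => (p : ℤ) ∣ ∏ i, (1 * (n : ℤ) + b i)) ⊆
      (range p).filter (fun n : ℕ => (p : ℤ) ∣ ∏ i, (1 * (n : ℤ) + (Fin.cons a b : Fin (k + 1) → ℤ) i)) := by
    intro n hn
    rw [mem_filter] at hn ⊢
    refine ⟨hn.1, ?_⟩
    rw [Fin.prod_univ_succ]
    simp only [Fin.cons_zero, Fin.cons_succ]
    exact hn.2.mul_left _
  split_ifs with hd
  · rw [add_zero]
    exact card_le_card hsub
  · obtain ⟨ρ, hρ, H⟩ := lin_root hp (show ¬ (p : ℤ) ∣ 1 by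
      intro h
      have := Int.eq_one_of_dvd_one (by positivity) h
      have h2 := hp.one_lt
      omega) a
    have h1 : ρ ∉ (range p).filter (fun n : ℕ => (p : ℤ) ∣ ∏ i, (1 * (n : ℤ) + b i)) := by
      intro h2
      rw [mem_filter] at h2
      obtain ⟨l, _, hl⟩ := (Nat.prime_iff_prime_int.1 hp).exists_mem_finset_dvd h2.2
      have h3 := (H ρ hρ).2 rfl
      have h4 := dvd_sub h3 hl
      have h5 : 1 * (ρ : ℤ) + a - (1 * (ρ : ℤ) + b l) = a - b l := by ring
      rw [h5] at h4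
      exact hd (h4.trans (dvd_prod_of_mem (fun l => a - b l) (mem_univ l)))
    rw [← card_insert_of_notMem h1]
    apply card_le_card
    intro n hn
    rw [mem_insert] at hn
    rcases hn with rfl | hn
    · rw [mem_filter, mem_range]
      refine ⟨hρ, ?_⟩
      rw [Fin.prod_univ_succ]
      simp only [Fin.cons_zero, Fin.cons_succ]
      exact ((H n hρ).2 rfl).mul_right _
    · exact hsub hn

/-- the product for one more shift -/
theorem VL_cons : ∀ᶠ X : ℕ in atTop, ∀ (k : ℕ) (b : Fin k → ℤ) (a : ℤ), (∀ l, a ≠ b l) →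
    VL (fun _ : Fin (k + 1) => (1 : ℤ)) (Fin.cons a b : Fin (k + 1) → ℤ) X ≤
      VL (fun _ => 1) b X * (1 / Real.log X) * gg (∏ l, (a - b l)) := by
  classical
  filter_upwards [prod_inv_le, eventually_ge_atTop 3] with X hX hX3 k b a hab
  obtain ⟨D, hD⟩ : ∃ D : ℤ, D = ∏ l, (a - b l) := ⟨_, rfl⟩
  have hD0 : D ≠ 0 := by
    rw [hD]
    exact prod_ne_zero_iff.2 fun l _ => sub_ne_zero.2 (hab l)
  obtain ⟨P, hP⟩ : ∃ P : Finset ℕ, P = (Icc 1 X).filter Nat.Prime := ⟨_, rfl⟩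
  have hPp : ∀ p ∈ P, p.Prime := by
    intro p hp
    rw [hP] at hp
    exact (mem_filter.1 hp).2
  have hlog : 0 < Real.log X := Real.log_pos (by exact_mod_cast (by omega : 1 < X))
  have h1 : VL (fun _ : Fin (k + 1) => (1 : ℤ)) (Fin.cons a b : Fin (k + 1) → ℤ) X ≤
      ∏ p ∈ P, ((1 - (omL (fun _ => 1) b p : ℝ) / p) * ((1 - (p : ℝ)⁻¹) *
        (if (p : ℤ) ∣ D then (1 - (p : ℝ)⁻¹)⁻¹ else 1))) := by
    unfold VL
    rw [← hP]
    apply Finset.prod_le_prod
    · intro p hp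
      exact fac_nonneg _ _ p (hPp p hp)
    · intro p hp
      have hpp := hPp p hp
      have hp0 : (0 : ℝ) < p := by exact_mod_cast hpp.pos
      have e1 := omL_cons b a p hpp
      rw [← hD] at e1
      have e2 := fac_nonneg (fun _ : Fin k => (1 : ℤ)) b p hpp
      have e3 := fac p hpp
      obtain ⟨u, hu⟩ : ∃ u : ℝ, u = (omL (fun _ => 1) b p : ℝ) := ⟨_, rfl⟩
      have hu0 : 0 ≤ u := by rw [hu]; positivity
      rw [← hu] at e2 ⊢
      split_ifs at e1 ⊢ with hd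
      · rw [mul_inv_cancel₀ e3.1.ne', mul_one]
        have e4 : u ≤ (omL (fun _ : Fin (k + 1) => (1 : ℤ)) (Fin.cons a b : Fin (k + 1) → ℤ) p : ℝ) := by
          rw [hu]
          exact_mod_cast e1
        have e5 := div_le_div_of_nonneg_right e4 hp0.le
        linarith
      · rw [mul_one]
        have e4 : u + 1 ≤ (omL (fun _ : Fin (k + 1) => (1 : ℤ)) (Fin.cons a b : Fin (k + 1) → ℤ) p : ℝ) := by
          rw [hu]
          exact_mod_cast e1
        have e5 := div_le_div_of_nonneg_right e4 hp0.le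
        have e6 : (1 - u / p) * (1 - (p : ℝ)⁻¹) = 1 - (u + 1) / p + u / p * (p : ℝ)⁻¹ := by
          field_simp
          ring
        have e7 : 0 ≤ u / p * (p : ℝ)⁻¹ := by positivity
        rw [e6]
        linarith
  refine h1.trans ?_
  rw [prod_mul_distrib, prod_mul_distrib]
  have h2 : ∏ p ∈ P, (if (p : ℤ) ∣ D then (1 - (p : ℝ)⁻¹)⁻¹ else 1) ≤ gg D := by
    rw [← prod_filter]
    unfold gg
    have hsub : P.filter (fun p : ℕ => (p : ℤ) ∣ D) ⊆ D.natAbs.primeFactors := by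
      intro p hp
      rw [mem_filter] at hp
      rw [Nat.mem_primeFactors]
      refine ⟨hPp p hp.1, ?_, Int.natAbs_ne_zero.2 hD0⟩
      have := Int.natAbs_dvd_natAbs.2 hp.2
      rwa [Int.natAbs_natCast] at this
    rw [← prod_sdiff hsub]
    apply le_mul_of_one_le_left
    · apply prod_nonneg
      intro p hp
      have := one_le_fac p (hPp p (mem_filter.1 hp).1)
      linarith
    · apply one_le_prod
      intro p hp
      exact one_le_fac p (Nat.prime_of_mem_primeFactors (mem_sdiff.1 hp).1)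
  have h3 : 0 ≤ ∏ p ∈ P, (if (p : ℤ) ∣ D then (1 - (p : ℝ)⁻¹)⁻¹ else 1) := by
    apply prod_nonneg
    intro p hp
    split_ifs
    · have := one_le_fac p (hPp p hp)
      linarith
    · norm_num
  have h4 : ∏ p ∈ P, (1 - (omL (fun _ => 1) b p : ℝ) / p) = VL (fun _ => 1) b X := by
    unfold VL
    rw [hP]
  rw [h4, ← hD, mul_assoc]
  apply mul_le_mul_of_nonneg_left _ (VL_nonneg _ _ _)
  rw [← hP] at hX
  exact mul_le_mul hX h2 h3 (by positivity)

/-- **the pairs `(n, a)`** -/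
theorem iso_count {k : ℕ} (hk : 1 ≤ k) (b : Fin k → ℤ) (hb : Function.Injective b)
    (hadm : AdmL (fun _ : Fin k => (1 : ℤ)) b) (β : ℝ) (hβ : 0 < β) :
    ∃ K : ℝ, 0 < K ∧ ∀ ε : ℝ, 0 < ε → ∃ X₀ : ℕ, ∀ X : ℕ, X₀ ≤ X → ∀ A B : ℕ, B ≤ X →
      (X : ℝ) ^ (1 / 2 : ℝ) ≤ (B : ℝ) - A →
        ∑ a ∈ (Icc (-((⌊ε * Real.log X⌋₊ : ℕ) : ℤ)) (⌊ε * Real.log X⌋₊ : ℕ)).filter (fun a => ∀ l, a ≠ b l),
          ((RT (Fin.cons a b : Fin (k + 1) → ℤ) ((X : ℝ) ^ β) A B).card : ℝ) ≤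
            K * ε * (((B : ℝ) - A) / Real.log X ^ k) := by
  classical
  obtain ⟨KU, hKU, n₀, H1⟩ := rough_tuple (k + 1) (by omega) (1 / 2) (by norm_num) β hβ
  obtain ⟨CV, hCV, hup⟩ := VL_up' (fun _ : Fin k => (1 : ℤ)) b hadm (fun _ => one_ne_zero) (by
    intro l m hlm he
    apply hlm
    apply hb
    linarith)
  obtain ⟨Ka, hKa, H, H2⟩ := avg_gg hk b
  obtain ⟨X₁, H3⟩ := eventually_atTop.1 VL_cons
  obtain ⟨X₂, H4⟩ := eventually_atTop.1 hup
  refine ⟨KU * CV * Ka * 2, by positivity, fun ε hε => ?_⟩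
  have h5 : ∀ᶠ X : ℕ in atTop, (H : ℝ) / ε ≤ Real.log X :=
    (Real.tendsto_log_atTop.comp tendsto_natCast_atTop_atTop).eventually_ge_atTop _
  obtain ⟨X₃, H5⟩ := eventually_atTop.1 h5
  refine ⟨n₀ + X₁ + X₂ + X₃ + 3, fun X hX A B hB hAB => ?_⟩
  have hlog : 0 < Real.log X := Real.log_pos (by exact_mod_cast (by omega : 1 < X))
  have hBA : 0 ≤ (B : ℝ) - A := le_trans (by positivity) hAB
  obtain ⟨w, hw⟩ : ∃ w : ℕ, w = ⌊ε * Real.log X⌋₊ := ⟨_, rfl⟩
  rw [← hw]
  have hwl : (w : ℝ) ≤ ε * Real.log X := by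
    rw [hw]
    exact Nat.floor_le (by positivity)
  have hHl : (H : ℝ) ≤ ε * Real.log X := by
    have := H5 X (by omega)
    rw [div_le_iff₀ hε] at this
    linarith
  have hV0 := VL_nonneg (fun _ : Fin k => (1 : ℤ)) b X
  calc ∑ a ∈ (Icc (-(w : ℤ)) w).filter (fun a => ∀ l, a ≠ b l),
          ((RT (Fin.cons a b : Fin (k + 1) → ℤ) ((X : ℝ) ^ β) A B).card : ℝ)
      ≤ ∑ a ∈ (Icc (-(w : ℤ)) w).filter (fun a => ∀ l, a ≠ b l),
          KU * ((B : ℝ) - A) * (VL (fun _ => 1) b X * (1 / Real.log X) * gg (∏ l, (a - b l))) := by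
        apply sum_le_sum
        intro a ha
        refine (H1 X (by omega) _ A B hB hAB).trans ?_
        apply mul_le_mul_of_nonneg_left _ (by positivity)
        exact H3 X (by omega) k b a (mem_filter.1 ha).2
    _ = KU * ((B : ℝ) - A) * (VL (fun _ => 1) b X * (1 / Real.log X)) *
          ∑ a ∈ (Icc (-(w : ℤ)) w).filter (fun a => ∀ l, a ≠ b l), gg (∏ l, (a - b l)) := by
        rw [mul_sum]
        apply sum_congr rfl
        intro a _
        ring
    _ ≤ KU * ((B : ℝ) - A) * (CV / Real.log X ^ k * (1 / Real.log X)) * (Ka * (w + H)) := by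
        have e1 := H4 X (by omega)
        have e2 := H2 w
        have e3 : 0 ≤ ∑ a ∈ (Icc (-(w : ℤ)) w).filter (fun a => ∀ l, a ≠ b l), gg (∏ l, (a - b l)) :=
          sum_nonneg fun a _ => by have := one_le_gg (∏ l, (a - b l)); linarith
        gcongr
    _ ≤ KU * ((B : ℝ) - A) * (CV / Real.log X ^ k * (1 / Real.log X)) * (Ka * (2 * ε * Real.log X)) := by
        gcongr
        linarith
    _ = KU * CV * Ka * 2 * ε * (((B : ℝ) - A) / Real.log X ^ k) := by
        field_simp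

end Pool.Agent.T6.H2.PT
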