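import Pool.Agent.X32.Uni.Kill2
import Pool.Agent.X32.Uni.Exact
import Pool.Agent.T6.H2.PT.Shift

set_option autoImplicit false

/-!
# Isolated almost prime triples and quadruples with one prime and one `P₂`

Let `h_1, ..., h_k` be an admissible tuple of shifts, for example `0, 2, 6` or `0, 2, 6, 8`, and let `i ≠ j` be two
of its members. We count the `n` for which

* `n + h_i` is a prime and `n + h_j` is a product of at most two primes, both `> X ^ (1/9)`,
* every `n + h_l` is a product of at most `t` primes, all `> X ^ (1/t)`,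
* the constellation is isolated: every integer `m ≠ n + h_1, ..., n + h_k` with `|m - n| ≤ ε log X` has a prime
  factor `≤ X ^ β` (in particular there is no other prime `m`); here `β > 0` is arbitrary and `ε = ε(β) > 0`,
* the values `g(n)` of finitely many given polynomials `g` have a prime factor `≤ C` (each `g` must have a complex
  zero which is not the negative of a member of the tuple).

Every long interval contains the expected number of such `n`, up to a constant factor, and, for every colouring of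
the integers, almost all of them are covered by pairwise disjoint monochromatic arithmetic progressions of `s` such
`n` with differences at most a power of `log X`.
-/

namespace Pool.Agent.Results.MP_3efbeb_nt.IsolatedConstellations

open Finset Filter
open scoped Polynomial
open Pool.Agent.T6.H2.PT (RT iso_count rough_tuple)

/-- the tuple of shifts is admissible: no prime divides one of the numbers `n + h_l` for all `n` -/
def Admissible {k : ℕ} (h : Fin k → ℕ) : Prop := ∀ p : ℕ, p.Prime → ∃ n : ℕ, ∀ l, ¬ p ∣ n + h l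

/-- `v` is a product of at most `r` primes, all of them larger than `y` -/
def AlmostPrime (r : ℕ) (y : ℝ) (v : ℕ) : Prop :=
  1 < v ∧ v.primeFactorsList.length ≤ r ∧ ∀ q : ℕ, q.Prime → q ∣ v → y < q

open Classical in
/-- the `n` in `(A, B]` such that `n + h_i` is a prime, `n + h_j` is a product of at most two primes `> X ^ (1/9)`,
every `n + h_l` is a product of at most `t` primes `> X ^ (1/t)`, `g(n)` has a prime factor `≤ C` for all the
polynomials `g` in `G`, and every integer `m` with `|m - n| ≤ w` which is none of the `n + h_l` has a prime factor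
`≤ y` -/
noncomputable def Good {k : ℕ} (h : Fin k → ℕ) (i j : Fin k) (G : Finset ℤ[X]) (C t X : ℕ) (w y : ℝ) (A B : ℕ) :
    Finset ℕ :=
  (Ioc A B).filter (fun n : ℕ => (n + h i).Prime ∧ AlmostPrime 2 ((X : ℝ) ^ (1 / 9 : ℝ)) (n + h j) ∧
    (∀ l, AlmostPrime t ((X : ℝ) ^ (1 / (t : ℝ))) (n + h l)) ∧
    (∀ g ∈ G, ∃ q : ℕ, q.Prime ∧ q ≤ C ∧ (q : ℤ) ∣ g.eval (n : ℤ)) ∧
    ∀ m : ℤ, |(m : ℝ) - n| ≤ w → (∀ l, m ≠ n + h l) → ∃ q : ℕ, q.Prime ∧ (q : ℝ) ≤ y ∧ (q : ℤ) ∣ m)

open Classical in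
/-- the `n` in `(A, B]` such that none of the `n + h_l` has a prime factor `≤ y` -/
noncomputable def Rough {k : ℕ} (h : Fin k → ℕ) (y : ℝ) (A B : ℕ) : Finset ℕ :=
  (Ioc A B).filter (fun n : ℕ => ∀ l, ∀ q : ℕ, q.Prime → (q : ℝ) ≤ y → ¬ q ∣ n + h l)

open Classical in
/-- the same as `Good`, without the isolation -/
noncomputable def Good0 {k : ℕ} (h : Fin k → ℕ) (i j : Fin k) (G : Finset ℤ[X]) (C t X A B : ℕ) : Finset ℕ :=
  (Ioc A B).filter (fun n : ℕ => (n + h i).Prime ∧ AlmostPrime 2 ((X : ℝ) ^ (1 / 9 : ℝ)) (n + h j) ∧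
    (∀ l, AlmostPrime t ((X : ℝ) ^ (1 / (t : ℝ))) (n + h l)) ∧
    ∀ g ∈ G, ∃ q : ℕ, q.Prime ∧ q ≤ C ∧ (q : ℤ) ∣ g.eval (n : ℤ))

/-- the terms `a, a + b, ..., a + (s - 1) b` of the progression `z = (a, b)` -/
def terms (s : ℕ) (z : ℕ × ℕ) : Finset ℕ := (range s).image (fun i => z.1 + i * z.2)

open Pool.Agent.X32.Uni in
theorem main {k : ℕ} (h : Fin k → ℕ) (hinj : Function.Injective h) (hadm : Admissible h) (i j : Fin k)
    (hij : i ≠ j) (G : Finset ℤ[X])
    (hG : ∀ g ∈ G, g ≠ 0 ∧ ∃ α : ℂ, Polynomial.aeval α g = 0 ∧ ∀ l, α + (h l : ℂ) ≠ 0) :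
    ∃ C t : ℕ, 1 ≤ t ∧ ∃ κ : ℝ, 0 < κ ∧ ∀ (s r : ℕ) (θ δ : ℝ), 1 ≤ s → 0 < θ → 0 < δ →
      ∃ c X₀ : ℕ, ∀ X : ℕ, X₀ ≤ X → ∀ A B : ℕ, B ≤ X → θ * X ≤ (B : ℝ) - A →
        κ * ((B : ℝ) - A) / Real.log X ^ k ≤ ((Good0 h i j G C t X A B).card : ℝ) ∧
        ∀ χ : ℕ → Fin r, ∃ P : Finset (ℕ × ℕ),
          (∀ z ∈ P, 1 ≤ z.2 ∧ (z.2 : ℝ) ≤ Real.log X ^ c ∧
            ∀ l < s, z.1 + l * z.2 ∈ Good0 h i j G C t X A B ∧ χ (z.1 + l * z.2) = χ z.1) ∧
          (P : Set (ℕ × ℕ)).PairwiseDisjoint (terms s) ∧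
          (((Good0 h i j G C t X A B \ P.biUnion (terms s)).card : ℕ) : ℝ) ≤
            δ * ((B : ℝ) - A) / Real.log X ^ k := by
  classical
  set f : Fin k → ℤ[X] := lf (fun _ => 1) (fun l => (h l : ℤ)) with hf
  have hev : ∀ l (x : ℤ), (f l).eval x = x + h l := by
    intro l x
    rw [hf]
    simp [lf]
  have hdeg : ∀ l, (f l).natDegree = 1 := fun l => lf_deg _ _ l one_ne_zero
  have hAdmL : AdmL (fun _ : Fin k => (1 : ℤ)) (fun l => (h l : ℤ)) := by
    intro p hp
    obtain ⟨n, hn⟩ := hadm p hp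
    refine ⟨n, fun l hd => hn l ?_⟩
    have hd' : (p : ℤ) ∣ 1 * (n : ℤ) + (h l : ℤ) := hd
    rw [one_mul] at hd'
    exact_mod_cast hd'
  have hloc : Loc f := loc_lf hAdmL
  have hne : f j ≠ f i := by
    intro he
    have h1 := hev j 0
    rw [he, hev i 0] at h1
    have h2 : h i = h j := by exact_mod_cast (by linarith : (h i : ℤ) = h j)
    exact hij (hinj h2)
  have hne' : f j ≠ - f i := by
    intro he
    have h1 := hev j 1
    rw [he, Polynomial.eval_neg, hev i 1] at h1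
    have h2 : (0 : ℤ) ≤ h i := Int.natCast_nonneg _
    have h3 : (0 : ℤ) ≤ h j := Int.natCast_nonneg _
    omega
  have hae : ∀ l (α : ℂ), Polynomial.aeval α (f l) = α + h l := by
    intro l α
    rw [hf]
    simp [lf]
  obtain ⟨CV, hCV, hup⟩ := VL_up' (fun _ : Fin k => (1 : ℤ)) (fun l => (h l : ℤ)) hAdmL
    (fun _ => one_ne_zero) (by
      intro l m hlm he
      apply hlm
      apply hinj
      exact_mod_cast (by linarith : (h l : ℤ) = h m))
  obtain ⟨X₃, h3⟩ := eventually_atTop.1 hup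
  obtain ⟨C, t, ht, κ, hκ, H⟩ := killP f (fun l => (hdeg l).ge) hloc i j (hdeg i) (hdeg j) hne hne' G (by
    intro g hg
    obtain ⟨h1, α, h2, h4⟩ := hG g hg
    refine ⟨h1, α, h2, fun l => ?_⟩
    rw [hae]
    exact h4 l)
  have hsum : ∑ l, (f l).natDegree = k := by
    simp only [hdeg]
    simp
  have hGood : ∀ X A B : ℕ, GK f G i j C t X A B = Good0 h i j G C t X A B := by
    intro X A B
    unfold GK Good0
    apply filter_congr
    intro n _
    have e1 : ∀ l, (f l).eval (n : ℤ) = ((n + h l : ℕ) : ℤ) := by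
      intro l
      rw [hev]
      push_cast
      ring
    have e2 : ∀ (a : ℕ) (y : ℝ) (v : ℕ), Almost a y (v : ℤ) ↔ AlmostPrime a y v := by
      intro a y v
      unfold Almost AlmostPrime
      rw [Nat.abs_cast, Int.natAbs_natCast]
      constructor
      · rintro ⟨h1, h2, h3⟩
        exact ⟨by exact_mod_cast h1, h2, fun q hq hd => h3 q hq (Int.natCast_dvd_natCast.2 hd)⟩
      · rintro ⟨h1, h2, h3⟩
        exact ⟨by exact_mod_cast h1, h2, fun q hq hd => h3 q hq (Int.natCast_dvd_natCast.1 hd)⟩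
    simp only [e1, e2, hdeg, Int.natAbs_natCast, mul_one]
  have hterm : ∀ s : ℕ, (apSet s) = terms s := fun s => by
    funext z
    rfl
  refine ⟨C, t, ht, κ * κ, by positivity, fun s r θ δ hs hθ hδ => ?_⟩
  obtain ⟨c, X₀, H'⟩ := H s r θ (δ / CV) hs hθ (by positivity)
  refine ⟨c, max (max X₀ X₃) 3, fun X hX A B hB hAB => ?_⟩
  obtain ⟨g1, g2⟩ := H' X ((le_max_left _ _).trans ((le_max_left _ _).trans hX))
  obtain ⟨g3, g4⟩ := g2 A B hB hAB
  have g5 := h3 X ((le_max_right _ _).trans ((le_max_left _ _).trans hX))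
  have hX3 : 3 ≤ X := (le_max_right _ _).trans hX
  have hX0 : (0 : ℝ) < X := by exact_mod_cast (by omega : 0 < X)
  have hlog : 0 < Real.log X := Real.log_pos (by exact_mod_cast (by omega : 1 < X))
  have hlogk : 0 < Real.log X ^ k := pow_pos hlog k
  have hBA0 : 0 ≤ (B : ℝ) - A := le_trans (by positivity) hAB
  rw [hsum] at g1
  have hV : V f X = VL (fun _ : Fin k => (1 : ℤ)) (fun l => (h l : ℤ)) X := V_lf _ _ X
  rw [hGood] at g3
  constructor
  · refine le_trans ?_ g3
    calc κ * κ * ((B : ℝ) - A) / Real.log X ^ k = κ * ((B : ℝ) - A) * (κ / Real.log X ^ k) := by ring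
      _ ≤ κ * ((B : ℝ) - A) * V f X := mul_le_mul_of_nonneg_left g1 (by positivity)
  · intro χ
    obtain ⟨P, p1, p2, p3⟩ := g4 χ
    rw [hGood] at p3
    rw [hterm] at p2 p3
    refine ⟨P, fun z hz => ?_, p2, p3.trans ?_⟩
    · obtain ⟨q1, q2, q3⟩ := p1 z hz
      refine ⟨q1, q2, fun l hl => ?_⟩
      rw [← hGood]
      exact q3 l hl
    · rw [hV]
      calc δ / CV * ((B : ℝ) - A) * VL (fun _ : Fin k => (1 : ℤ)) (fun l => (h l : ℤ)) X
          ≤ δ / CV * ((B : ℝ) - A) * (CV / Real.log X ^ k) := mul_le_mul_of_nonneg_left g5 (by positivity)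
        _ = δ * ((B : ℝ) - A) / Real.log X ^ k := by
          field_simp

open Pool.Agent.X32.Uni in
/-- the isolation -/
theorem mainI {k : ℕ} (h : Fin k → ℕ) (hinj : Function.Injective h) (hadm : Admissible h) (i j : Fin k)
    (hij : i ≠ j) (G : Finset ℤ[X])
    (hG : ∀ g ∈ G, g ≠ 0 ∧ ∃ α : ℂ, Polynomial.aeval α g = 0 ∧ ∀ l, α + (h l : ℂ) ≠ 0) :
    ∃ C t : ℕ, 1 ≤ t ∧ ∃ κ : ℝ, 0 < κ ∧ ∀ β : ℝ, 0 < β → ∃ ε K : ℝ, 0 < ε ∧ 0 < K ∧
      ∀ (s r : ℕ) (θ δ : ℝ), 1 ≤ s → 0 < θ → 0 < δ →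
      ∃ c X₀ : ℕ, ∀ X : ℕ, X₀ ≤ X → ∀ A B : ℕ, B ≤ X → θ * X ≤ (B : ℝ) - A →
        κ * ((B : ℝ) - A) / Real.log X ^ k ≤
          ((Good h i j G C t X (ε * Real.log X) ((X : ℝ) ^ β) A B).card : ℝ) ∧
        ((Rough h ((X : ℝ) ^ β) A B).card : ℝ) ≤ K * ((B : ℝ) - A) / Real.log X ^ k ∧
        ∀ χ : ℕ → Fin r, ∃ P : Finset (ℕ × ℕ),
          (∀ z ∈ P, 1 ≤ z.2 ∧ (z.2 : ℝ) ≤ Real.log X ^ c ∧
            ∀ l < s, z.1 + l * z.2 ∈ Good h i j G C t X (ε * Real.log X) ((X : ℝ) ^ β) A B ∧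
              χ (z.1 + l * z.2) = χ z.1) ∧
          (P : Set (ℕ × ℕ)).PairwiseDisjoint (terms s) ∧
          (((Good h i j G C t X (ε * Real.log X) ((X : ℝ) ^ β) A B \ P.biUnion (terms s)).card : ℕ) : ℝ) ≤
            δ * ((B : ℝ) - A) / Real.log X ^ k := by
  classical
  have hk : 1 ≤ k := by
    have := i.isLt
    omega
  obtain ⟨C, t, ht, κ, hκ, HM⟩ := main h hinj hadm i j hij G hG
  refine ⟨C, t, ht, κ / 2, by positivity, fun β hβ => ?_⟩
  -- the shifts
  obtain ⟨b, hb⟩ : ∃ b : Fin k → ℤ, b = fun l => (h l : ℤ) := ⟨_, rfl⟩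
  have hbinj : Function.Injective b := by
    intro l m hlm
    apply hinj
    rw [hb] at hlm
    simpa using hlm
  have hbadm : AdmL (fun _ : Fin k => (1 : ℤ)) b := by
    intro p hp
    obtain ⟨n, hn⟩ := hadm p hp
    refine ⟨n, fun l hd => hn l ?_⟩
    rw [hb, one_mul] at hd
    have hd' : (p : ℤ) ∣ (n : ℤ) + (h l : ℤ) := hd
    exact_mod_cast hd'
  have ht0 : (0 : ℝ) < t := by exact_mod_cast ht
  obtain ⟨β', hβ'⟩ : ∃ β' : ℝ, β' = min β (1 / (t : ℝ)) := ⟨_, rfl⟩
  have hβ'0 : 0 < β' := by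
    rw [hβ']
    exact lt_min hβ (by positivity)
  obtain ⟨KI, hKI, HI⟩ := iso_count hk b hbinj hbadm β' hβ'0
  obtain ⟨ε, hε⟩ : ∃ ε : ℝ, ε = κ / (2 * KI) := ⟨_, rfl⟩
  have hε0 : 0 < ε := by rw [hε]; positivity
  have hεK : KI * ε = κ / 2 := by rw [hε]; field_simp
  obtain ⟨X₁, HI⟩ := HI ε hε0
  obtain ⟨KU, hKU, X₂, HU⟩ := rough_tuple k hk (1 / 2) (by norm_num) β hβ
  obtain ⟨CV, hCV, hup⟩ := VL_up' (fun _ : Fin k => (1 : ℤ)) b hbadm (fun _ => one_ne_zero) (by
    intro l m hlm he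
    apply hlm
    apply hbinj
    linarith)
  obtain ⟨X₃, HV⟩ := eventually_atTop.1 hup
  refine ⟨ε, KU * CV, hε0, by positivity, fun s r θ δ hs hθ hδ => ?_⟩
  obtain ⟨c, X₀, HM⟩ := HM s (r * 2) θ δ hs hθ hδ
  -- the length of the interval
  have h4 : ∀ᶠ X : ℕ in atTop, 1 / θ ≤ (X : ℝ) ^ (1 / 2 : ℝ) :=
    ((tendsto_rpow_atTop (by norm_num : (0 : ℝ) < 1 / 2)).comp tendsto_natCast_atTop_atTop).eventually_ge_atTop _
  obtain ⟨X₄, h4⟩ := eventually_atTop.1 h4
  refine ⟨c, X₀ + X₁ + X₂ + X₃ + X₄ + 3, fun X hX A B hB hAB => ?_⟩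
  have hX1 : (1 : ℝ) ≤ X := by exact_mod_cast (by omega : 1 ≤ X)
  have hX0 : (0 : ℝ) < X := by linarith
  have hlog : 0 < Real.log X := Real.log_pos (by exact_mod_cast (by omega : 1 < X))
  have hlogk : 0 < Real.log X ^ k := pow_pos hlog k
  have hBA0 : 0 ≤ (B : ℝ) - A := le_trans (by positivity) hAB
  have hhalf : (X : ℝ) ^ (1 / 2 : ℝ) ≤ (B : ℝ) - A := by
    refine le_trans ?_ hAB
    have e1 := h4 X (by omega)
    have e2 : (X : ℝ) ^ (1 / 2 : ℝ) * (X : ℝ) ^ (1 / 2 : ℝ) = X := by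
      rw [← Real.rpow_add hX0]
      norm_num
    have e3 : 0 ≤ (X : ℝ) ^ (1 / 2 : ℝ) := by positivity
    rw [div_le_iff₀ hθ] at e1
    calc (X : ℝ) ^ (1 / 2 : ℝ) = (X : ℝ) ^ (1 / 2 : ℝ) * 1 := (mul_one _).symm
      _ ≤ (X : ℝ) ^ (1 / 2 : ℝ) * ((X : ℝ) ^ (1 / 2 : ℝ) * θ) := by gcongr
      _ = θ * X := by rw [← mul_assoc, e2]; ring
  obtain ⟨hlow, hcov⟩ := HM X (by omega) A B hB hAB
  obtain ⟨y, hy⟩ : ∃ y : ℝ, y = (X : ℝ) ^ β := ⟨_, rfl⟩
  obtain ⟨w, hw⟩ : ∃ w : ℝ, w = ε * Real.log X := ⟨_, rfl⟩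
  have hw0 : 0 ≤ w := by rw [hw]; positivity
  rw [← hy, ← hw]
  have hGsub : Good h i j G C t X w y A B ⊆ Good0 h i j G C t X A B := by
    intro n hn
    unfold Good at hn
    unfold Good0
    rw [mem_filter] at hn ⊢
    exact ⟨hn.1, hn.2.1, hn.2.2.1, hn.2.2.2.1, hn.2.2.2.2.1⟩
  -- the elements which are not isolated
  have hbad : (((Good0 h i j G C t X A B \ Good h i j G C t X w y A B).card : ℕ) : ℝ) ≤
      κ / 2 * ((B : ℝ) - A) / Real.log X ^ k := by
    have e1 := HI X (by omega) A B hB hhalf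
    rw [hεK, ← hw] at e1
    obtain ⟨N, hN⟩ : ∃ N : ℕ, N = ⌊w⌋₊ := ⟨_, rfl⟩
    rw [← hN] at e1
    have e2 : Good0 h i j G C t X A B \ Good h i j G C t X w y A B ⊆
        ((Icc (-(N : ℤ)) N).filter (fun a => ∀ l, a ≠ b l)).biUnion
          (fun a => RT (Fin.cons a b : Fin (k + 1) → ℤ) ((X : ℝ) ^ β') A B) := by
      intro n hn
      rw [Finset.mem_sdiff] at hn
      obtain ⟨hn1, hn2⟩ := hn
      unfold Good0 at hn1
      rw [mem_filter] at hn1
      unfold Good at hn2
      rw [mem_filter] at hn2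
      have hn3 : ¬ ∀ m : ℤ, |(m : ℝ) - n| ≤ w → (∀ l, m ≠ n + h l) → ∃ q : ℕ, q.Prime ∧ (q : ℝ) ≤ y ∧ (q : ℤ) ∣ m :=
        fun hcon => hn2 ⟨hn1.1, hn1.2.1, hn1.2.2.1, hn1.2.2.2.1, hn1.2.2.2.2, hcon⟩
      push Not at hn3
      obtain ⟨m, hm1, hm2, hm3⟩ := hn3
      rw [mem_biUnion]
      refine ⟨m - n, ?_, ?_⟩
      · rw [mem_filter, mem_Icc]
        have e3 : ((m - n).natAbs : ℝ) ≤ w := by
          have : (((m - n).natAbs : ℕ) : ℝ) = |(m : ℝ) - n| := by
            rw [Nat.cast_natAbs]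
            push_cast
            rfl
          rw [this]
          exact hm1
        have e4 : (m - n).natAbs ≤ N := by
          rw [hN]
          exact Nat.le_floor e3
        refine ⟨⟨by omega, by omega⟩, fun l he => hm2 l ?_⟩
        rw [hb] at he
        simp only at he
        linarith
      · unfold RT
        rw [mem_filter]
        refine ⟨hn1.1, fun l => ?_⟩
        refine Fin.cases ?_ (fun l => ?_) l
        · intro p hp hpy hd
          rw [Fin.cons_zero] at hd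
          have e3 : (n : ℤ) + (m - n) = m := by ring
          rw [e3] at hd
          refine hm3 p hp ?_ hd
          rw [hy]
          refine hpy.trans (Real.rpow_le_rpow_of_exponent_le hX1 ?_)
          rw [hβ']
          exact min_le_left _ _
        · intro p hp hpy hd
          rw [Fin.cons_succ, hb] at hd
          have hd' : (p : ℤ) ∣ (n : ℤ) + (h l : ℤ) := hd
          have e3 := (hn1.2.2.2.1 l).2.2 p hp (by exact_mod_cast hd')
          have e4 : (X : ℝ) ^ β' ≤ (X : ℝ) ^ (1 / (t : ℝ)) := by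
            apply Real.rpow_le_rpow_of_exponent_le hX1
            rw [hβ']
            exact min_le_right _ _
          linarith
    have e3 : (((Good0 h i j G C t X A B \ Good h i j G C t X w y A B).card : ℕ) : ℝ) ≤
        ∑ a ∈ (Icc (-(N : ℤ)) N).filter (fun a => ∀ l, a ≠ b l),
          ((RT (Fin.cons a b : Fin (k + 1) → ℤ) ((X : ℝ) ^ β') A B).card : ℝ) := by
      exact_mod_cast (card_le_card e2).trans card_biUnion_le
    refine e3.trans (e1.trans (le_of_eq ?_))
    ring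
  refine ⟨?_, ?_, ?_⟩
  · have e1 : (((Good0 h i j G C t X A B).card : ℕ) : ℝ) =
        (Good0 h i j G C t X A B \ Good h i j G C t X w y A B).card + (Good h i j G C t X w y A B).card := by
      exact_mod_cast (card_sdiff_add_card_eq_card hGsub).symm
    have e2 : κ * ((B : ℝ) - A) / Real.log X ^ k =
        κ / 2 * ((B : ℝ) - A) / Real.log X ^ k + κ / 2 * ((B : ℝ) - A) / Real.log X ^ k := by ring
    linarith
  · have e1 := HU X (by omega) b A B hB hhalf
    rw [← hy] at e1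
    have e2 : Rough h y A B = RT b y A B := by
      unfold Rough RT
      apply filter_congr
      intro n _
      rw [hb]
      constructor
      · intro hh l p hp hpy hd
        have hd' : (p : ℤ) ∣ (n : ℤ) + (h l : ℤ) := hd
        exact hh l p hp hpy (by exact_mod_cast hd')
      · intro hh l p hp hpy hd
        have hd' : (p : ℤ) ∣ (n : ℤ) + (h l : ℤ) := by exact_mod_cast hd
        exact hh l p hp hpy hd'
    rw [e2]
    refine e1.trans ?_
    have e3 := HV X (by omega)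
    calc KU * ((B : ℝ) - A) * VL (fun _ => 1) b X ≤ KU * ((B : ℝ) - A) * (CV / Real.log X ^ k) := by gcongr
      _ = KU * CV * ((B : ℝ) - A) / Real.log X ^ k := by ring
  · intro χ
    obtain ⟨P, p1, p2, p3⟩ := hcov (fun n => finProdFinEquiv
      (χ n, if n ∈ Good h i j G C t X w y A B then (1 : Fin 2) else 0))
    have hcol : ∀ n m : ℕ, finProdFinEquiv (χ n, if n ∈ Good h i j G C t X w y A B then (1 : Fin 2) else 0) =
        finProdFinEquiv (χ m, if m ∈ Good h i j G C t X w y A B then (1 : Fin 2) else 0) →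
        χ n = χ m ∧ (n ∈ Good h i j G C t X w y A B ↔ m ∈ Good h i j G C t X w y A B) := by
      intro n m he
      have he' := finProdFinEquiv.injective he
      rw [Prod.mk.injEq] at he'
      refine ⟨he'.1, ?_⟩
      have he2 := he'.2
      split_ifs at he2 with h1 h2 h2
      · exact ⟨fun _ => h2, fun _ => h1⟩
      · exact absurd he2 (by decide)
      · exact absurd he2 (by decide)
      · exact ⟨fun hc => absurd hc h1, fun hc => absurd hc h2⟩
    refine ⟨P.filter (fun z => z.1 ∈ Good h i j G C t X w y A B), ?_, ?_, ?_⟩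
    · intro z hz
      rw [mem_filter] at hz
      obtain ⟨q1, q2, q3⟩ := p1 z hz.1
      refine ⟨q1, q2, fun l hl => ?_⟩
      obtain ⟨q4, q5⟩ := q3 l hl
      obtain ⟨q6, q7⟩ := hcol _ _ q5
      exact ⟨q7.2 hz.2, q6⟩
    · exact p2.subset (by
        rw [coe_filter]
        exact fun z hz => hz.1)
    · refine le_trans ?_ p3
      have hsub : Good h i j G C t X w y A B \ (P.filter (fun z => z.1 ∈ Good h i j G C t X w y A B)).biUnion (terms s) ⊆
          Good0 h i j G C t X A B \ P.biUnion (terms s) := by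
        intro n hn
        rw [Finset.mem_sdiff] at hn ⊢
        refine ⟨hGsub hn.1, fun hcon => hn.2 ?_⟩
        rw [mem_biUnion] at hcon ⊢
        obtain ⟨z, hz, hnz⟩ := hcon
        refine ⟨z, ?_, hnz⟩
        rw [mem_filter]
        refine ⟨hz, ?_⟩
        unfold terms at hnz
        rw [mem_image] at hnz
        obtain ⟨l, hl, rfl⟩ := hnz
        obtain ⟨_, q5⟩ := (p1 z hz).2.2 l (mem_range.1 hl)
        exact (hcol _ _ q5).2.1 hn.1
      exact_mod_cast card_le_card hsub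

theorem adm_small {k : ℕ} (h : Fin k → ℕ) (hk : k < 5) (h2 : ∀ l, 2 ∣ h l) (h3 : ∀ l, ¬ 3 ∣ 2 + h l) : Admissible h := by
  classical
  intro p hp
  rcases Nat.lt_or_ge p 5 with hlt | hge
  · have h4 : p = 2 ∨ p = 3 := by
      have := hp.two_le
      interval_cases p
      · exact Or.inl rfl
      · exact Or.inr rfl
      · exact absurd hp (by decide)
    rcases h4 with rfl | rfl
    · exact ⟨1, fun l hd => by have := h2 l; omega⟩
    · exact ⟨2, h3⟩
  · by_contra hcon
    push Not at hcon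
    choose g hg using hcon
    have hinj : Set.InjOn g (Finset.range p : Set ℕ) := by
      intro a ha b hb hab
      rw [Finset.mem_coe, Finset.mem_range] at ha hb
      have h5 := hg a
      have h6 := hg b
      rw [hab] at h5
      have h7 : a ≡ b [MOD p] := by
        have h8 : a + h (g b) ≡ b + h (g b) [MOD p] :=
          ((Nat.modEq_zero_iff_dvd.2 h5).trans (Nat.modEq_zero_iff_dvd.2 h6).symm)
        exact Nat.ModEq.add_right_cancel' _ h8
      exact Nat.ModEq.eq_of_lt_of_lt h7 ha hb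
    have h5 := Finset.card_le_card_of_injOn g (fun a _ => Finset.mem_univ (g a)) hinj
    rw [Finset.card_range, Finset.card_univ, Fintype.card_fin] at h5
    omega

/-- **Isolated triples `n, n + 2, n + 6` and quadruples `n, n + 2, n + 6, n + 8` (and all admissible tuples) with one
prime, one `P₂` and almost primes.** The tuples `(0, 2, 6)` and `(0, 2, 6, 8)` are admissible. Let `h` be an
admissible tuple of `k` different shifts, `i ≠ j`, and let `G` be a finite set of nonzero polynomials with integer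
coefficients each of which has a complex zero different from all the `- h_l`. There are `C`, `t` and `κ > 0` such
that for every `β > 0` there are `ε > 0` and `K` such that for all `s`, `r` and `θ, δ > 0` there is `c` such that for
all large `X` and all intervals `(A, B]` with `B ≤ X`, `B - A ≥ θ X`: the set `Good` with `w = ε log X` and
`y = X ^ β` has at least `κ (B - A) / log ^ k X` elements (while there are at most `K (B - A) / log ^ k X` integers
`n` of the interval for which no `n + h_l` has a prime factor `≤ X ^ β`), and for every colouring of the integers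
with `r` colours all the elements of `Good` except at most `δ (B - A) / log ^ k X` are covered by pairwise disjoint
monochromatic arithmetic progressions of length `s` which are contained in `Good` and have positive differences at
most `log ^ c X`. -/
theorem result :
    (Admissible ![0, 2, 6] ∧ Admissible ![0, 2, 6, 8]) ∧
    ∀ (k : ℕ) (h : Fin k → ℕ), Function.Injective h → Admissible h → ∀ i j : Fin k, i ≠ j →
    ∀ G : Finset ℤ[X], (∀ g ∈ G, g ≠ 0 ∧ ∃ α : ℂ, Polynomial.aeval α g = 0 ∧ ∀ l, α + (h l : ℂ) ≠ 0) →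
    ∃ C t : ℕ, 1 ≤ t ∧ ∃ κ : ℝ, 0 < κ ∧ ∀ β : ℝ, 0 < β → ∃ ε K : ℝ, 0 < ε ∧ 0 < K ∧
      ∀ (s r : ℕ) (θ δ : ℝ), 1 ≤ s → 0 < θ → 0 < δ →
      ∃ c X₀ : ℕ, ∀ X : ℕ, X₀ ≤ X → ∀ A B : ℕ, B ≤ X → θ * X ≤ (B : ℝ) - A →
        κ * ((B : ℝ) - A) / Real.log X ^ k ≤
          ((Good h i j G C t X (ε * Real.log X) ((X : ℝ) ^ β) A B).card : ℝ) ∧
        ((Rough h ((X : ℝ) ^ β) A B).card : ℝ) ≤ K * ((B : ℝ) - A) / Real.log X ^ k ∧
        ∀ χ : ℕ → Fin r, ∃ P : Finset (ℕ × ℕ),
          (∀ z ∈ P, 1 ≤ z.2 ∧ (z.2 : ℝ) ≤ Real.log X ^ c ∧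
            ∀ l < s, z.1 + l * z.2 ∈ Good h i j G C t X (ε * Real.log X) ((X : ℝ) ^ β) A B ∧
              χ (z.1 + l * z.2) = χ z.1) ∧
          (P : Set (ℕ × ℕ)).PairwiseDisjoint (terms s) ∧
          (((Good h i j G C t X (ε * Real.log X) ((X : ℝ) ^ β) A B \ P.biUnion (terms s)).card : ℕ) : ℝ) ≤
            δ * ((B : ℝ) - A) / Real.log X ^ k := by
  refine ⟨⟨adm_small _ (by norm_num) (by decide) (by decide), adm_small _ (by norm_num) (by decide) (by decide)⟩, ?_⟩
  intro k h hinj hadm i j hij G hG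
  exact mainI h hinj hadm i j hij G hG

end Pool.Agent.Results.MP_3efbeb_nt.IsolatedConstellations
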