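import Pool.Agent.T6.H2.PT.IsoP

/-!
# Isolation in general: few arguments have a rough integer near a value of a given family of forms (helper2)
-/

set_option autoImplicit false

namespace Pool.Agent.T6.H2.PT

open Finset Filter
open Pool.Agent.X32.Uni

variable {k : ℕ}

open Classical in
/-- the `n` in `(A, B]` such that no `a_l n + b_l` has a prime factor `≤ y`, but some integer `z` at distance at most
`w` of some `u n + v`, `(u, v)` in `F`, has no prime factor `≤ y` either and is not `± (a_l n + b_l)` -/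
noncomputable def BadF (a b : Fin k → ℤ) (F : Finset (ℤ × ℤ)) (w y : ℝ) (A B : ℕ) : Finset ℕ :=
  (RL a b y A B).filter (fun n => ∃ f ∈ F, ∃ z : ℤ, |(z : ℝ) - ((f.1 * (n : ℤ) + f.2 : ℤ) : ℝ)| ≤ w ∧
    (∀ l, z ≠ a l * (n : ℤ) + b l ∧ z ≠ -(a l * (n : ℤ) + b l)) ∧
    ∀ q : ℕ, q.Prime → (q : ℝ) ≤ y → ¬ (q : ℤ) ∣ z)

/-- **few arguments are not isolated** -/
theorem isoG (k E : ℕ) (hk : 1 ≤ k) (β : ℝ) (hβ : 0 < β) :
    ∃ K₁ : ℝ, 0 < K₁ ∧ ∀ ε : ℝ, 0 < ε → ∀ K' : ℕ, ∃ X₀ : ℕ, ∀ X : ℕ, X₀ ≤ X →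
      ∀ (a b : Fin k → ℤ), (∀ l, a l ≠ 0) → (∀ l, |a l| ≤ E) → (∀ l, |b l| ≤ K' * (X : ℤ)) →
      ∀ F : Finset (ℤ × ℤ), (∀ f ∈ F, f.1 ≠ 0 ∧ |f.1| ≤ E ∧ |f.2| ≤ K' * (X : ℤ)) →
      ∀ A B : ℕ, B ≤ X → (X : ℝ) ^ (1 / 2 : ℝ) ≤ (B : ℝ) - A →
        ((BadF a b F (ε * Real.log X) ((X : ℝ) ^ β) A B).card : ℝ) ≤ F.card * (K₁ * ε * ((B : ℝ) - A) * VL a b X) := by
  classical
  obtain ⟨K₁, hK₁, HI⟩ := iso_lin k E hk β hβ
  refine ⟨K₁, hK₁, fun ε hε K' => ?_⟩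
  obtain ⟨X₁, HI⟩ := HI ε hε K'
  have h5 : ∀ᶠ X : ℕ in atTop, (E : ℝ) ≤ (X : ℝ) ^ β :=
    ((tendsto_rpow_atTop hβ).comp tendsto_natCast_atTop_atTop).eventually_ge_atTop _
  obtain ⟨X₂, h5⟩ := eventually_atTop.1 h5
  refine ⟨X₁ + X₂ + 3, fun X hX a b ha haE hbK F hF A B hB hAB => ?_⟩
  obtain ⟨y, hy⟩ : ∃ y : ℝ, y = (X : ℝ) ^ β := ⟨_, rfl⟩
  obtain ⟨w, hw⟩ : ∃ w : ℝ, w = ε * Real.log X := ⟨_, rfl⟩
  obtain ⟨N, hN⟩ : ∃ N : ℕ, N = ⌊w⌋₊ := ⟨_, rfl⟩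
  rw [← hy, ← hw]
  have e2 : BadF a b F w y A B ⊆ F.biUnion (fun f =>
        ((Icc (-(N : ℤ)) N).filter (fun c => ∀ l, a l * (f.2 + c) - f.1 * b l ≠ 0)).biUnion
        (fun c => RL (Fin.cons f.1 a : Fin (k + 1) → ℤ) (Fin.cons (f.2 + c) b : Fin (k + 1) → ℤ) y A B)) := by
    intro n hn
    unfold BadF at hn
    rw [mem_filter] at hn
    obtain ⟨hn1, f, hf, z, hz1, hz2, hz3⟩ := hn
    unfold RL at hn1
    rw [mem_filter] at hn1
    rw [mem_biUnion]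
    refine ⟨f, hf, ?_⟩
    rw [mem_biUnion]
    refine ⟨z - (f.1 * (n : ℤ) + f.2), ?_, ?_⟩
    · rw [mem_filter, mem_Icc]
      have e3 : ((z - (f.1 * (n : ℤ) + f.2)).natAbs : ℝ) ≤ w := by
        have : (((z - (f.1 * (n : ℤ) + f.2)).natAbs : ℕ) : ℝ) = |(z : ℝ) - ((f.1 * (n : ℤ) + f.2 : ℤ) : ℝ)| := by
          rw [Nat.cast_natAbs]
          push_cast
          rfl
        rw [this]
        exact hz1
      have e4 : (z - (f.1 * (n : ℤ) + f.2)).natAbs ≤ N := by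
        rw [hN]
        exact Nat.le_floor e3
      refine ⟨⟨by omega, by omega⟩, fun u he => ?_⟩
      have e5 : a u * z = f.1 * (a u * (n : ℤ) + b u) := by
        have : f.2 + (z - (f.1 * (n : ℤ) + f.2)) = z - f.1 * n := by ring
        rw [this] at he
        linarith
      have h6 := h5 X (by omega)
      rw [← hy] at h6
      rcases prop_eq h6 (ha u) (hF f hf).1 (haE u) (hF f hf).2.1 e5 hz3 (hn1.2 u) with h | h
      · exact (hz2 u).1 h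
      · exact (hz2 u).2 h
    · unfold RL
      rw [mem_filter]
      refine ⟨hn1.1, fun u => ?_⟩
      refine Fin.cases ?_ (fun u => ?_) u
      · intro p hp hpy hd
        rw [Fin.cons_zero, Fin.cons_zero] at hd
        have e3 : f.1 * (n : ℤ) + (f.2 + (z - (f.1 * (n : ℤ) + f.2))) = z := by ring
        rw [e3] at hd
        exact hz3 p hp hpy hd
      · intro p hp hpy hd
        rw [Fin.cons_succ, Fin.cons_succ] at hd
        exact hn1.2 u p hp hpy hd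
  have e3 : (((BadF a b F w y A B).card : ℕ) : ℝ) ≤
      ∑ f ∈ F, ∑ c ∈ (Icc (-(N : ℤ)) N).filter (fun c => ∀ l, a l * (f.2 + c) - f.1 * b l ≠ 0),
        ((RL (Fin.cons f.1 a : Fin (k + 1) → ℤ) (Fin.cons (f.2 + c) b : Fin (k + 1) → ℤ) y A B).card : ℝ) := by
    have e4 := (card_le_card e2).trans card_biUnion_le
    have e5 : ∑ f ∈ F, (((Icc (-(N : ℤ)) N).filter (fun c => ∀ l, a l * (f.2 + c) - f.1 * b l ≠ 0)).biUnion
        (fun c => RL (Fin.cons f.1 a : Fin (k + 1) → ℤ) (Fin.cons (f.2 + c) b : Fin (k + 1) → ℤ) y A B)).card ≤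
        ∑ f ∈ F, ∑ c ∈ (Icc (-(N : ℤ)) N).filter (fun c => ∀ l, a l * (f.2 + c) - f.1 * b l ≠ 0),
        (RL (Fin.cons f.1 a : Fin (k + 1) → ℤ) (Fin.cons (f.2 + c) b : Fin (k + 1) → ℤ) y A B).card :=
      sum_le_sum fun f _ => card_biUnion_le
    exact_mod_cast e4.trans e5
  refine e3.trans ?_
  calc ∑ f ∈ F, ∑ c ∈ (Icc (-(N : ℤ)) N).filter (fun c => ∀ l, a l * (f.2 + c) - f.1 * b l ≠ 0),
        ((RL (Fin.cons f.1 a : Fin (k + 1) → ℤ) (Fin.cons (f.2 + c) b : Fin (k + 1) → ℤ) y A B).card : ℝ)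
      ≤ ∑ _f ∈ F, K₁ * ε * ((B : ℝ) - A) * VL a b X := by
        apply sum_le_sum
        intro f hf
        obtain ⟨f1, f2, f3⟩ := hF f hf
        have e6 := HI X (by omega) a b f.1 f.2 ha haE hbK f1 f2 f3 A B hB hAB
        rw [← hw, ← hN, ← hy] at e6
        exact e6
    _ = F.card * (K₁ * ε * ((B : ℝ) - A) * VL a b X) := by
        rw [sum_const, nsmul_eq_mul]

end Pool.Agent.T6.H2.PT
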