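import Pool.Agent.T6.H2.PT.Shift
import Pool.Agent.T6.H2.PT.Avg3

/-!
# Isolation for systems of linear forms, uniformly (helper2)

For systems of `k` linear forms `a_l x + b_l` with bounded slopes and `|b_l| ≤ K X` we bound the number of the pairs
`(n, c)`, `|c| ≤ ε log X`, such that none of the values at `n` and of the number `a n + b + c` has a prime factor
`≤ X ^ β`: it is at most `K₁ ε` times the expected number of the `n` for which the values have no small prime factors.
-/

set_option autoImplicit false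

namespace Pool.Agent.T6.H2.PT

open Finset Filter
open scoped Polynomial
open Pool.Agent.X32.Uni

variable {k : ℕ}

open Classical in
/-- the `n` such that no `a_l n + b_l` has a prime factor `≤ y` -/
noncomputable def RL (a b : Fin k → ℤ) (y : ℝ) (A B : ℕ) : Finset ℕ :=
  (Ioc A B).filter (fun n : ℕ => ∀ l, ∀ p : ℕ, p.Prime → (p : ℝ) ≤ y → ¬ (p : ℤ) ∣ a l * (n : ℤ) + b l)

theorem RL_eq (a b : Fin k → ℤ) (y : ℝ) (A B : ℕ) : RL a b y A B = RB (lf a b) y A B := by
  classical
  unfold RL RB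
  apply filter_congr
  intro n _
  simp only [lf_eval]
  constructor
  · intro h p hp hy hd
    obtain ⟨l, _, hl⟩ := (Nat.prime_iff_prime_int.1 hp).exists_mem_finset_dvd hd
    exact h l p hp hy hl
  · intro h l p hp hy hd
    exact h p hp hy (hd.trans (dvd_prod_of_mem (fun l => a l * (n : ℤ) + b l) (mem_univ l)))

/-- an obstructing prime is small -/
theorem obs_le' (E : ℕ) (a b : Fin k → ℤ) (ha : ∀ l, a l ≠ 0) (haE : ∀ l, |a l| ≤ E) (p : ℕ) (hp : p.Prime)
    (h : ∀ n : ℤ, ∃ i, (p : ℤ) ∣ a i * n + b i) : p ≤ max k E := by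
  classical
  by_contra hcon
  push Not at hcon
  have hpE : E < p := lt_of_le_of_lt (le_max_right _ _) hcon
  have hpa : ∀ l, ¬ (p : ℤ) ∣ a l := by
    intro l hd
    have h1 := Int.le_of_dvd (abs_pos.2 (ha l)) ((dvd_abs _ _).2 hd)
    have h2 := haE l
    omega
  choose g hg using fun n : ℕ => h n
  have hinj : Set.InjOn g (Finset.range p : Set ℕ) := by
    intro u hu c hc hac
    rw [Finset.mem_coe, Finset.mem_range] at hu hc
    have h5 := hg u
    have h6 := hg c
    rw [hac] at h5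
    have h7 := dvd_sub h5 h6
    have h8 : (a (g c) * (u : ℤ) + b (g c)) - (a (g c) * (c : ℤ) + b (g c)) = a (g c) * ((u : ℤ) - c) := by ring
    rw [h8] at h7
    have h7' := ((Nat.prime_iff_prime_int.1 hp).dvd_mul.1 h7).resolve_left (hpa _)
    have h9 : (c : ℤ) ≡ u [ZMOD p] := (Int.modEq_iff_dvd).2 h7'
    have h10 : c ≡ u [MOD p] := Int.natCast_modEq_iff.1 h9
    exact (Nat.ModEq.eq_of_lt_of_lt h10 hc hu).symm
  have h5 := Finset.card_le_card_of_injOn g (fun a _ => Finset.mem_univ (g a)) hinj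
  rw [Finset.card_range, Finset.card_univ, Fintype.card_fin] at h5
  have := le_max_left k E
  omega

/-- the upper bound for all systems of `k` linear forms with bounded slopes -/
theorem rough_lin (k E : ℕ) (hk : 1 ≤ k) (ε : ℝ) (hε : 0 < ε) (β : ℝ) (hβ : 0 < β) : ∃ KU : ℝ, 0 < KU ∧
    ∃ n₀ : ℕ, ∀ n : ℕ, n₀ ≤ n → ∀ a b : Fin k → ℤ, (∀ l, a l ≠ 0) → (∀ l, |a l| ≤ E) →
      ∀ A B : ℕ, B ≤ n → (n : ℝ) ^ ε ≤ (B : ℝ) - A →
        ((RL a b ((n : ℝ) ^ β) A B).card : ℝ) ≤ KU * ((B : ℝ) - A) * VL a b n := by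
  classical
  obtain ⟨KU, hKU, n₀, H⟩ := roughU k hk ε hε β hβ
  have h1 : ∀ᶠ n : ℕ in atTop, ((max k E : ℕ) : ℝ) ≤ (n : ℝ) ^ β :=
    ((tendsto_rpow_atTop hβ).comp tendsto_natCast_atTop_atTop).eventually_ge_atTop _
  obtain ⟨n₁, h1⟩ := eventually_atTop.1 h1
  refine ⟨KU, hKU, max n₀ n₁, fun n hn a b ha haE A B hB hAB => ?_⟩
  by_cases hadm : AdmL a b
  · have hdeg : ∀ l, (lf a b l).natDegree = 1 := fun l => lf_deg _ _ l (ha l)
    have h2 := H n ((le_max_left _ _).trans hn) k (lf a b) (loc_lf hadm) (by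
      simp only [hdeg]
      simp) A B hB hAB
    rw [← RL_eq, V_lf] at h2
    exact h2
  · have h3 : RL a b ((n : ℝ) ^ β) A B = ∅ := by
      rw [Finset.eq_empty_iff_forall_notMem]
      intro x hx
      unfold RL at hx
      rw [mem_filter] at hx
      unfold AdmL at hadm
      push Not at hadm
      obtain ⟨p, hp, hall⟩ := hadm
      have h4 := obs_le' E a b ha haE p hp hall
      obtain ⟨i, hi⟩ := hall x
      have h5 := h1 n ((le_max_right _ _).trans hn)
      have h6 : (p : ℝ) ≤ ((max k E : ℕ) : ℝ) := by exact_mod_cast h4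
      exact hx.2 i p hp (h6.trans h5) hi
    rw [h3, card_empty, Nat.cast_zero]
    have h4 := VL_nonneg a b n
    have h5 : 0 ≤ (B : ℝ) - A := le_trans (by positivity) hAB
    positivity

/-- one more root -/
theorem omL_cons' (a b : Fin k → ℤ) (u v : ℤ) (p : ℕ) (hp : p.Prime) :
    omL a b p + (if (p : ℤ) ∣ u * ∏ l, (a l * v - u * b l) then 0 else 1) ≤
      omL (Fin.cons u a : Fin (k + 1) → ℤ) (Fin.cons v b : Fin (k + 1) → ℤ) p := by
  classical
  unfold omL
  have hsub : (range p).filter (fun n : ℕ => (p : ℤ) ∣ ∏ i, (a i * (n : ℤ) + b i)) ⊆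
      (range p).filter (fun n : ℕ => (p : ℤ) ∣ ∏ i, ((Fin.cons u a : Fin (k + 1) → ℤ) i * (n : ℤ) +
        (Fin.cons v b : Fin (k + 1) → ℤ) i)) := by
    intro n hn
    rw [mem_filter] at hn ⊢
    refine ⟨hn.1, ?_⟩
    rw [Fin.prod_univ_succ]
    simp only [Fin.cons_zero, Fin.cons_succ]
    exact hn.2.mul_left _
  split_ifs with hd
  · rw [add_zero]
    exact card_le_card hsub
  · have hu : ¬ (p : ℤ) ∣ u := fun h => hd (h.mul_right _)
    obtain ⟨ρ, hρ, H⟩ := lin_root hp hu v
    have h1 : ρ ∉ (range p).filter (fun n : ℕ => (p : ℤ) ∣ ∏ i, (a i * (n : ℤ) + b i)) := by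
      intro h2
      rw [mem_filter] at h2
      obtain ⟨l, _, hl⟩ := (Nat.prime_iff_prime_int.1 hp).exists_mem_finset_dvd h2.2
      have h3 := (H ρ hρ).2 rfl
      have h4 := dvd_sub (h3.mul_left (a l)) (hl.mul_left u)
      have h5 : a l * (u * (ρ : ℤ) + v) - u * (a l * (ρ : ℤ) + b l) = a l * v - u * b l := by ring
      rw [h5] at h4
      exact hd ((h4.trans (dvd_prod_of_mem (fun l => a l * v - u * b l) (mem_univ l))).mul_left _)
    rw [← card_insert_of_notMem h1]
    apply card_le_card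
    intro n hn
    rw [mem_insert] at hn
    rcases hn with rfl | hn
    · rw [mem_filter, mem_range]
      refine ⟨hρ, ?_⟩
      rw [Fin.prod_univ_succ]
      simp only [Fin.cons_zero, Fin.cons_succ]
      exact ((H n hρ).2 rfl).mul_right _
    · exact hsub hn

/-- the product for one more form -/
theorem VL_cons' : ∀ᶠ X : ℕ in atTop, ∀ (k : ℕ) (a b : Fin k → ℤ) (u v : ℤ), u ≠ 0 →
    (∀ l, a l * v - u * b l ≠ 0) →
    VL (Fin.cons u a : Fin (k + 1) → ℤ) (Fin.cons v b : Fin (k + 1) → ℤ) X ≤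
      VL a b X * (1 / Real.log X) * gg (u * ∏ l, (a l * v - u * b l)) := by
  classical
  filter_upwards [prod_inv_le, eventually_ge_atTop 3] with X hX hX3 k a b u v hu hab
  obtain ⟨D, hD⟩ : ∃ D : ℤ, D = u * ∏ l, (a l * v - u * b l) := ⟨_, rfl⟩
  have hD0 : D ≠ 0 := by
    rw [hD]
    exact mul_ne_zero hu (prod_ne_zero_iff.2 fun l _ => hab l)
  obtain ⟨P, hP⟩ : ∃ P : Finset ℕ, P = (Icc 1 X).filter Nat.Prime := ⟨_, rfl⟩
  have hPp : ∀ p ∈ P, p.Prime := by
    intro p hp
    rw [hP] at hp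
    exact (mem_filter.1 hp).2
  have hlog : 0 < Real.log X := Real.log_pos (by exact_mod_cast (by omega : 1 < X))
  have h1 : VL (Fin.cons u a : Fin (k + 1) → ℤ) (Fin.cons v b : Fin (k + 1) → ℤ) X ≤
      ∏ p ∈ P, ((1 - (omL a b p : ℝ) / p) * ((1 - (p : ℝ)⁻¹) *
        (if (p : ℤ) ∣ D then (1 - (p : ℝ)⁻¹)⁻¹ else 1))) := by
    unfold VL
    rw [← hP]
    apply Finset.prod_le_prod
    · intro p hp
      exact fac_nonneg _ _ p (hPp p hp)
    · intro p hp
      have hpp := hPp p hp
      have hp0 : (0 : ℝ) < p := by exact_mod_cast hpp.pos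
      have e1 := omL_cons' a b u v p hpp
      rw [← hD] at e1
      have e2 := fac_nonneg a b p hpp
      have e3 := fac p hpp
      obtain ⟨z, hz⟩ : ∃ z : ℝ, z = (omL a b p : ℝ) := ⟨_, rfl⟩
      have hz0 : 0 ≤ z := by rw [hz]; positivity
      rw [← hz] at e2 ⊢
      split_ifs at e1 ⊢ with hd
      · rw [mul_inv_cancel₀ e3.1.ne', mul_one]
        have e4 : z ≤ (omL (Fin.cons u a : Fin (k + 1) → ℤ) (Fin.cons v b : Fin (k + 1) → ℤ) p : ℝ) := by
          rw [hz]
          exact_mod_cast e1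
        have e5 := div_le_div_of_nonneg_right e4 hp0.le
        linarith
      · rw [mul_one]
        have e4 : z + 1 ≤ (omL (Fin.cons u a : Fin (k + 1) → ℤ) (Fin.cons v b : Fin (k + 1) → ℤ) p : ℝ) := by
          rw [hz]
          exact_mod_cast e1
        have e5 := div_le_div_of_nonneg_right e4 hp0.le
        have e6 : (1 - z / p) * (1 - (p : ℝ)⁻¹) = 1 - (z + 1) / p + z / p * (p : ℝ)⁻¹ := by
          field_simp
          ring
        have e7 : 0 ≤ z / p * (p : ℝ)⁻¹ := by positivity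
        rw [e6]
        linarith
  refine h1.trans ?_
  rw [prod_mul_distrib, prod_mul_distrib]
  have h2 : ∏ p ∈ P, (if (p : ℤ) ∣ D then (1 - (p : ℝ)⁻¹)⁻¹ else 1) ≤ gg D := by
    rw [← prod_filter]
    unfold gg
    have hsub : P.filter (fun p : ℕ => (p : ℤ) ∣ D) ⊆ D.natAbs.primeFactors := by
      intro p hp
      rw [mem_filter] at hp
      rw [Nat.mem_primeFactors]
      refine ⟨hPp p hp.1, ?_, Int.natAbs_ne_zero.2 hD0⟩
      have := Int.natAbs_dvd_natAbs.2 hp.2
      rwa [Int.natAbs_natCast] at this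
    rw [← prod_sdiff hsub]
    apply le_mul_of_one_le_left
    · apply prod_nonneg
      intro p hp
      have := one_le_fac p (hPp p (mem_filter.1 hp).1)
      linarith
    · apply one_le_prod
      intro p hp
      exact one_le_fac p (Nat.prime_of_mem_primeFactors (mem_sdiff.1 hp).1)
  have h3 : 0 ≤ ∏ p ∈ P, (if (p : ℤ) ∣ D then (1 - (p : ℝ)⁻¹)⁻¹ else 1) := by
    apply prod_nonneg
    intro p hp
    split_ifs
    · have := one_le_fac p (hPp p hp)
      linarith
    · norm_num
  have h4 : ∏ p ∈ P, (1 - (omL a b p : ℝ) / p) = VL a b X := by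
    unfold VL
    rw [hP]
  rw [h4, ← hD, mul_assoc]
  apply mul_le_mul_of_nonneg_left _ (VL_nonneg _ _ _)
  rw [← hP] at hX
  exact mul_le_mul hX h2 h3 (by positivity)

theorem gg_small (E : ℕ) (u : ℤ) (hu : u ≠ 0) (huE : |u| ≤ E) : gg u ≤ 2 ^ E := by
  unfold gg
  have e1 : u.natAbs.primeFactors ⊆ Icc 1 E := by
    intro p hp
    have hpp := Nat.prime_of_mem_primeFactors hp
    rw [mem_Icc]
    refine ⟨hpp.one_le, ?_⟩
    have e3 := Nat.le_of_dvd (Int.natAbs_pos.2 hu) (Nat.dvd_of_mem_primeFactors hp)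
    have e4 : u.natAbs ≤ E := by
      zify
      exact huE
    omega
  have e2 : u.natAbs.primeFactors.card ≤ E := by
    have := card_le_card e1
    simpa using this
  calc ∏ p ∈ u.natAbs.primeFactors, (1 - (p : ℝ)⁻¹)⁻¹ ≤ ∏ _p ∈ u.natAbs.primeFactors, (2 : ℝ) := by
        apply Finset.prod_le_prod
        · intro p hp
          have := one_le_fac p (Nat.prime_of_mem_primeFactors hp)
          linarith
        · intro p hp
          have hpp := Nat.prime_of_mem_primeFactors hp
          have hp2 : (2 : ℝ) ≤ p := by exact_mod_cast hpp.two_le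
          have h1 : (p : ℝ)⁻¹ ≤ 2⁻¹ := inv_anti₀ (by norm_num) hp2
          have h2 : (2 : ℝ)⁻¹ ≤ 1 - (p : ℝ)⁻¹ := by
            have : (2 : ℝ)⁻¹ = 1 - 2⁻¹ := by norm_num
            linarith
          calc (1 - (p : ℝ)⁻¹)⁻¹ ≤ ((2 : ℝ)⁻¹)⁻¹ := inv_anti₀ (by norm_num) h2
            _ = 2 := by norm_num
    _ = 2 ^ u.natAbs.primeFactors.card := by rw [prod_const]
    _ ≤ 2 ^ E := pow_le_pow_right₀ (by norm_num) e2

theorem gg_mul_le (u v : ℤ) (hu : u ≠ 0) (hv : v ≠ 0) : gg (u * v) ≤ gg u * gg v := by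
  have h := gg_prod_le (k := 2) ![u, v] (by
    intro l
    fin_cases l
    · exact hu
    · exact hv)
  simpa [Fin.prod_univ_two] using h

/-- **the pairs `(n, c)`** -/
theorem iso_lin (k E : ℕ) (hk : 1 ≤ k) (β : ℝ) (hβ : 0 < β) :
    ∃ K₁ : ℝ, 0 < K₁ ∧ ∀ ε : ℝ, 0 < ε → ∀ K' : ℕ, ∃ X₀ : ℕ, ∀ X : ℕ, X₀ ≤ X →
      ∀ (a b : Fin k → ℤ) (u v : ℤ), (∀ l, a l ≠ 0) → (∀ l, |a l| ≤ E) → (∀ l, |b l| ≤ K' * (X : ℤ)) →
      u ≠ 0 → |u| ≤ E → |v| ≤ K' * (X : ℤ) → ∀ A B : ℕ, B ≤ X → (X : ℝ) ^ (1 / 2 : ℝ) ≤ (B : ℝ) - A →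
        ∑ c ∈ (Icc (-((⌊ε * Real.log X⌋₊ : ℕ) : ℤ)) (⌊ε * Real.log X⌋₊ : ℕ)).filter
          (fun c => ∀ l, a l * (v + c) - u * b l ≠ 0),
          ((RL (Fin.cons u a : Fin (k + 1) → ℤ) (Fin.cons (v + c) b : Fin (k + 1) → ℤ) ((X : ℝ) ^ β) A B).card : ℝ) ≤
            K₁ * ε * ((B : ℝ) - A) * VL a b X := by
  classical
  obtain ⟨KU, hKU, n₀, H1⟩ := rough_lin (k + 1) E (by omega) (1 / 2) (by norm_num) β hβ
  obtain ⟨Ka, hKa, H2⟩ := avg_ap k E
  obtain ⟨X₁, H3⟩ := eventually_atTop.1 VL_cons'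
  refine ⟨KU * 2 ^ E * (k * Ka), by positivity, fun ε hε K' => ?_⟩
  obtain ⟨X₂, H2⟩ := H2 ε hε (2 * E * K')
  refine ⟨n₀ + X₁ + X₂ + 3, fun X hX a b u v ha haE hbK hu huE hvK A B hB hAB => ?_⟩
  have hlog : 0 < Real.log X := Real.log_pos (by exact_mod_cast (by omega : 1 < X))
  have hBA : 0 ≤ (B : ℝ) - A := le_trans (by positivity) hAB
  obtain ⟨w, hw⟩ : ∃ w : ℕ, w = ⌊ε * Real.log X⌋₊ := ⟨_, rfl⟩
  have hV0 := VL_nonneg a b X
  -- the average of the singular series
  obtain ⟨S, hS⟩ : ∃ S : Finset ℤ, S = (Icc (-(w : ℤ)) w).filter (fun c => ∀ l, a l * (v + c) - u * b l ≠ 0) :=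
    ⟨_, rfl⟩
  have hSl : ∀ c ∈ S, ∀ l, a l * (v + c) - u * b l ≠ 0 := by
    intro c hc
    rw [hS, mem_filter] at hc
    exact hc.2
  have hav : ∑ c ∈ S, gg (u * ∏ l, (a l * (v + c) - u * b l)) ≤ 2 ^ E * (k * Ka) * (ε * Real.log X) := by
    calc ∑ c ∈ S, gg (u * ∏ l, (a l * (v + c) - u * b l))
        ≤ ∑ c ∈ S, 2 ^ E * ∑ l, gg (a l * (v + c) - u * b l) ^ k := by
          apply sum_le_sum
          intro c hc
          have h0 := hSl c hc
          refine (gg_mul_le u _ hu (prod_ne_zero_iff.2 fun l _ => h0 l)).trans ?_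
          apply mul_le_mul (gg_small E u hu huE) _ (by have := one_le_gg (∏ l, (a l * (v + c) - u * b l)); linarith)
            (by positivity)
          refine (gg_prod_le _ h0).trans ?_
          exact prod_le_sum_pow hk _ fun l => by have := one_le_gg (a l * (v + c) - u * b l); linarith
      _ = 2 ^ E * ∑ l, ∑ c ∈ S, gg (a l * (v + c) - u * b l) ^ k := by
          rw [← mul_sum, sum_comm]
      _ ≤ 2 ^ E * ∑ _l : Fin k, Ka * (ε * Real.log X) := by
          apply mul_le_mul_of_nonneg_left _ (by positivity)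
          apply sum_le_sum
          intro l _
          have hb' : |a l * v - u * b l| ≤ ((2 * E * K' : ℕ) : ℤ) * X := by
            have e1 : |a l * v| ≤ E * (K' * X) := by
              rw [abs_mul]
              exact mul_le_mul (haE l) hvK (abs_nonneg _) (by positivity)
            have e2 : |u * b l| ≤ E * (K' * X) := by
              rw [abs_mul]
              exact mul_le_mul huE (hbK l) (abs_nonneg _) (by positivity)
            have e3 := abs_sub (a l * v) (u * b l)
            push_cast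
            calc |a l * v - u * b l| ≤ |a l * v| + |u * b l| := e3
              _ ≤ E * (K' * X) + E * (K' * X) := add_le_add e1 e2
              _ = 2 * E * K' * X := by ring
          have e4 := H2 X (by omega) (a l) (a l * v - u * b l) (ha l) (haE l) hb'
          rw [← hw] at e4
          refine le_trans ?_ e4
          calc ∑ c ∈ S, gg (a l * (v + c) - u * b l) ^ k
              = ∑ c ∈ S, gg (a l * c + (a l * v - u * b l)) ^ k := by
                apply sum_congr rfl
                intro c _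
                congr 2
                ring
            _ ≤ _ := by
                apply sum_le_sum_of_subset_of_nonneg
                · intro c hc
                  have h0 := hSl c hc l
                  rw [hS, mem_filter] at hc
                  rw [mem_filter]
                  refine ⟨hc.1, fun h5 => h0 ?_⟩
                  rw [← h5]
                  ring
                · intro c _ _
                  have := one_le_gg (a l * c + (a l * v - u * b l))
                  positivity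
      _ = 2 ^ E * (k * Ka) * (ε * Real.log X) := by simp; ring
  rw [← hw, ← hS]
  calc ∑ c ∈ S, ((RL (Fin.cons u a : Fin (k + 1) → ℤ) (Fin.cons (v + c) b : Fin (k + 1) → ℤ) ((X : ℝ) ^ β) A B).card : ℝ)
      ≤ ∑ c ∈ S, KU * ((B : ℝ) - A) * (VL a b X * (1 / Real.log X) * gg (u * ∏ l, (a l * (v + c) - u * b l))) := by
        apply sum_le_sum
        intro c hc
        refine (H1 X (by omega) _ _ ?_ ?_ A B hB hAB).trans ?_
        · intro l
          refine Fin.cases ?_ (fun l => ?_) l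
          · rw [Fin.cons_zero]; exact hu
          · rw [Fin.cons_succ]; exact ha l
        · intro l
          refine Fin.cases ?_ (fun l => ?_) l
          · rw [Fin.cons_zero]; exact huE
          · rw [Fin.cons_succ]; exact haE l
        · apply mul_le_mul_of_nonneg_left _ (by positivity)
          exact H3 X (by omega) k a b u (v + c) hu (hSl c hc)
    _ = KU * ((B : ℝ) - A) * (VL a b X * (1 / Real.log X)) * ∑ c ∈ S, gg (u * ∏ l, (a l * (v + c) - u * b l)) := by
        rw [mul_sum]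
        apply sum_congr rfl
        intro c _
        ring
    _ ≤ KU * ((B : ℝ) - A) * (VL a b X * (1 / Real.log X)) * (2 ^ E * (k * Ka) * (ε * Real.log X)) := by
        apply mul_le_mul_of_nonneg_left hav (by positivity)
    _ = KU * 2 ^ E * (k * Ka) * ε * ((B : ℝ) - A) * VL a b X := by
        field_simp

end Pool.Agent.T6.H2.PT
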