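import Pool.Agent.X32.Uni.Short

/-!
# The number of the arguments at which a system of polynomials has no small prime factors (helper2)

The upper bound sieve with an arbitrary level `n ^ β`, uniformly in the system (adapted from the second half of
`Pool.Agent.X32.Uni.shortU`).
-/

set_option autoImplicit false

namespace Pool.Agent.T6.H2.PT

open Finset Filter
open scoped Polynomial
open Pool.Agent.Y843.HS (Pr VV Pr_mem Pr_prime VV_split Sv)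
open Pool.Agent.X32.CL
open Pool.Agent.X32.Fam (ex_J log_small')
open Pool.Agent.X32.Uni

variable {m : ℕ}

open Classical in
/-- the arguments at which no value has a prime factor `≤ y` -/
noncomputable def RB (f : Fin m → ℤ[X]) (y : ℝ) (A B : ℕ) : Finset ℕ :=
  (Ioc A B).filter (fun x : ℕ => ∀ p : ℕ, p.Prime → (p : ℝ) ≤ y → ¬ (p : ℤ) ∣ ∏ k, (f k).eval (x : ℤ))

theorem roughU (D : ℕ) (hD1 : 1 ≤ D) (ε : ℝ) (hε : 0 < ε) (β : ℝ) (hβ : 0 < β) : ∃ KU : ℝ, 0 < KU ∧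
    ∃ n₀ : ℕ, ∀ n : ℕ, n₀ ≤ n → ∀ (m : ℕ) (f : Fin m → ℤ[X]), Loc f → (∑ k, (f k).natDegree) ≤ D →
      ∀ A B : ℕ, B ≤ n → (n : ℝ) ^ ε ≤ (B : ℝ) - A →
        ((RB f ((n : ℝ) ^ β) A B).card : ℝ) ≤ KU * ((B : ℝ) - A) * V f n := by
  classical
  obtain ⟨d, hd⟩ : ∃ d : ℕ, D = d + 1 := ⟨D - 1, by omega⟩
  obtain ⟨cV, hcV, hVlow⟩ := V_low d
  rw [← hd] at hVlow
  obtain ⟨C, hC, HF⟩ := Pool.Agent.Y151.HS.flc
  obtain ⟨b, hb⟩ : ∃ b : ℕ, b = C * (D + 1) := ⟨_, rfl⟩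
  obtain ⟨E, hE⟩ : ∃ E : ℕ, E = C * b := ⟨_, rfl⟩
  have hb1 : 1 ≤ b := by rw [hb]; exact Nat.mul_pos hC (by omega)
  have hE1 : 1 ≤ E := by rw [hE]; exact Nat.mul_pos hC hb1
  have hE0 : (0 : ℝ) < E := by exact_mod_cast hE1
  obtain ⟨t, ht⟩ : ∃ t : ℕ, t = max ⌈4 * E / ε⌉₊ ⌈1 / β⌉₊ := ⟨_, rfl⟩
  have ht4 : 4 * E / ε ≤ t := by
    rw [ht]
    exact (Nat.le_ceil _).trans (by exact_mod_cast le_max_left _ _)
  have htβ : 1 / β ≤ t := by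
    rw [ht]
    exact (Nat.le_ceil _).trans (by exact_mod_cast le_max_right _ _)
  have ht0 : (0 : ℝ) < t := lt_of_lt_of_le (by positivity) ht4
  have ht1 : 1 ≤ t := by exact_mod_cast ht0
  have htE : 1 / (t : ℝ) ≤ ε / (4 * E) := by
    rw [div_le_div_iff₀ ht0 (by positivity)]
    rw [div_le_iff₀ hε] at ht4
    linarith
  have htβ' : 1 / (t : ℝ) ≤ β := by
    rw [div_le_iff₀ ht0]
    rw [div_le_iff₀ hβ] at htβ
    linarith
  have hhalf : (1 / 2 : ℝ) ^ b ≤ 1 / 2 := by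
    calc (1 / 2 : ℝ) ^ b ≤ (1 / 2 : ℝ) ^ 1 := pow_le_pow_of_le_one (by norm_num) (by norm_num) hb1
      _ = 1 / 2 := pow_one _
  obtain ⟨cD, hcD, R₀, hden⟩ := Pool.Agent.Y79.HS.den D (2 * t)
  have hM0 := Mz_pos b
  have hM : (0 : ℝ) < Mz b := by exact_mod_cast hM0
  refine ⟨2 * Mz b / cD + 1, by positivity, ?_⟩
  obtain ⟨n₁, h1⟩ := eventually_atTop.1 (pow_ge t ht1 (max (max 0 (b + 4)) ((R₀ : ℝ) ^ 2 + (b : ℝ) ^ 2)))
  obtain ⟨n₃, h3⟩ := eventually_atTop.1 (log_small' D (1 / cV) (ε / 2) (by positivity))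
  refine ⟨n₁ + n₃ + 3, ?_⟩
  intro n hn m f hloc hsum A B hBn hAB
  have hn1 : 1 ≤ n := by omega
  have hn0 : (0 : ℝ) < n := by exact_mod_cast hn1
  have hnr : (1 : ℝ) ≤ n := by exact_mod_cast hn1
  have hlog : 0 < Real.log n := Real.log_pos (by exact_mod_cast (by omega : 1 < n))
  have hVl := hVlow m f n (by omega) hloc (by omega)
  have hVn := V_nonneg hloc n
  obtain ⟨y, hy⟩ : ∃ y : ℝ, y = (n : ℝ) ^ (1 / (t : ℝ)) := ⟨_, rfl⟩
  have h1' := h1 n (by omega)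
  rw [← hy] at h1'
  have hyb : (b : ℝ) + 4 < y := lt_of_le_of_lt ((le_max_right _ _).trans (le_max_left _ _)) h1'
  have hyR : (R₀ : ℝ) ^ 2 + (b : ℝ) ^ 2 < y := lt_of_le_of_lt (le_max_right _ _) h1'
  have hb0 : (0 : ℝ) ≤ b := Nat.cast_nonneg b
  have hyβ : y ≤ (n : ℝ) ^ β := by
    rw [hy]
    exact Real.rpow_le_rpow_of_exponent_le hnr htβ'
  have hε1 : (1 : ℝ) ≤ (n : ℝ) ^ ε := Real.one_le_rpow hnr hε.le
  have hBA0 : 0 < (B : ℝ) - A := by linarith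
  have hAB' : A ≤ B := by
    have : (A : ℝ) ≤ B := by linarith
    exact_mod_cast this
  obtain ⟨L, hL⟩ : ∃ L : ℕ, B = A + L := ⟨B - A, by omega⟩
  have hLr : (L : ℝ) = (B : ℝ) - A := by rw [hL]; push_cast; ring
  have hSv : ∀ a c, Sv D a c (Zf f) := by
    intro a c p hp
    refine ⟨(om_le hloc (Pr_prime hp)).trans hsum, ?_⟩
    intro x hx
    exact mem_range.1 (mem_filter.1 hx).1
  have hVV : V f n = VV (Zf f) 0 n := by
    unfold V VV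
    rw [Pr_eq]
    rfl
  have hε2 : (n : ℝ) ^ (ε / 2) * (n : ℝ) ^ (ε / 2) = (n : ℝ) ^ ε := by
    rw [← Real.rpow_add hn0]
    congr 1
    ring
  have hεp : 0 < (n : ℝ) ^ (ε / 2) := by positivity
  have hε1' : 1 ≤ (n : ℝ) ^ (ε / 2) := Real.one_le_rpow hnr (by positivity)
  -- the upper bound
  have hy2 : 2 ≤ y := by linarith
  obtain ⟨J, hJ1, hJ2⟩ := ex_J y hy2
  obtain ⟨R, hR⟩ : ∃ R : ℕ, R = 2 ^ 2 ^ J := ⟨_, rfl⟩
  rw [← hR] at hJ1 hJ2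
  have hR0R : R₀ ≤ R := by
    have h4 : (R₀ : ℝ) ^ 2 ≤ (R : ℝ) ^ 2 := by nlinarith
    have h5 : (R₀ : ℝ) ≤ R := le_of_sq_le_sq h4 (Nat.cast_nonneg R)
    exact_mod_cast h5
  have hbR : b ≤ R := by
    have h4 : (b : ℝ) ^ 2 ≤ (R : ℝ) ^ 2 := by nlinarith
    have h5 : (b : ℝ) ≤ R := le_of_sq_le_sq h4 (Nat.cast_nonneg R)
    exact_mod_cast h5
  have hyt : y ^ t = n := by
    rw [hy, ← Real.rpow_natCast, ← Real.rpow_mul hn0.le, one_div, inv_mul_cancel₀ ht0.ne', Real.rpow_one]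
  have hnR : n ≤ R ^ (2 * t) := by
    have h4 : y ^ t ≤ ((R : ℝ) ^ 2) ^ t := pow_le_pow_left₀ (by linarith) hJ2.le _
    rw [hyt, ← pow_mul] at h4
    exact_mod_cast h4
  have hyn : y ≤ n := by
    rw [← hyt]
    calc y = y ^ 1 := (pow_one y).symm
      _ ≤ y ^ t := pow_le_pow_right₀ (by linarith) ht1
  have hRn : R ≤ n := by
    have : (R : ℝ) ≤ n := by linarith
    exact_mod_cast this
  have hRE : (R : ℝ) ^ E ≤ (n : ℝ) ^ (ε / 2) := by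
    calc (R : ℝ) ^ E ≤ y ^ E := pow_le_pow_left₀ (Nat.cast_nonneg R) hJ1 _
      _ = (n : ℝ) ^ (1 / (t : ℝ) * E) := by
          rw [hy, ← Real.rpow_natCast, ← Real.rpow_mul hn0.le]
      _ ≤ (n : ℝ) ^ (ε / 2) := by
          apply Real.rpow_le_rpow_of_exponent_le hnr
          calc 1 / (t : ℝ) * E ≤ ε / (4 * E) * E := by gcongr
            _ = ε / 4 := by field_simp
            _ ≤ ε / 2 := by linarith
  have hflc := HF D b b J (by rw [hb]) (by rw [hb]) (Zf f) (hSv _ _) 1 0 A L le_rfl (by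
    intro p hp hd
    have h4 := Nat.le_of_dvd one_pos hd
    have h5 := (Pr_prime hp).two_le
    omega)
  rw [← hR] at hflc
  obtain ⟨Pb, hPb⟩ : ∃ Pb : ℝ, Pb = ∏ p ∈ Pr b R, (1 - ((Zf f p).card : ℝ) / p) := ⟨_, rfl⟩
  rw [← hPb] at hflc
  obtain ⟨T, hflc, hT⟩ : ∃ T : Finset ℕ, |((T.card : ℝ)) - (L : ℝ) / (1 : ℕ) * Pb| ≤
      (1 / 2 : ℝ) ^ b * ((L : ℝ) / (1 : ℕ) * Pb) + ((2 : ℝ) ^ 2 ^ J) ^ (C * b) ∧
    ∀ x, x ∈ T ↔ x ∈ Ioc A (A + L) ∧ (x % 1 = 0 % 1 ∧ ∀ p ∈ Pr b R, x % p ∉ Zf f p) :=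
    ⟨_, hflc, fun x => by simp only [mem_filter]⟩
  have hPbV : cD / Mz b * Pb ≤ V f n := by
    have h4 : Pb = VV (Zf f) b R := hPb
    rw [h4, hVV, ← VV_split (Zf f) (Nat.zero_le R) hRn, ← VV_split (Zf f) (Nat.zero_le b) hbR]
    have a1 := VV_small hloc b
    have a3 := VV_Zf_nonneg hloc b R
    have a4 := hden R n hR0R hnR (Zf f) (hSv _ _)
    have a5 := VV_Zf_nonneg hloc 0 b
    calc cD / Mz b * VV (Zf f) b R = (1 / Mz b) * VV (Zf f) b R * cD := by ring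
      _ ≤ VV (Zf f) 0 b * VV (Zf f) b R * VV (Zf f) R n := by gcongr
  have hPb0 : 0 ≤ Pb := by
    have h4 : Pb = VV (Zf f) b R := hPb
    rw [h4]
    exact VV_Zf_nonneg hloc b R
  have hcast : ((2 : ℝ) ^ 2 ^ J) = R := by rw [hR]; push_cast; rfl
  have hL0 : (0 : ℝ) ≤ L := Nat.cast_nonneg L
  have hup : (T.card : ℝ) ≤ 2 * ((L : ℝ) * Pb) + (n : ℝ) ^ (ε / 2) := by
    have h4 := (abs_le.1 hflc).2
    rw [hcast, ← hE, Nat.cast_one, div_one] at h4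
    have h5 : 0 ≤ (L : ℝ) * Pb := by positivity
    have h6 : (1 / 2 : ℝ) ^ b * ((L : ℝ) * Pb) ≤ 1 / 2 * ((L : ℝ) * Pb) :=
      mul_le_mul_of_nonneg_right hhalf h5
    linarith
  have hsub : RB f ((n : ℝ) ^ β) A B ⊆ T := by
    intro x hx
    unfold RB at hx
    rw [mem_filter] at hx
    obtain ⟨hx1, hx2⟩ := hx
    rw [hT, ← hL]
    refine ⟨hx1, by simp [Nat.mod_one], ?_⟩
    intro p hp hcon
    have hpp := Pr_prime hp
    rw [mem_Zf hpp.pos] at hcon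
    have h5 : (p : ℝ) ≤ R := by exact_mod_cast (Pr_mem.1 hp).1.2
    exact hx2 p hpp (by linarith) hcon
  have hcard : ((RB f ((n : ℝ) ^ β) A B).card : ℝ) ≤ T.card := by exact_mod_cast card_le_card hsub
  have herr : (n : ℝ) ^ (ε / 2) ≤ (L : ℝ) * V f n := by
    have h4 := h3 n (by omega)
    have h6 : (1 : ℝ) ≤ (n : ℝ) ^ (ε / 2) * (cV / Real.log n ^ D) := by
      rw [div_mul_eq_mul_div, div_le_iff₀ hcV] at h4
      rw [mul_div_assoc', le_div_iff₀ (by positivity)]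
      linarith
    calc (n : ℝ) ^ (ε / 2) = 1 * (n : ℝ) ^ (ε / 2) := (one_mul _).symm
      _ ≤ ((n : ℝ) ^ (ε / 2) * (cV / Real.log n ^ D)) * (n : ℝ) ^ (ε / 2) := by gcongr
      _ = ((n : ℝ) ^ (ε / 2) * (n : ℝ) ^ (ε / 2)) * (cV / Real.log n ^ D) := by ring
      _ ≤ (L : ℝ) * V f n := by
          rw [hε2, hLr]
          gcongr
  have h7 : Pb ≤ Mz b / cD * V f n := by
    rw [div_mul_eq_mul_div, div_le_iff₀ hM] at hPbV
    rw [div_mul_eq_mul_div, le_div_iff₀ hcD]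
    linarith
  calc ((RB f ((n : ℝ) ^ β) A B).card : ℝ) ≤ 2 * ((L : ℝ) * Pb) + (n : ℝ) ^ (ε / 2) := hcard.trans hup
    _ ≤ 2 * ((L : ℝ) * (Mz b / cD * V f n)) + (L : ℝ) * V f n := by gcongr
    _ = (2 * Mz b / cD + 1) * ((B : ℝ) - A) * V f n := by
        rw [hLr]
        ring

end Pool.Agent.T6.H2.PT
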