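import Pool.Agent.T6.H2.PT.Lin

/-!
# Pairs of constellations: the upper bound on average over the shift (helper2)

For a fixed system of `k` linear forms we bound the number of the pairs `(n, d)` such that all the values at `n` and
at `n + d` are free of prime factors `≤ X ^ β`, `d` running over an interval.
-/

set_option autoImplicit false

namespace Pool.Agent.T6.H2.PT

open Finset Filter
open scoped Polynomial
open Pool.Agent.X32.Uni

variable {k : ℕ}

/-- an upper bound for the density in terms of a number divisible by all the bad primes -/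
theorem VL_le_gg : ∀ᶠ X : ℕ in atTop, ∀ (m : ℕ) (a b : Fin m → ℤ) (D : ℤ), D ≠ 0 → (∀ l, a l ∣ D) →
    (∀ l l', l ≠ l' → a l * b l' - a l' * b l ∣ D) → VL a b X ≤ (gg D / Real.log X) ^ m := by
  classical
  filter_upwards [prod_inv_le, eventually_ge_atTop 3] with X hX hX3 m a b D hD0 haD hdD
  obtain ⟨P, hP⟩ : ∃ P : Finset ℕ, P = (Icc 1 X).filter Nat.Prime := ⟨_, rfl⟩
  have hPp : ∀ p ∈ P, p.Prime := by
    intro p hp
    rw [hP] at hp
    exact (mem_filter.1 hp).2
  have hlog : 0 < Real.log X := Real.log_pos (by exact_mod_cast (by omega : 1 < X))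
  have h1 : VL a b X ≤ ∏ p ∈ P, ((1 - (p : ℝ)⁻¹) * (if (p : ℤ) ∣ D then (1 - (p : ℝ)⁻¹)⁻¹ else 1)) ^ m := by
    unfold VL
    rw [← hP]
    apply Finset.prod_le_prod
    · intro p hp
      exact fac_nonneg _ _ p (hPp p hp)
    · intro p hp
      have hpp := hPp p hp
      have e3 := fac p hpp
      split_ifs with hd
      · rw [mul_inv_cancel₀ e3.1.ne', one_pow]
        have : 0 ≤ (omL a b p : ℝ) / p := by positivity
        linarith
      · rw [mul_one, omL_full a b hpp (fun l h => hd (h.trans (haD l))) (fun l l' hl h => hd (h.trans (hdD l l' hl)))]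
        have hp2 : (2 : ℝ) ≤ p := by exact_mod_cast hpp.two_le
        have h2 : -(p : ℝ)⁻¹ ≥ -2 := by
          have : (p : ℝ)⁻¹ ≤ 1 := inv_le_one_of_one_le₀ (by linarith)
          linarith
        have := one_add_mul_le_pow h2 m
        calc 1 - (m : ℝ) / p = 1 + (m : ℝ) * -(p : ℝ)⁻¹ := by ring
          _ ≤ (1 + -(p : ℝ)⁻¹) ^ m := this
          _ = (1 - (p : ℝ)⁻¹) ^ m := by ring
  refine h1.trans ?_
  rw [prod_pow, prod_mul_distrib]
  have h2 : ∏ p ∈ P, (if (p : ℤ) ∣ D then (1 - (p : ℝ)⁻¹)⁻¹ else 1) ≤ gg D := by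
    rw [← prod_filter]
    unfold gg
    have hsub : P.filter (fun p : ℕ => (p : ℤ) ∣ D) ⊆ D.natAbs.primeFactors := by
      intro p hp
      rw [mem_filter] at hp
      rw [Nat.mem_primeFactors]
      refine ⟨hPp p hp.1, ?_, Int.natAbs_ne_zero.2 hD0⟩
      have := Int.natAbs_dvd_natAbs.2 hp.2
      rwa [Int.natAbs_natCast] at this
    rw [← prod_sdiff hsub]
    apply le_mul_of_one_le_left
    · apply prod_nonneg
      intro p hp
      have := one_le_fac p (hPp p (mem_filter.1 hp).1)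
      linarith
    · apply one_le_prod
      intro p hp
      exact one_le_fac p (Nat.prime_of_mem_primeFactors (mem_sdiff.1 hp).1)
  have h3 : 0 ≤ ∏ p ∈ P, (if (p : ℤ) ∣ D then (1 - (p : ℝ)⁻¹)⁻¹ else 1) := by
    apply prod_nonneg
    intro p hp
    split_ifs
    · have := one_le_fac p (hPp p hp)
      linarith
    · norm_num
  have h4 : 0 ≤ ∏ p ∈ P, (1 - (p : ℝ)⁻¹) := prod_nonneg fun p hp => (fac p (hPp p hp)).1.le
  rw [← hP] at hX
  apply pow_le_pow_left₀ (mul_nonneg h4 h3)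
  calc _ ≤ 1 / Real.log X * gg D := mul_le_mul hX h2 h3 (by positivity)
    _ = _ := by ring

/-- the average over an interval anywhere -/
theorem avg_iv (k E : ℕ) : ∃ K₁ : ℝ, 0 < K₁ ∧ ∃ w₀ : ℕ, ∀ w : ℕ, w₀ ≤ w → ∀ a b : ℤ, a ≠ 0 → |a| ≤ E →
    (|b| : ℝ) ≤ Real.exp w → ∑ c ∈ (Icc (-(w : ℤ)) w).filter (fun c => a * c + b ≠ 0), gg (a * c + b) ^ k ≤ K₁ * w := by
  classical
  obtain ⟨K₁, hK₁, H⟩ := avg_ap k E
  obtain ⟨X₀, H⟩ := H 1 one_pos 1
  refine ⟨2 * K₁, by positivity, X₀ + 1, fun w hw a b ha haE hb => ?_⟩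
  obtain ⟨X, hX⟩ : ∃ X : ℕ, X = ⌈Real.exp w⌉₊ := ⟨_, rfl⟩
  have hXe : Real.exp w ≤ X := by rw [hX]; exact Nat.le_ceil _
  have hXe' : (X : ℝ) < Real.exp w + 1 := by rw [hX]; exact Nat.ceil_lt_add_one (Real.exp_pos _).le
  have hw1 : (1 : ℝ) ≤ w := by exact_mod_cast (by omega : 1 ≤ w)
  have hXX : X₀ ≤ X := by
    have h1 : (X₀ : ℝ) ≤ X := by
      have h2 := Real.add_one_le_exp (w : ℝ)
      have h3 : (X₀ : ℝ) + 1 ≤ w := by exact_mod_cast hw
      linarith
    exact_mod_cast h1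
  have hXpos : (0 : ℝ) < X := lt_of_lt_of_le (Real.exp_pos _) hXe
  have hl1 : (w : ℝ) ≤ Real.log X := by
    rw [Real.le_log_iff_exp_le hXpos]
    exact hXe
  have hl2 : Real.log X ≤ 2 * w := by
    rw [Real.log_le_iff_le_exp hXpos]
    have h1 : Real.exp (2 * w) = Real.exp w * Real.exp w := by rw [← Real.exp_add]; ring_nf
    have h2 : 2 ≤ Real.exp w := by
      have := Real.add_one_le_exp (w : ℝ)
      linarith
    rw [h1]
    nlinarith
  have hb' : |b| ≤ (1 : ℕ) * (X : ℤ) := by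
    have : ((|b| : ℤ) : ℝ) ≤ X := by
      push_cast
      exact hb.trans hXe
    have h2 : |b| ≤ (X : ℤ) := by exact_mod_cast this
    simpa using h2
  have h := H X hXX a b ha haE hb'
  rw [one_mul] at h
  have hwl : w ≤ ⌊Real.log X⌋₊ := Nat.le_floor hl1
  calc ∑ c ∈ (Icc (-(w : ℤ)) w).filter (fun c => a * c + b ≠ 0), gg (a * c + b) ^ k
      ≤ ∑ c ∈ (Icc (-((⌊Real.log X⌋₊ : ℕ) : ℤ)) (⌊Real.log X⌋₊ : ℕ)).filter (fun c => a * c + b ≠ 0),
        gg (a * c + b) ^ k := by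
        apply sum_le_sum_of_subset_of_nonneg
        · apply filter_subset_filter
          apply Icc_subset_Icc
          · have : (w : ℤ) ≤ (⌊Real.log X⌋₊ : ℕ) := by exact_mod_cast hwl
            linarith
          · exact_mod_cast hwl
        · intro c _ _
          have := one_le_gg (a * c + b)
          positivity
    _ ≤ K₁ * Real.log X := h
    _ ≤ K₁ * (2 * w) := mul_le_mul_of_nonneg_left hl2 hK₁.le
    _ = 2 * K₁ * w := by ring

theorem gg_mono {u v : ℤ} (hv : v ≠ 0) (h : u ∣ v) : gg u ≤ gg v := by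
  unfold gg
  have hsub : u.natAbs.primeFactors ⊆ v.natAbs.primeFactors :=
    Nat.primeFactors_mono (Int.natAbs_dvd_natAbs.2 h) (Int.natAbs_ne_zero.2 hv)
  rw [← prod_sdiff hsub]
  apply le_mul_of_one_le_left
  · apply prod_nonneg
    intro p hp
    have := one_le_fac p (Nat.prime_of_mem_primeFactors hp)
    linarith
  · apply one_le_prod
    intro p hp
    exact one_le_fac p (Nat.prime_of_mem_primeFactors (mem_sdiff.1 hp).1)

/-- the slopes of the double system -/
def aa (a : Fin k → ℤ) : Fin (k + k) → ℤ := Fin.append a a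

/-- the constant terms of the double system -/
def bb (a b : Fin k → ℤ) (d : ℤ) : Fin (k + k) → ℤ := Fin.append b (fun l => b l + a l * d)

/-- the determinant of the form `l` and of the form `m` shifted by `d` -/
def cr (a b : Fin k → ℤ) (l m : Fin k) (d : ℤ) : ℤ := (a l * a m) * d + (a l * b m - a m * b l)

/-- the product of the slopes and of the determinants of the system -/
def D0 (a b : Fin k → ℤ) : ℤ := (∏ l, a l) * ∏ l, ∏ m, (if l = m then 1 else a l * b m - a m * b l)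

theorem D0_ne {a b : Fin k → ℤ} (ha : ∀ l, a l ≠ 0) (hab : ∀ l m, l ≠ m → a l * b m - a m * b l ≠ 0) :
    D0 a b ≠ 0 := by
  unfold D0
  refine mul_ne_zero (prod_ne_zero_iff.2 fun l _ => ha l) (prod_ne_zero_iff.2 fun l _ => prod_ne_zero_iff.2 fun m _ => ?_)
  split_ifs with h
  · norm_num
  · exact hab l m h

theorem dvd_D0_a (a b : Fin k → ℤ) (l : Fin k) : a l ∣ D0 a b := by
  unfold D0
  exact (dvd_prod_of_mem a (mem_univ l)).mul_right _

theorem dvd_D0_ab (a b : Fin k → ℤ) (l m : Fin k) (h : l ≠ m) : a l * b m - a m * b l ∣ D0 a b := by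
  unfold D0
  apply Dvd.dvd.mul_left
  refine Dvd.dvd.trans ?_ (dvd_prod_of_mem (fun l => ∏ m, (if l = m then 1 else a l * b m - a m * b l)) (mem_univ l))
  have h1 := dvd_prod_of_mem (fun m => (if l = m then 1 else a l * b m - a m * b l)) (mem_univ m)
  simp only [if_neg h] at h1
  exact h1

theorem dvd_cr (a b : Fin k → ℤ) (d : ℤ) (l m : Fin k) : cr a b l m d ∣ ∏ l, ∏ m, cr a b l m d :=
  (dvd_prod_of_mem (fun m => cr a b l m d) (mem_univ m)).trans
    (dvd_prod_of_mem (fun l => ∏ m, cr a b l m d) (mem_univ l))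

theorem VL_dbl (hk : 1 ≤ k) (a b : Fin k → ℤ) (ha : ∀ l, a l ≠ 0)
    (hab : ∀ l m, l ≠ m → a l * b m - a m * b l ≠ 0) :
    ∃ G : ℝ, 0 < G ∧ ∀ᶠ X : ℕ in atTop, ∀ d : ℤ, (∀ l m, cr a b l m d ≠ 0) →
      VL (aa a) (bb a b d) X ≤ G / Real.log X ^ (2 * k) * ∑ l, ∑ m, gg (cr a b l m d) ^ (2 * k ^ 3) := by
  classical
  have hD := D0_ne ha hab
  refine ⟨gg (D0 a b) ^ (2 * k), by have := one_le_gg (D0 a b); positivity, ?_⟩
  filter_upwards [VL_le_gg, eventually_ge_atTop 3] with X hX hX3 d hd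
  have hlog : 0 < Real.log X := Real.log_pos (by exact_mod_cast (by omega : 1 < X))
  have hC : ∏ l, ∏ m, cr a b l m d ≠ 0 := prod_ne_zero_iff.2 fun l _ => prod_ne_zero_iff.2 fun m _ => hd l m
  have h1 := hX (k + k) (aa a) (bb a b d) (D0 a b * ∏ l, ∏ m, cr a b l m d) (mul_ne_zero hD hC) (by
    intro l
    unfold aa
    refine Fin.addCases (fun i => ?_) (fun i => ?_) l
    · rw [Fin.append_left]
      exact (dvd_D0_a a b i).mul_right _
    · rw [Fin.append_right]
      exact (dvd_D0_a a b i).mul_right _) (by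
    intro l l' hl
    unfold aa bb
    revert hl
    refine Fin.addCases (fun i => ?_) (fun i => ?_) l
    · refine Fin.addCases (fun j => ?_) (fun j => ?_) l'
      · intro hl
        rw [Fin.append_left, Fin.append_left, Fin.append_left, Fin.append_left]
        exact (dvd_D0_ab a b i j (fun h => hl (by rw [h]))).mul_right _
      · intro _
        rw [Fin.append_left, Fin.append_left, Fin.append_right, Fin.append_right]
        have h2 : a i * (b j + a j * d) - a j * b i = cr a b i j d := by unfold cr; ring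
        rw [h2]
        exact (dvd_cr a b d i j).mul_left _
    · refine Fin.addCases (fun j => ?_) (fun j => ?_) l'
      · intro _
        rw [Fin.append_left, Fin.append_left, Fin.append_right, Fin.append_right]
        have h2 : a i * b j - a j * (b i + a i * d) = -cr a b j i d := by unfold cr; ring
        rw [h2, neg_dvd]
        exact (dvd_cr a b d j i).mul_left _
      · intro hl
        rw [Fin.append_right, Fin.append_right, Fin.append_right, Fin.append_right]
        have h2 : a i * (b j + a j * d) - a j * (b i + a i * d) = a i * b j - a j * b i := by ring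
        rw [h2]
        exact (dvd_D0_ab a b i j (fun h => hl (by rw [h]))).mul_right _)
  have h2 : gg (D0 a b * ∏ l, ∏ m, cr a b l m d) ≤ gg (D0 a b) * ∏ l, ∏ m, gg (cr a b l m d) := by
    refine (gg_mul_le _ _ hD hC).trans ?_
    apply mul_le_mul_of_nonneg_left _ (by have := one_le_gg (D0 a b); linarith)
    refine (gg_prod_le _ fun l => prod_ne_zero_iff.2 fun m _ => hd l m).trans ?_
    apply Finset.prod_le_prod
    · intro l _
      have := one_le_gg (∏ m, cr a b l m d)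
      linarith
    · intro l _
      exact gg_prod_le _ fun m => hd l m
  have hy0 : ∀ l m, 0 ≤ gg (cr a b l m d) := fun l m => by
    have := one_le_gg (cr a b l m d)
    linarith
  have h3 : (∏ l, ∏ m, gg (cr a b l m d)) ^ (2 * k) ≤ ∑ l, ∑ m, gg (cr a b l m d) ^ (2 * k ^ 3) := by
    calc (∏ l, ∏ m, gg (cr a b l m d)) ^ (2 * k) = ∏ l, ∏ m, gg (cr a b l m d) ^ (2 * k) := by
          rw [← prod_pow]
          refine prod_congr rfl fun l _ => ?_
          rw [← prod_pow]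
      _ ≤ ∑ l, (∏ m, gg (cr a b l m d) ^ (2 * k)) ^ k :=
          prod_le_sum_pow hk _ fun l => prod_nonneg fun m _ => pow_nonneg (hy0 l m) _
      _ = ∑ l, ∏ m, gg (cr a b l m d) ^ (2 * k * k) := by
          refine sum_congr rfl fun l _ => ?_
          rw [← prod_pow]
          refine prod_congr rfl fun m _ => ?_
          rw [← pow_mul]
      _ ≤ ∑ l, ∑ m, (gg (cr a b l m d) ^ (2 * k * k)) ^ k := by
          apply sum_le_sum
          intro l _
          exact prod_le_sum_pow hk _ fun m => pow_nonneg (hy0 l m) _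
      _ = ∑ l, ∑ m, gg (cr a b l m d) ^ (2 * k ^ 3) := by
          refine sum_congr rfl fun l _ => sum_congr rfl fun m _ => ?_
          rw [← pow_mul]
          congr 1
          ring
  have h4 : (gg (D0 a b * ∏ l, ∏ m, cr a b l m d) / Real.log X) ^ (k + k) ≤
      (gg (D0 a b) * ∏ l, ∏ m, gg (cr a b l m d)) ^ (2 * k) / Real.log X ^ (2 * k) := by
    rw [div_pow, ← two_mul]
    apply div_le_div_of_nonneg_right _ (by positivity)
    apply pow_le_pow_left₀ _ h2
    have := one_le_gg (D0 a b * ∏ l, ∏ m, cr a b l m d)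
    linarith
  refine (h1.trans h4).trans ?_
  rw [mul_pow]
  have h5 : 0 ≤ gg (D0 a b) ^ (2 * k) := by have := one_le_gg (D0 a b); positivity
  calc gg (D0 a b) ^ (2 * k) * (∏ l, ∏ m, gg (cr a b l m d)) ^ (2 * k) / Real.log X ^ (2 * k)
      = gg (D0 a b) ^ (2 * k) / Real.log X ^ (2 * k) * (∏ l, ∏ m, gg (cr a b l m d)) ^ (2 * k) := by ring
    _ ≤ _ := mul_le_mul_of_nonneg_left h3 (by positivity)

theorem exp_big (E M : ℝ) : ∀ᶠ w : ℕ in atTop, E * (w : ℝ) ^ 2 + M ≤ Real.exp w := by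
  have h1 : Tendsto (fun x : ℝ => x ^ 2 * Real.exp (-x)) atTop (nhds 0) := by
    have := Real.tendsto_pow_mul_exp_neg_atTop_nhds_zero 2
    exact this
  have h2 : Tendsto (fun x : ℝ => x ^ 0 * Real.exp (-x)) atTop (nhds 0) := by
    have := Real.tendsto_pow_mul_exp_neg_atTop_nhds_zero 0
    exact this
  have h3 : Tendsto (fun x : ℝ => E * (x ^ 2 * Real.exp (-x)) + M * (x ^ 0 * Real.exp (-x))) atTop
      (nhds (E * 0 + M * 0)) := (h1.const_mul E).add (h2.const_mul M)
  have h4 := (h3.comp tendsto_natCast_atTop_atTop).eventually (gt_mem_nhds (show E * 0 + M * 0 < (1 : ℝ) by norm_num))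
  filter_upwards [h4] with w hw
  simp only [Function.comp, pow_zero, one_mul] at hw
  have h5 : 0 < Real.exp w := Real.exp_pos _
  have h6 : (E * ((w : ℝ) ^ 2 * Real.exp (-w)) + M * Real.exp (-w)) * Real.exp w = E * (w : ℝ) ^ 2 + M := by
    have : Real.exp (-(w : ℝ)) * Real.exp w = 1 := by rw [← Real.exp_add]; simp
    linear_combination (E * (w : ℝ) ^ 2 + M) * this
  rw [← h6]
  calc _ ≤ 1 * Real.exp w := mul_le_mul_of_nonneg_right hw.le h5.le
    _ = _ := one_mul _

/-- **the pairs `(n, d)`, for `d` in an interval** -/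
theorem pair_sum (hk : 1 ≤ k) (a b : Fin k → ℤ) (ha : ∀ l, a l ≠ 0)
    (hab : ∀ l m, l ≠ m → a l * b m - a m * b l ≠ 0) (β : ℝ) (hβ : 0 < β) :
    ∃ K₂ : ℝ, 0 < K₂ ∧ ∃ w₀ X₀ : ℕ, ∀ X : ℕ, X₀ ≤ X → ∀ w : ℕ, w₀ ≤ w → ∀ d₀ : ℤ, |d₀| ≤ (w : ℤ) ^ 2 →
      ∀ A B : ℕ, B ≤ X → (X : ℝ) ^ (1 / 2 : ℝ) ≤ (B : ℝ) - A →
        ∑ c ∈ (Icc (-(w : ℤ)) w).filter (fun c => ∀ l m, cr a b l m (d₀ + c) ≠ 0),
          ((RL (aa a) (bb a b (d₀ + c)) ((X : ℝ) ^ β) A B).card : ℝ) ≤
            K₂ * w * ((B : ℝ) - A) / Real.log X ^ (2 * k) := by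
  classical
  obtain ⟨E, hE⟩ : ∃ E : ℕ, E = ∑ l, (a l).natAbs := ⟨_, rfl⟩
  have haE : ∀ l, |a l| ≤ E := by
    intro l
    have h1 : (a l).natAbs ≤ E := by
      rw [hE]
      exact single_le_sum (f := fun l => (a l).natAbs) (fun _ _ => Nat.zero_le _) (mem_univ l)
    rw [Int.abs_eq_natAbs]
    exact_mod_cast h1
  obtain ⟨KU, hKU, n₀, H1⟩ := rough_lin (k + k) E (by omega) (1 / 2) (by norm_num) β hβ
  obtain ⟨G, hG, H2⟩ := VL_dbl hk a b ha hab
  obtain ⟨X₁, H2⟩ := eventually_atTop.1 H2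
  obtain ⟨Ka, hKa, w₀, H3⟩ := avg_iv (2 * k ^ 3) (E * E)
  obtain ⟨M, hM⟩ : ∃ M : ℕ, ∀ l m, |a l * b m - a m * b l| ≤ M := by
    refine ⟨∑ l, ∑ m, (a l * b m - a m * b l).natAbs, fun l m => ?_⟩
    have h1 : (a l * b m - a m * b l).natAbs ≤ ∑ l, ∑ m, (a l * b m - a m * b l).natAbs :=
      (single_le_sum (f := fun m => (a l * b m - a m * b l).natAbs) (fun _ _ => Nat.zero_le _) (mem_univ m)).trans
        (single_le_sum (f := fun l => ∑ m, (a l * b m - a m * b l).natAbs) (fun _ _ => Nat.zero_le _) (mem_univ l))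
    rw [Int.abs_eq_natAbs]
    exact_mod_cast h1
  obtain ⟨w₁, H4⟩ := eventually_atTop.1 (exp_big (E * E) M)
  refine ⟨KU * G * (k * k * Ka), ?_, w₀ + w₁, n₀ + X₁ + 3, fun X hX w hw d₀ hd₀ A B hB hAB => ?_⟩
  · have : (0 : ℝ) < k := by exact_mod_cast hk
    positivity
  have hlog : 0 < Real.log X := Real.log_pos (by exact_mod_cast (by omega : 1 < X))
  have hBA : 0 ≤ (B : ℝ) - A := le_trans (by positivity) hAB
  obtain ⟨S, hS⟩ : ∃ S : Finset ℤ, S = (Icc (-(w : ℤ)) w).filter (fun c => ∀ l m, cr a b l m (d₀ + c) ≠ 0) := ⟨_, rfl⟩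
  rw [← hS]
  have hSl : ∀ c ∈ S, ∀ l m, cr a b l m (d₀ + c) ≠ 0 := by
    intro c hc
    rw [hS, mem_filter] at hc
    exact hc.2
  have haa : ∀ l, aa a l ≠ 0 := by
    intro l
    unfold aa
    refine Fin.addCases (fun i => ?_) (fun i => ?_) l
    · rw [Fin.append_left]; exact ha i
    · rw [Fin.append_right]; exact ha i
  have haaE : ∀ l, |aa a l| ≤ E := by
    intro l
    unfold aa
    refine Fin.addCases (fun i => ?_) (fun i => ?_) l
    · rw [Fin.append_left]; exact haE i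
    · rw [Fin.append_right]; exact haE i
  have hav : ∀ l m, ∑ c ∈ S, gg (cr a b l m (d₀ + c)) ^ (2 * k ^ 3) ≤ Ka * w := by
    intro l m
    have h1 := H3 w (by omega) (a l * a m) ((a l * a m) * d₀ + (a l * b m - a m * b l))
      (mul_ne_zero (ha l) (ha m)) (by
        rw [abs_mul]
        push_cast
        exact mul_le_mul (haE l) (haE m) (abs_nonneg _) (by positivity)) (by
        have h2 : |(a l * a m) * d₀ + (a l * b m - a m * b l)| ≤ ((E * E : ℕ) : ℤ) * (w : ℤ) ^ 2 + M := by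
          refine (abs_add_le _ _).trans (add_le_add ?_ (hM l m))
          rw [abs_mul, abs_mul]
          push_cast
          exact mul_le_mul (mul_le_mul (haE l) (haE m) (abs_nonneg _) (by positivity)) hd₀ (abs_nonneg _)
            (by positivity)
        have h3 : ((|(a l * a m) * d₀ + (a l * b m - a m * b l)| : ℤ) : ℝ) ≤
            ((((E * E : ℕ) : ℤ) * (w : ℤ) ^ 2 + M : ℤ) : ℝ) := by exact_mod_cast h2
        rw [Int.cast_abs] at h3
        refine h3.trans ?_
        push_cast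
        exact_mod_cast H4 w (by omega))
    refine le_trans ?_ h1
    have h4 : S ⊆ (Icc (-(w : ℤ)) w).filter
        (fun c => (a l * a m) * c + ((a l * a m) * d₀ + (a l * b m - a m * b l)) ≠ 0) := by
      intro c hc
      have h5 := hSl c hc l m
      rw [hS, mem_filter] at hc
      rw [mem_filter]
      refine ⟨hc.1, fun h6 => h5 ?_⟩
      unfold cr
      rw [← h6]
      ring
    calc ∑ c ∈ S, gg (cr a b l m (d₀ + c)) ^ (2 * k ^ 3)
        = ∑ c ∈ S, gg ((a l * a m) * c + ((a l * a m) * d₀ + (a l * b m - a m * b l))) ^ (2 * k ^ 3) := by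
          refine sum_congr rfl fun c _ => ?_
          congr 2
          unfold cr
          ring
      _ ≤ _ := by
          apply sum_le_sum_of_subset_of_nonneg h4
          intro c _ _
          have := one_le_gg ((a l * a m) * c + ((a l * a m) * d₀ + (a l * b m - a m * b l)))
          positivity
  calc ∑ c ∈ S, ((RL (aa a) (bb a b (d₀ + c)) ((X : ℝ) ^ β) A B).card : ℝ)
      ≤ ∑ c ∈ S, KU * ((B : ℝ) - A) * (G / Real.log X ^ (2 * k) *
          ∑ l, ∑ m, gg (cr a b l m (d₀ + c)) ^ (2 * k ^ 3)) := by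
        apply sum_le_sum
        intro c hc
        refine (H1 X (by omega) (aa a) (bb a b (d₀ + c)) haa haaE A B hB hAB).trans ?_
        exact mul_le_mul_of_nonneg_left (H2 X (by omega) (d₀ + c) (hSl c hc)) (by positivity)
    _ = KU * ((B : ℝ) - A) * (G / Real.log X ^ (2 * k)) * ∑ l, ∑ m, ∑ c ∈ S, gg (cr a b l m (d₀ + c)) ^ (2 * k ^ 3) := by
        simp only [← mul_assoc]
        rw [← mul_sum, sum_comm]
        congr 1
        exact sum_congr rfl fun l _ => sum_comm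
    _ ≤ KU * ((B : ℝ) - A) * (G / Real.log X ^ (2 * k)) * ∑ _l : Fin k, ∑ _m : Fin k, Ka * w := by
        apply mul_le_mul_of_nonneg_left _ (by positivity)
        exact sum_le_sum fun l _ => sum_le_sum fun m _ => hav l m
    _ = KU * G * (k * k * Ka) * w * ((B : ℝ) - A) / Real.log X ^ (2 * k) := by
        simp only [sum_const, card_univ, Fintype.card_fin, nsmul_eq_mul]
        ring

/-- for `d ≠ 0` one of the shifted forms is new -/
theorem new_form (hk : 1 ≤ k) (a b : Fin k → ℤ) (ha : ∀ l, a l ≠ 0) (d : ℤ) (hd : d ≠ 0) :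
    ∃ m, ∀ l, cr a b l m d ≠ 0 := by
  have : Nonempty (Fin k) := ⟨⟨0, hk⟩⟩
  have key : ∀ l m, cr a b l m d = 0 → (b l : ℚ) / a l - (b m : ℚ) / a m = d := by
    intro l m h
    have h1 : (a l : ℚ) ≠ 0 := by exact_mod_cast ha l
    have h2 : (a m : ℚ) ≠ 0 := by exact_mod_cast ha m
    have h3 : ((a l : ℚ) * a m) * d + (a l * b m - a m * b l) = 0 := by
      have : ((cr a b l m d : ℤ) : ℚ) = 0 := by rw [h]; simp
      unfold cr at this
      push_cast at this
      exact this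
    field_simp
    linarith
  rcases lt_or_gt_of_ne hd with h0 | h0
  · obtain ⟨m, hm⟩ := Finite.exists_min (fun l => (b l : ℚ) / a l)
    refine ⟨m, fun l h => ?_⟩
    have h1 := key l m h
    have h2 := hm l
    have h3 : (d : ℚ) < 0 := by exact_mod_cast h0
    linarith
  · obtain ⟨m, hm⟩ := Finite.exists_max (fun l => (b l : ℚ) / a l)
    refine ⟨m, fun l h => ?_⟩
    have h1 := key l m h
    have h2 := hm l
    have h3 : (0 : ℚ) < d := by exact_mod_cast h0
    linarith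

theorem deg_one (hk : 1 ≤ k) (a b : Fin k → ℤ) (ha : ∀ l, a l ≠ 0)
    (hab : ∀ l m, l ≠ m → a l * b m - a m * b l ≠ 0) (β : ℝ) (hβ : 0 < β) (d : ℤ) (hd : d ≠ 0) :
    ∃ K : ℝ, 0 < K ∧ ∃ X₀ : ℕ, ∀ X : ℕ, X₀ ≤ X → ∀ A B : ℕ, B ≤ X → (X : ℝ) ^ (1 / 2 : ℝ) ≤ (B : ℝ) - A →
      ((RL (aa a) (bb a b d) ((X : ℝ) ^ β) A B).card : ℝ) ≤ K * ((B : ℝ) - A) / Real.log X ^ (k + 1) := by
  classical
  obtain ⟨m, hm⟩ := new_form hk a b ha d hd
  obtain ⟨E, hE⟩ : ∃ E : ℕ, E = ∑ l, (a l).natAbs := ⟨_, rfl⟩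
  have haE : ∀ l, |a l| ≤ E := by
    intro l
    have h1 : (a l).natAbs ≤ E := by
      rw [hE]
      exact single_le_sum (f := fun l => (a l).natAbs) (fun _ _ => Nat.zero_le _) (mem_univ l)
    rw [Int.abs_eq_natAbs]
    exact_mod_cast h1
  obtain ⟨KU, hKU, n₀, H1⟩ := rough_lin (k + 1) E (by omega) (1 / 2) (by norm_num) β hβ
  obtain ⟨X₁, H2⟩ := eventually_atTop.1 VL_le_gg
  obtain ⟨D, hD⟩ : ∃ D : ℤ, D = D0 a b * ∏ l, cr a b l m d := ⟨_, rfl⟩
  have hD0 : D ≠ 0 := by
    rw [hD]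
    exact mul_ne_zero (D0_ne ha hab) (prod_ne_zero_iff.2 fun l _ => hm l)
  have hcD : ∀ l, cr a b l m d ∣ D := by
    intro l
    rw [hD]
    exact (dvd_prod_of_mem (fun l => cr a b l m d) (mem_univ l)).mul_left _
  refine ⟨KU * gg D ^ (k + 1), by have := one_le_gg D; positivity, n₀ + X₁ + 3, fun X hX A B hB hAB => ?_⟩
  have hlog : 0 < Real.log X := Real.log_pos (by exact_mod_cast (by omega : 1 < X))
  have hBA : 0 ≤ (B : ℝ) - A := le_trans (by positivity) hAB
  have h1 := H1 X (by omega) (Fin.cons (a m) a : Fin (k + 1) → ℤ) (Fin.cons (b m + a m * d) b : Fin (k + 1) → ℤ) (by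
    intro l
    refine Fin.cases ?_ (fun i => ?_) l
    · exact ha m
    · exact ha i) (by
    intro l
    refine Fin.cases ?_ (fun i => ?_) l
    · exact haE m
    · exact haE i) A B hB hAB
  have h2 := H2 X (by omega) (k + 1) (Fin.cons (a m) a : Fin (k + 1) → ℤ)
    (Fin.cons (b m + a m * d) b : Fin (k + 1) → ℤ) D hD0 (by
    intro l
    refine Fin.cases ?_ (fun i => ?_) l
    · rw [Fin.cons_zero, hD]
      exact (dvd_D0_a a b m).mul_right _
    · rw [Fin.cons_succ, hD]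
      exact (dvd_D0_a a b i).mul_right _) (by
    intro l l' hl
    revert hl
    refine Fin.cases ?_ (fun i => ?_) l
    · refine Fin.cases ?_ (fun j => ?_) l'
      · intro hl
        exact absurd rfl hl
      · intro _
        rw [Fin.cons_zero, Fin.cons_zero, Fin.cons_succ, Fin.cons_succ]
        have h3 : a m * b j - a j * (b m + a m * d) = -cr a b j m d := by unfold cr; ring
        rw [h3, neg_dvd]
        exact hcD j
    · refine Fin.cases ?_ (fun j => ?_) l'
      · intro _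
        rw [Fin.cons_zero, Fin.cons_zero, Fin.cons_succ, Fin.cons_succ]
        have h3 : a i * (b m + a m * d) - a m * b i = cr a b i m d := by unfold cr; ring
        rw [h3]
        exact hcD i
      · intro hl
        rw [Fin.cons_succ, Fin.cons_succ, Fin.cons_succ, Fin.cons_succ, hD]
        exact (dvd_D0_ab a b i j (fun h => hl (by rw [h]))).mul_right _)
  have h3 : RL (aa a) (bb a b d) ((X : ℝ) ^ β) A B ⊆
      RL (Fin.cons (a m) a : Fin (k + 1) → ℤ) (Fin.cons (b m + a m * d) b : Fin (k + 1) → ℤ) ((X : ℝ) ^ β) A B := by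
    intro n hn
    unfold RL at hn ⊢
    rw [mem_filter] at hn ⊢
    refine ⟨hn.1, fun l p hp hy => ?_⟩
    refine Fin.cases ?_ (fun i => ?_) l
    · rw [Fin.cons_zero, Fin.cons_zero]
      have h4 := hn.2 (Fin.natAdd k m) p hp hy
      unfold aa bb at h4
      rwa [Fin.append_right, Fin.append_right] at h4
    · rw [Fin.cons_succ, Fin.cons_succ]
      have h4 := hn.2 (Fin.castAdd k i) p hp hy
      unfold aa bb at h4
      rwa [Fin.append_left, Fin.append_left] at h4
  calc ((RL (aa a) (bb a b d) ((X : ℝ) ^ β) A B).card : ℝ)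
      ≤ ((RL (Fin.cons (a m) a : Fin (k + 1) → ℤ) (Fin.cons (b m + a m * d) b : Fin (k + 1) → ℤ)
        ((X : ℝ) ^ β) A B).card : ℝ) := by exact_mod_cast card_le_card h3
    _ ≤ _ := h1
    _ ≤ KU * ((B : ℝ) - A) * (gg D / Real.log X) ^ (k + 1) := mul_le_mul_of_nonneg_left h2 (by positivity)
    _ = _ := by rw [div_pow]; ring

/-- **all the pairs `(n, d)`, for `d ≠ 0` in an interval** -/
theorem pair_all (hk : 1 ≤ k) (a b : Fin k → ℤ) (ha : ∀ l, a l ≠ 0)
    (hab : ∀ l m, l ≠ m → a l * b m - a m * b l ≠ 0) (β : ℝ) (hβ : 0 < β) :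
    ∃ K₂ K₃ : ℝ, 0 < K₂ ∧ 0 < K₃ ∧ ∃ w₀ X₀ : ℕ, ∀ X : ℕ, X₀ ≤ X → ∀ w : ℕ, w₀ ≤ w → ∀ d₀ : ℤ,
      |d₀| ≤ (w : ℤ) ^ 2 → ∀ A B : ℕ, B ≤ X → (X : ℝ) ^ (1 / 2 : ℝ) ≤ (B : ℝ) - A →
        ∀ T : Finset ℤ, (∀ d ∈ T, d ≠ 0 ∧ |d - d₀| ≤ w) →
        ∑ d ∈ T, ((RL (aa a) (bb a b d) ((X : ℝ) ^ β) A B).card : ℝ) ≤
            K₂ * w * ((B : ℝ) - A) / Real.log X ^ (2 * k) + K₃ * ((B : ℝ) - A) / Real.log X ^ (k + 1) := by
  classical
  obtain ⟨K₂, hK₂, w₀, X₀, H⟩ := pair_sum hk a b ha hab β hβ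
  obtain ⟨M, hM⟩ : ∃ M : ℕ, ∀ l m, |a l * b m - a m * b l| ≤ M := by
    refine ⟨∑ l, ∑ m, (a l * b m - a m * b l).natAbs, fun l m => ?_⟩
    have h1 : (a l * b m - a m * b l).natAbs ≤ ∑ l, ∑ m, (a l * b m - a m * b l).natAbs :=
      (single_le_sum (f := fun m => (a l * b m - a m * b l).natAbs) (fun _ _ => Nat.zero_le _) (mem_univ m)).trans
        (single_le_sum (f := fun l => ∑ m, (a l * b m - a m * b l).natAbs) (fun _ _ => Nat.zero_le _) (mem_univ l))
    rw [Int.abs_eq_natAbs]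
    exact_mod_cast h1
  obtain ⟨Z, hZ⟩ : ∃ Z : Finset ℤ, Z = (Icc (-(M : ℤ)) M).filter (fun d => d ≠ 0) := ⟨_, rfl⟩
  have hdeg : ∀ d : ℤ, d ≠ 0 → ¬ (∀ l m, cr a b l m d ≠ 0) → d ∈ Z := by
    intro d hd h
    push Not at h
    obtain ⟨l, m, h⟩ := h
    rw [hZ, mem_filter, mem_Icc, ← abs_le]
    refine ⟨?_, hd⟩
    have h1 : (a l * a m) * d = -(a l * b m - a m * b l) := by
      unfold cr at h
      linarith
    have h2 : |a l * a m| * |d| ≤ M := by
      rw [← abs_mul, h1, abs_neg]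
      exact hM l m
    have h3 : 1 ≤ |a l * a m| := Int.one_le_abs (mul_ne_zero (ha l) (ha m))
    nlinarith [abs_nonneg d]
  have hex : ∃ K₃ : ℝ, 0 < K₃ ∧ ∃ X₁ : ℕ, ∀ X : ℕ, X₁ ≤ X → ∀ A B : ℕ, B ≤ X →
      (X : ℝ) ^ (1 / 2 : ℝ) ≤ (B : ℝ) - A →
      ∑ d ∈ Z, ((RL (aa a) (bb a b d) ((X : ℝ) ^ β) A B).card : ℝ) ≤ K₃ * ((B : ℝ) - A) / Real.log X ^ (k + 1) := by
    have hZ0 : ∀ d ∈ Z, d ≠ 0 := by
      intro d hd
      rw [hZ, mem_filter] at hd
      exact hd.2
    clear hZ hdeg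
    induction Z using Finset.induction_on with
    | empty =>
      refine ⟨1, one_pos, 3, fun X hX A B hB hAB => ?_⟩
      have hlog : 0 < Real.log X := Real.log_pos (by exact_mod_cast (by omega : 1 < X))
      have hBA : 0 ≤ (B : ℝ) - A := le_trans (by positivity) hAB
      rw [sum_empty]
      positivity
    | insert d Z hdZ ih =>
      obtain ⟨K, hK, X₁, h1⟩ := ih (fun e he => hZ0 e (mem_insert_of_mem he))
      obtain ⟨K', hK', X₂, h2⟩ := deg_one hk a b ha hab β hβ d (hZ0 d (mem_insert_self _ _))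
      refine ⟨K' + K, by positivity, X₁ + X₂, fun X hX A B hB hAB => ?_⟩
      rw [sum_insert hdZ]
      have e1 := h1 X (by omega) A B hB hAB
      have e2 := h2 X (by omega) A B hB hAB
      calc _ ≤ K' * ((B : ℝ) - A) / Real.log X ^ (k + 1) + K * ((B : ℝ) - A) / Real.log X ^ (k + 1) := add_le_add e2 e1
        _ = _ := by ring
  obtain ⟨K₃, hK₃, X₁, H3⟩ := hex
  refine ⟨K₂, K₃, hK₂, hK₃, w₀, X₀ + X₁, fun X hX w hw d₀ hd₀ A B hB hAB T hT => ?_⟩
  rw [← sum_filter_add_sum_filter_not T (fun d => ∀ l m, cr a b l m d ≠ 0)]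
  apply add_le_add
  · refine le_trans ?_ (H X (by omega) w hw d₀ hd₀ A B hB hAB)
    have h1 : ∑ d ∈ T.filter (fun d => ∀ l m, cr a b l m d ≠ 0),
        ((RL (aa a) (bb a b d) ((X : ℝ) ^ β) A B).card : ℝ) =
        ∑ c ∈ (T.filter (fun d => ∀ l m, cr a b l m d ≠ 0)).image (fun d => d - d₀),
        ((RL (aa a) (bb a b (d₀ + c)) ((X : ℝ) ^ β) A B).card : ℝ) := by
      rw [sum_image (by
        intro x _ y _ h
        simp only at h
        linarith)]
      refine sum_congr rfl fun d _ => ?_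
      rw [add_sub_cancel]
    rw [h1]
    apply sum_le_sum_of_subset_of_nonneg
    · intro c hc
      rw [mem_image] at hc
      obtain ⟨d, hd, rfl⟩ := hc
      rw [mem_filter] at hd
      rw [mem_filter, mem_Icc, ← abs_le]
      refine ⟨(hT d hd.1).2, ?_⟩
      rw [add_sub_cancel]
      exact hd.2
    · intro c _ _
      positivity
  · refine le_trans ?_ (H3 X (by omega) A B hB hAB)
    apply sum_le_sum_of_subset_of_nonneg
    · intro d hd
      rw [mem_filter] at hd
      exact hdeg d (hT d hd.1).1 hd.2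
    · intro c _ _
      positivity

end Pool.Agent.T6.H2.PT
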